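import Mathlib

namespace Pool.Agent.Helper848.AztecCoeff

open Polynomial Finset

/-- central coefficient -/
noncomputable def cc (a b : ℕ) : ℚ := ((1 + X) ^ (2 * a) * (1 - X) ^ (2 * b) : ℚ[X]).coeff (a + b)

theorem cc_rec1 (a b : ℕ) : 4 * cc a b = cc (a + 1) b - cc a (b + 1) := by
  unfold cc
  rw [show a + 1 + b = a + b + 1 from by ring, show a + (b + 1) = a + b + 1 from by ring,
    ← coeff_sub]
  have h : ((1 + X) ^ (2 * (a + 1)) * (1 - X) ^ (2 * b) -
      (1 + X) ^ (2 * a) * (1 - X) ^ (2 * (b + 1)) : ℚ[X]) =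
      C 4 * (X * ((1 + X) ^ (2 * a) * (1 - X) ^ (2 * b))) := by
    rw [show (C (4 : ℚ) : ℚ[X]) = 4 from rfl]
    ring
  rw [h, coeff_C_mul, coeff_X_mul]

theorem cc_rec2 (a b : ℕ) : (2 * b + 1) * cc (a + 1) b + (2 * a + 1) * cc a (b + 1) = 0 := by
  set F : ℚ[X] := (1 + X) ^ (2 * a + 1) * (1 - X) ^ (2 * b + 1) with hF
  have h1 : (X * derivative F - C ((a : ℚ) + b + 1) * F).coeff (a + b + 1) = 0 := by
    rw [coeff_sub, coeff_X_mul, coeff_derivative, coeff_C_mul]
    push_cast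
    ring
  have hder : derivative F = C (2 * (a : ℚ) + 1) * ((1 + X) ^ (2 * a) * (1 - X) ^ (2 * b + 1)) -
      C (2 * (b : ℚ) + 1) * ((1 + X) ^ (2 * a + 1) * (1 - X) ^ (2 * b)) := by
    rw [hF, derivative_mul, derivative_pow_succ, derivative_pow_succ]
    simp only [derivative_sub, derivative_one, derivative_X, map_add, map_mul,
      map_natCast, map_one, Nat.cast_mul]
    push_cast
    rw [show (C (2 : ℚ) : ℚ[X]) = 2 from rfl]
    ring
  have h2 : C (2 : ℚ) * (X * derivative F - C ((a : ℚ) + b + 1) * F) =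
      - (C (2 * (b : ℚ) + 1) * ((1 + X) ^ (2 * (a + 1)) * (1 - X) ^ (2 * b)) +
        C (2 * (a : ℚ) + 1) * ((1 + X) ^ (2 * a) * (1 - X) ^ (2 * (b + 1)))) := by
    rw [hder, hF]
    simp only [map_add, map_mul, map_natCast, map_one]
    rw [show (C (2 : ℚ) : ℚ[X]) = 2 from rfl]
    ring
  have h3 := congrArg (fun P => coeff P (a + b + 1)) h2
  simp only [coeff_C_mul, coeff_neg, coeff_add] at h3
  have h4 : (X * derivative F - C ((a : ℚ) + b + 1) * F).coeff (a + b + 1) = 0 := h1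
  rw [h4, mul_zero] at h3
  unfold cc
  rw [show a + 1 + b = a + b + 1 from by ring, show a + (b + 1) = a + b + 1 from by ring]
  linarith

theorem cc_succ_left (a b : ℕ) : ((a : ℚ) + b + 1) * cc (a + 1) b = 2 * (2 * a + 1) * cc a b := by
  have h1 := cc_rec1 a b
  have h2 := cc_rec2 a b
  linear_combination (-(2 * (a : ℚ) + 1) / 2) * h1 + (1 / 2) * h2

theorem cc_succ_right (a b : ℕ) :
    ((a : ℚ) + b + 1) * cc a (b + 1) = - (2 * (2 * b + 1) * cc a b) := by
  have h1 := cc_rec1 a b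
  have h2 := cc_rec2 a b
  linear_combination ((2 * (b : ℚ) + 1) / 2) * h1 + (1 / 2) * h2

theorem cB_succ (n : ℕ) : ((n : ℚ) + 1) * (Nat.centralBinom (n + 1) : ℚ) =
    2 * (2 * n + 1) * Nat.centralBinom n := by
  exact_mod_cast Nat.succ_mul_centralBinom_succ n

theorem cc_zero (b : ℕ) : cc 0 b = (-1) ^ b * Nat.centralBinom b := by
  induction b with
  | zero => simp [cc]
  | succ b ih =>
    have h1 := cc_succ_right 0 b
    have h2 := cB_succ b
    have h3 : ((b : ℚ) + 1) ≠ 0 := by positivity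
    apply mul_left_cancel₀ h3
    rw [ih] at h1
    push_cast at h1
    rw [pow_succ]
    linear_combination h1 + (-1) ^ b * h2

theorem choose_cc (a b : ℕ) : ((a + b).choose a : ℚ) * cc a b =
    (-1) ^ b * Nat.centralBinom a * Nat.centralBinom b := by
  induction a with
  | zero => simp [cc_zero]
  | succ a ih =>
    have h1 := cc_succ_left a b
    have h2 := cB_succ a
    have h3 : ((a : ℚ) + 1) ≠ 0 := by positivity
    have h4 : ((a : ℚ) + b + 1) * ((a + b).choose a : ℚ) =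
        ((a + 1 + b).choose (a + 1) : ℚ) * (a + 1) := by
      have := Nat.add_one_mul_choose_eq (a + b) a
      rw [show a + 1 + b = a + b + 1 from by omega]
      exact_mod_cast this
    apply mul_left_cancel₀ h3
    have h5 : ((a : ℚ) + 1) * (((a + 1 + b).choose (a + 1) : ℚ) * cc (a + 1) b) =
        ((a + b).choose a : ℚ) * (((a : ℚ) + b + 1) * cc (a + 1) b) := by
      linear_combination (-cc (a + 1) b) * h4
    rw [h5, h1]
    linear_combination (2 * (2 * (a : ℚ) + 1)) * ih - (-1) ^ b * (Nat.centralBinom b : ℚ) * h2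

/-- discrete arcsine weights -/
def w (p j : ℕ) : ℚ := (Nat.centralBinom j * Nat.centralBinom (p - j)) / 4 ^ p

theorem w_eq (p j : ℕ) (h : j ≤ p) :
    (1 / 4 ^ p * (p.choose j) * (-1) ^ (p - j)) * cc j (p - j) = w p j := by
  have h1 := choose_cc j (p - j)
  rw [show j + (p - j) = p from by omega] at h1
  unfold w
  have h2 : ((-1 : ℚ) ^ (p - j)) * (-1) ^ (p - j) = 1 := by
    rw [← mul_pow]; simp
  have h3 : (1 / 4 ^ p * (p.choose j) * (-1) ^ (p - j)) * cc j (p - j) =
      1 / 4 ^ p * (-1) ^ (p - j) * ((p.choose j : ℚ) * cc j (p - j)) := by ring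
  rw [h3, h1]
  field_simp
  linear_combination (Nat.centralBinom j : ℚ) * Nat.centralBinom (p - j) * h2

theorem w_symm (p j : ℕ) (h : j ≤ p) : w p (p - j) = w p j := by
  unfold w
  rw [show p - (p - j) = j from by omega, mul_comm]

theorem w_rec (p j : ℕ) (h : j < p) :
    w p (j + 1) * ((j + 1) * (2 * p - 2 * j - 1)) = w p j * ((2 * j + 1) * (p - j)) := by
  obtain ⟨b, rfl⟩ : ∃ b, p = j + b + 1 := ⟨p - j - 1, by omega⟩
  unfold w
  rw [show j + b + 1 - (j + 1) = b from by omega, show j + b + 1 - j = b + 1 from by omega]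
  have h1 := cB_succ j
  have h2 := cB_succ b
  push_cast
  field_simp
  linear_combination (2 * (b : ℚ) + 1) * Nat.centralBinom b * h1 -
    (2 * (j : ℚ) + 1) * Nat.centralBinom j * h2

/-- telescoping term -/
def tt (p j : ℕ) : ℚ := (2 * j + 1) / (2 * p - 2 * j - 1) * w p j

theorem tt_sum (p J : ℕ) (h : J ≤ p) :
    ∑ j ∈ range J, tt p j = 2 * J * w p J - ∑ j ∈ range J, w p j := by
  induction J with
  | zero => simp
  | succ J ih =>
    rw [sum_range_succ, sum_range_succ, ih (by omega)]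
    have h1 := w_rec p J (by omega)
    have h2 : (2 * (p : ℚ) - 2 * J - 1) ≠ 0 := by
      have : (J : ℚ) + 1 ≤ p := by exact_mod_cast h
      intro hc; linarith
    have h3 : tt p J = 2 * (J + 1) * w p (J + 1) - (2 * J + 1) * w p J := by
      unfold tt
      rw [div_mul_eq_mul_div, div_eq_iff h2]
      linear_combination (-2) * h1
    rw [h3]
    push_cast
    ring

/-! reflection of coefficients -/

theorem refl_add (Q : ℚ[X]) (N : ℕ) (s : ℚ) (h0 : ∀ m, N < m → Q.coeff m = 0)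
    (h : ∀ k ≤ N, Q.coeff k = s * Q.coeff (N - k)) :
    ∀ k ≤ N + 1, ((1 + X) * Q).coeff k = s * ((1 + X) * Q).coeff (N + 1 - k) := by
  intro k hk
  have hc : ∀ m, ((1 + X) * Q).coeff (m + 1) = Q.coeff (m + 1) + Q.coeff m := by
    intro m; rw [add_mul, one_mul, coeff_add, coeff_X_mul]
  have hc0 : ((1 + X) * Q).coeff 0 = Q.coeff 0 := by
    rw [add_mul, one_mul, coeff_add]; simp
  rcases k with _ | k
  · rw [Nat.sub_zero, hc0, hc, h0 (N + 1) (by omega), zero_add, h 0 (by omega), Nat.sub_zero]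
  · rw [hc]
    by_cases hkN : k = N
    · subst hkN
      rw [h0 (k + 1) (by omega), Nat.sub_self, hc0, zero_add, h k le_rfl, Nat.sub_self]
    · obtain ⟨m, hm⟩ : ∃ m, N - k = m + 1 := ⟨N - k - 1, by omega⟩
      rw [show N + 1 - (k + 1) = m + 1 from by omega, hc, h k (by omega), h (k + 1) (by omega), hm,
        show N - (k + 1) = m from by omega]
      ring

theorem refl_sub (Q : ℚ[X]) (N : ℕ) (s : ℚ) (h0 : ∀ m, N < m → Q.coeff m = 0)
    (h : ∀ k ≤ N, Q.coeff k = s * Q.coeff (N - k)) :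
    ∀ k ≤ N + 1, ((1 - X) * Q).coeff k = (-s) * ((1 - X) * Q).coeff (N + 1 - k) := by
  intro k hk
  have hc : ∀ m, ((1 - X) * Q).coeff (m + 1) = Q.coeff (m + 1) - Q.coeff m := by
    intro m; rw [sub_mul, one_mul, coeff_sub, coeff_X_mul]
  have hc0 : ((1 - X) * Q).coeff 0 = Q.coeff 0 := by
    rw [sub_mul, one_mul, coeff_sub]; simp
  rcases k with _ | k
  · rw [Nat.sub_zero, hc0, hc, h0 (N + 1) (by omega), h 0 (by omega), Nat.sub_zero]
    ring
  · rw [hc]
    by_cases hkN : k = N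
    · subst hkN
      rw [h0 (k + 1) (by omega), Nat.sub_self, hc0, h k le_rfl, Nat.sub_self]
      ring
    · obtain ⟨m, hm⟩ : ∃ m, N - k = m + 1 := ⟨N - k - 1, by omega⟩
      rw [show N + 1 - (k + 1) = m + 1 from by omega, hc, h k (by omega), h (k + 1) (by omega), hm,
        show N - (k + 1) = m from by omega]
      ring

theorem pp_coeff_zero (a b m : ℕ) (h : a + b < m) :
    ((1 + X) ^ a * (1 - X) ^ b : ℚ[X]).coeff m = 0 := by
  apply coeff_eq_zero_of_natDegree_lt
  refine lt_of_le_of_lt natDegree_mul_le ?_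
  have h1 : ((1 + X : ℚ[X]) ^ a).natDegree ≤ a := by
    refine natDegree_pow_le.trans ?_
    have : (1 + X : ℚ[X]).natDegree ≤ 1 := by
      refine (natDegree_add_le _ _).trans ?_
      simp
    calc a * (1 + X : ℚ[X]).natDegree ≤ a * 1 := Nat.mul_le_mul_left _ this
      _ = _ := mul_one _
  have h2 : ((1 - X : ℚ[X]) ^ b).natDegree ≤ b := by
    refine natDegree_pow_le.trans ?_
    have : (1 - X : ℚ[X]).natDegree ≤ 1 := by
      refine (natDegree_sub_le _ _).trans ?_
      simp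
    calc b * (1 - X : ℚ[X]).natDegree ≤ b * 1 := Nat.mul_le_mul_left _ this
      _ = _ := mul_one _
  omega

theorem refl_coeff (a b : ℕ) : ∀ k ≤ a + b, ((1 + X) ^ a * (1 - X) ^ b : ℚ[X]).coeff k =
    (-1) ^ b * ((1 + X) ^ a * (1 - X) ^ b : ℚ[X]).coeff (a + b - k) := by
  induction a with
  | zero =>
    induction b with
    | zero => intro k hk; simp [Nat.le_zero.mp hk]
    | succ b ih =>
      intro k hk
      have := refl_sub ((1 + X) ^ 0 * (1 - X) ^ b) (0 + b) ((-1) ^ b)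
        (fun m hm => pp_coeff_zero 0 b m hm) ih k (by omega)
      rw [show (1 - X) * ((1 + X) ^ 0 * (1 - X) ^ b) = ((1 + X) ^ 0 * (1 - X) ^ (b + 1) : ℚ[X])
        from by ring] at this
      rw [this, pow_succ]
      rw [show 0 + b + 1 - k = 0 + (b + 1) - k from by omega]
      ring
  | succ a ih =>
    intro k hk
    have := refl_add ((1 + X) ^ a * (1 - X) ^ b) (a + b) ((-1) ^ b)
      (fun m hm => pp_coeff_zero a b m hm) ih k (by omega)
    rw [show (1 + X) * ((1 + X) ^ a * (1 - X) ^ b) = ((1 + X) ^ (a + 1) * (1 - X) ^ b : ℚ[X])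
      from by ring] at this
    rw [this]
    rw [show a + b + 1 - k = a + 1 + b - k from by omega]

theorem half1 (a b : ℕ) : ((1 + X) ^ (2 * a + 1) * (1 - X) ^ (2 * b) : ℚ[X]).coeff (a + b) =
    1 / 2 * cc (a + 1) b := by
  have h1 := refl_coeff (2 * a + 1) (2 * b) (a + b) (by omega)
  have e1 : ((-1 : ℚ)) ^ (2 * b) = 1 := by rw [pow_mul]; simp
  rw [show 2 * a + 1 + 2 * b - (a + b) = a + b + 1 from by omega, e1, one_mul] at h1
  have h2 : cc (a + 1) b = ((1 + X) ^ (2 * a + 1) * (1 - X) ^ (2 * b) : ℚ[X]).coeff (a + b + 1) +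
      ((1 + X) ^ (2 * a + 1) * (1 - X) ^ (2 * b) : ℚ[X]).coeff (a + b) := by
    unfold cc
    rw [show a + 1 + b = a + b + 1 from by ring,
      show ((1 + X) ^ (2 * (a + 1)) * (1 - X) ^ (2 * b) : ℚ[X]) =
      (1 + X) * ((1 + X) ^ (2 * a + 1) * (1 - X) ^ (2 * b)) from by ring, add_mul, one_mul,
      coeff_add, coeff_X_mul]
  linarith

theorem half2 (a b : ℕ) : ((1 + X) ^ (2 * a) * (1 - X) ^ (2 * b + 1) : ℚ[X]).coeff (a + b) =
    - (1 / 2 * cc a (b + 1)) := by
  have h1 := refl_coeff (2 * a) (2 * b + 1) (a + b) (by omega)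
  have e1 : ((-1 : ℚ)) ^ (2 * b + 1) = -1 := by rw [pow_succ, pow_mul]; simp
  rw [show 2 * a + (2 * b + 1) - (a + b) = a + b + 1 from by omega, e1] at h1
  have h2 : cc a (b + 1) = ((1 + X) ^ (2 * a) * (1 - X) ^ (2 * b + 1) : ℚ[X]).coeff (a + b + 1) -
      ((1 + X) ^ (2 * a) * (1 - X) ^ (2 * b + 1) : ℚ[X]).coeff (a + b) := by
    unfold cc
    rw [show a + (b + 1) = a + b + 1 from by ring,
      show ((1 + X) ^ (2 * a) * (1 - X) ^ (2 * (b + 1)) : ℚ[X]) =
      (1 - X) * ((1 + X) ^ (2 * a) * (1 - X) ^ (2 * b + 1)) from by ring, sub_mul, one_mul,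
      coeff_sub, coeff_X_mul]
  linarith

theorem half3 (a b : ℕ) :
    ((1 + X) ^ (2 * a + 1) * (1 - X) ^ (2 * b + 1) : ℚ[X]).coeff (a + b + 1) = 0 := by
  have h1 := refl_coeff (2 * a + 1) (2 * b + 1) (a + b + 1) (by omega)
  have e1 : ((-1 : ℚ)) ^ (2 * b + 1) = -1 := by rw [pow_succ, pow_mul]; simp
  rw [show 2 * a + 1 + (2 * b + 1) - (a + b + 1) = a + b + 1 from by omega, e1] at h1
  linarith

/-! expansions of `X^p` -/

/-- coefficient of the expansion of `X^p` in powers of `(1+X)^2`, `(1-X)^2` -/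
def gg (p j : ℕ) : ℚ := 1 / 4 ^ p * (p.choose j) * (-1) ^ (p - j)

theorem gg_cc (p j : ℕ) (h : j ≤ p) : gg p j * cc j (p - j) = w p j := w_eq p j h

/-- expansion coefficients for even order -/
def ge (p k : ℕ) : ℚ := if k % 2 = 0 then gg p (k / 2) else 0

/-- expansion coefficients for odd order -/
def go (p k : ℕ) : ℚ := 1 / 2 * gg p (k / 2)

theorem sum_pairs {M : Type*} [AddCommMonoid M] (f : ℕ → M) (p : ℕ) :
    ∑ k ∈ range (2 * p + 2), f k = ∑ j ∈ range (p + 1), (f (2 * j) + f (2 * j + 1)) := by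
  induction p with
  | zero => simp [sum_range_succ]
  | succ p ih =>
    rw [show 2 * (p + 1) + 2 = 2 * p + 2 + 1 + 1 from by ring, sum_range_succ, sum_range_succ, ih,
      sum_range_succ _ (p + 1), add_assoc]
    rfl

theorem expand (p : ℕ) : ∑ j ∈ range (p + 1),
    C (gg p j) * ((1 + X) ^ (2 * j) * (1 - X) ^ (2 * p - 2 * j) : ℚ[X]) = X ^ p := by
  have hX : (X : ℚ[X]) = C (1 / 4) * (1 + X) ^ 2 + C (-(1 / 4)) * (1 - X) ^ 2 := by
    have h4 : (C (1 / 4 : ℚ) : ℚ[X]) * 4 = 1 := by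
      rw [show (4 : ℚ[X]) = C 4 from rfl, ← C_mul]; norm_num
    rw [C_neg]
    linear_combination (-X : ℚ[X]) * h4
  conv_rhs => rw [hX, add_pow]
  refine sum_congr rfl fun j hj => ?_
  rw [mem_range] at hj
  rw [show 2 * p - 2 * j = 2 * (p - j) from by omega, mul_pow, mul_pow, ← pow_mul, ← pow_mul, gg]
  have h1 : (C (1 / 4 ^ p * (p.choose j : ℚ) * (-1) ^ (p - j)) : ℚ[X]) =
      C (1 / 4) ^ j * C (-(1 / 4)) ^ (p - j) * (p.choose j : ℚ[X]) := by
    rw [← C_pow, ← C_pow, ← C_mul, show ((p.choose j : ℕ) : ℚ[X]) = C ((p.choose j : ℕ) : ℚ) from rfl,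
      ← C_mul]
    congr 1
    rw [show (4 : ℚ) ^ p = 4 ^ j * 4 ^ (p - j) from by rw [← pow_add]; congr 1; omega]
    rw [neg_pow (1 / 4 : ℚ) (p - j), one_div_pow, one_div_pow]
    field_simp
  rw [h1]
  ring

theorem expand_even (p : ℕ) : ∑ k ∈ range (2 * p + 1),
    C (ge p k) * ((1 + X) ^ k * (1 - X) ^ (2 * p - k) : ℚ[X]) = X ^ p := by
  have h := sum_pairs (fun k => C (ge p k) * ((1 + X) ^ k * (1 - X) ^ (2 * p - k) : ℚ[X])) p
  rw [sum_range_succ] at h
  have h0 : ge p (2 * p + 1) = 0 := by unfold ge; rw [if_neg (by omega)]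
  rw [h0, C_0, zero_mul, add_zero] at h
  rw [h, ← expand p]
  refine sum_congr rfl fun j hj => ?_
  have h1 : ge p (2 * j + 1) = 0 := by unfold ge; rw [if_neg (by omega)]
  have h2 : ge p (2 * j) = gg p j := by
    unfold ge; rw [if_pos (by omega), show 2 * j / 2 = j from by omega]
  rw [h1, h2, C_0, zero_mul, add_zero]

theorem expand_odd (p : ℕ) : ∑ k ∈ range (2 * p + 1 + 1),
    C (go p k) * ((1 + X) ^ k * (1 - X) ^ (2 * p + 1 - k) : ℚ[X]) = X ^ p := by
  rw [show 2 * p + 1 + 1 = 2 * p + 2 from rfl, sum_pairs, ← expand p]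
  refine sum_congr rfl fun j hj => ?_
  rw [mem_range] at hj
  have h1 : go p (2 * j + 1) = 1 / 2 * gg p j := by
    unfold go; rw [show (2 * j + 1) / 2 = j from by omega]
  have h2 : go p (2 * j) = 1 / 2 * gg p j := by
    unfold go; rw [show 2 * j / 2 = j from by omega]
  rw [h1, h2, show 2 * p + 1 - 2 * j = (2 * p - 2 * j) + 1 from by omega,
    show 2 * p + 1 - (2 * j + 1) = 2 * p - 2 * j from by omega, C_mul]
  have h4 : (C (1 / 2 : ℚ) : ℚ[X]) * 2 = 1 := by
    rw [show (2 : ℚ[X]) = C 2 from rfl, ← C_mul]; norm_num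
  linear_combination (C (gg p j) * ((1 + X) ^ (2 * j) * (1 - X) ^ (2 * p - 2 * j)) : ℚ[X]) * h4

theorem w_total (p : ℕ) : ∑ j ∈ range (p + 1), w p j = 1 := by
  have h := congrArg (fun Q => coeff Q p) (expand p)
  simp only [finsetSum_coeff, coeff_C_mul, coeff_X_pow_self] at h
  rw [← h]
  refine sum_congr rfl fun j hj => ?_
  rw [mem_range] at hj
  rw [← gg_cc p j (by omega), cc, show 2 * p - 2 * j = 2 * (p - j) from by omega,
    show j + (p - j) = p from by omega]

/-- half sums -/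
def Slt (p : ℕ) : ℚ := ∑ j ∈ range (p + 1), if 2 * j < p then w p j else 0
def Sgt (p : ℕ) : ℚ := ∑ j ∈ range (p + 1), if p < 2 * j then w p j else 0
def Smid (p : ℕ) : ℚ := ∑ j ∈ range (p + 1), if 2 * j = p then w p j else 0

theorem Slt_eq_Sgt (p : ℕ) : Slt p = Sgt p := by
  unfold Slt Sgt
  rw [← Finset.sum_range_reflect]
  refine sum_congr rfl fun j hj => ?_
  rw [mem_range] at hj
  rw [show p + 1 - 1 - j = p - j from by omega, w_symm p j (by omega)]
  by_cases h : p < 2 * j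
  · rw [if_pos h, if_pos (by omega)]
  · rw [if_neg h, if_neg (by omega)]

theorem S_total (p : ℕ) : Slt p + Sgt p + Smid p = 1 := by
  rw [← w_total p]
  unfold Slt Sgt Smid
  rw [← sum_add_distrib, ← sum_add_distrib]
  refine sum_congr rfl fun j _ => ?_
  rcases lt_trichotomy (2 * j) p with h | h | h
  · rw [if_pos h, if_neg (by omega), if_neg (by omega)]; ring
  · rw [if_neg (by omega), if_neg (by omega), if_pos h]; ring
  · rw [if_neg (by omega), if_pos h, if_neg (by omega)]; ring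

theorem Slt_range (p : ℕ) : Slt p = ∑ j ∈ range ((p + 1) / 2), w p j := by
  unfold Slt
  rw [← Finset.sum_filter]
  refine sum_congr ?_ fun _ _ => rfl
  ext j
  simp only [mem_filter, mem_range]
  omega

theorem Smid_even (m : ℕ) : Smid (2 * m) = w (2 * m) m := by
  unfold Smid
  rw [Finset.sum_eq_single m]
  · simp
  · intro b _ hb; rw [if_neg (by omega)]
  · intro h; exact absurd (mem_range.mpr (by omega)) h

theorem Smid_odd (m : ℕ) : Smid (2 * m + 1) = 0 := by
  unfold Smid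
  refine sum_eq_zero fun j _ => ?_
  rw [if_neg (by omega)]

theorem sum_Ico_pairs (F : ℕ → ℚ) (m p : ℕ) : ∑ k ∈ Ico m (2 * p + 2), F k =
    ∑ j ∈ range (p + 1), ((if m ≤ 2 * j then F (2 * j) else 0) +
      (if m ≤ 2 * j + 1 then F (2 * j + 1) else 0)) := by
  rw [← sum_pairs (fun k => if m ≤ k then F k else 0), ← Finset.sum_filter]
  refine sum_congr ?_ fun _ _ => rfl
  ext j
  simp only [mem_filter, mem_range, mem_Ico]
  omega

theorem sum_range_pairs (F : ℕ → ℚ) (m p : ℕ) (hm : m ≤ 2 * p + 2) : ∑ k ∈ range m, F k =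
    ∑ j ∈ range (p + 1), ((if 2 * j < m then F (2 * j) else 0) +
      (if 2 * j + 1 < m then F (2 * j + 1) else 0)) := by
  rw [← sum_pairs (fun k => if k < m then F k else 0), ← Finset.sum_filter]
  refine sum_congr ?_ fun _ _ => rfl
  ext j
  simp only [mem_filter, mem_range]
  omega

end Pool.Agent.Helper848.AztecCoeff
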