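import Mathlib

namespace Pool.Agent.Helper848.AztecDet

open Polynomial Matrix Finset

/-- independence of the bijection -/
theorem abs_det_submatrix {R : Type*} [CommRing R] [LinearOrder R] [IsStrictOrderedRing R]
    {O E : Type*} [Fintype E] [DecidableEq E] (A : Matrix O E R) (e1 e2 : E ≃ O) :
    |(A.submatrix e1 id).det| = |(A.submatrix e2 id).det| := by
  have h : A.submatrix e1 id = (A.submatrix e2 id).submatrix (e1.trans e2.symm) id := by
    ext i j; simp
  rw [h, Matrix.det_permute]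
  rcases Int.units_eq_one_or (Equiv.Perm.sign (e1.trans e2.symm)) with h | h <;>
  simp [h]

/-- the matrix of coefficients of `(1+X)^i (1-X)^(N-i)` -/
noncomputable def P (N : ℕ) : Matrix (Fin (N + 1)) (Fin (N + 1)) ℚ :=
  Matrix.of fun t i => ((1 + X) ^ (i : ℕ) * (1 - X) ^ (N - i) : ℚ[X]).coeff t

theorem abs_det_P (N : ℕ) : |(P N).det| = 2 ^ (N * (N + 1) / 2) := by
  set A : Matrix (Fin (N + 1)) (Fin (N + 1)) ℚ :=
    Matrix.of fun t k => ((1 - X) ^ (k : ℕ) : ℚ[X]).coeff t with hA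
  set B : Matrix (Fin (N + 1)) (Fin (N + 1)) ℚ :=
    Matrix.of fun k i => ((2 - X) ^ (i : ℕ) * X ^ (N - i) : ℚ[X]).coeff k with hB
  have hdeg1 : (1 - X : ℚ[X]).natDegree = 1 := by
    rw [show (1 - X : ℚ[X]) = -(X - C 1) from by simp, natDegree_neg, natDegree_X_sub_C]
  have hdeg2 : (2 - X : ℚ[X]).natDegree = 1 := by
    rw [show (2 - X : ℚ[X]) = -(X - C 2) from by rw [neg_sub]; rfl, natDegree_neg,
      natDegree_X_sub_C]
  have hP : P N = A * B := by
    ext t i
    rw [Matrix.mul_apply]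
    simp only [P, hA, hB, Matrix.of_apply]
    have hcomp : ((1 + X) ^ (i : ℕ) * (1 - X) ^ (N - i) : ℚ[X]) =
        ((2 - X) ^ (i : ℕ) * X ^ (N - i) : ℚ[X]).comp (1 - X) := by
      simp only [mul_comp, pow_comp, sub_comp, X_comp, ofNat_comp]
      congr 2
      ring
    have hnd : ((2 - X) ^ (i : ℕ) * X ^ (N - i) : ℚ[X]).natDegree < N + 1 := by
      refine lt_of_le_of_lt natDegree_mul_le ?_
      rw [natDegree_pow, natDegree_pow, hdeg2, natDegree_X]
      have := i.2
      omega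
    rw [hcomp, Polynomial.comp, eval₂_eq_sum_range' _ hnd, finsetSum_coeff,
      Finset.sum_range]
    refine Finset.sum_congr rfl fun k _ => ?_
    rw [coeff_C_mul, mul_comm]
  have hdetA : |A.det| = 1 := by
    rw [Matrix.det_of_isUpperTriangular]
    · rw [Finset.abs_prod]
      refine Finset.prod_eq_one fun t _ => ?_
      simp only [hA, Matrix.of_apply]
      have h : ((1 - X : ℚ[X]) ^ (t : ℕ)).coeff t = (-1) ^ (t : ℕ) := by
        have h1 : ((1 - X : ℚ[X]) ^ (t : ℕ)).natDegree = t := by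
          rw [natDegree_pow, hdeg1, mul_one]
        have h2 := coeff_natDegree (p := (1 - X : ℚ[X]) ^ (t : ℕ))
        rw [h1] at h2
        rw [h2, leadingCoeff_pow,
          show (1 - X : ℚ[X]) = -(X - C 1) from by simp, leadingCoeff_neg, leadingCoeff_X_sub_C]
      rw [h, abs_pow, abs_neg, abs_one, one_pow]
    · intro t k htk
      simp only [hA, Matrix.of_apply]
      apply coeff_eq_zero_of_natDegree_lt
      rw [natDegree_pow, hdeg1, mul_one]
      exact htk
  have hdetB : |B.det| = 2 ^ (N * (N + 1) / 2) := by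
    have h1 : |B.det| = |(B.submatrix id Fin.revPerm).det| := by
      rw [Matrix.det_permute']
      rcases Int.units_eq_one_or (Equiv.Perm.sign (Fin.revPerm (n := N + 1))) with h | h <;>
      simp [h]
    rw [h1, Matrix.det_of_isLowerTriangular]
    · rw [Finset.abs_prod]
      have h2 : ∀ i : Fin (N + 1), |B.submatrix id (Fin.revPerm) i i| = 2 ^ (N - i : ℕ) := by
        intro i
        simp only [hB, Matrix.submatrix_apply, Matrix.of_apply, id, Fin.revPerm_apply, Fin.val_rev]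
        have hi := i.2
        have e1 : N + 1 - (↑i + 1) = N - i := by omega
        have e2 : N - (N - i) = (i : ℕ) := by omega
        rw [e1, e2]
        rw [coeff_mul_X_pow', if_pos le_rfl, Nat.sub_self, coeff_zero_eq_eval_zero]
        simp
      rw [Finset.prod_congr rfl fun i _ => h2 i, Fin.prod_univ_eq_prod_range (fun i => (2 : ℚ) ^ (N - i)),
        show (∏ i ∈ range (N + 1), (2 : ℚ) ^ (N - i)) = ∏ i ∈ range (N + 1), 2 ^ (N + 1 - 1 - i) from rfl,
        Finset.prod_range_reflect (fun i => (2 : ℚ) ^ i) (N + 1), Finset.prod_pow_eq_pow_sum,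
        Finset.sum_range_id, mul_comm (N + 1)]
      simp
    · intro i k hik
      simp only [OrderDual.toDual_lt_toDual, Matrix.submatrix_apply, id, Fin.revPerm_apply, hB,
        Matrix.of_apply, Fin.val_rev] at hik ⊢
      rw [coeff_mul_X_pow', if_neg]
      have hi := i.2
      have hk := k.2
      have : (i : ℕ) < k := hik
      omega
  rw [hP, Matrix.det_mul, abs_mul, hdetA, hdetB, one_mul]

/-- index type of the cells with even first diagonal coordinate -/
abbrev E (n : ℕ) := Fin (n + 1) × Fin n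

/-- index type of the cells with odd first diagonal coordinate -/
abbrev O (n : ℕ) := Fin n × Fin (n + 1)

/-- the Kasteleyn matrix of the Aztec diamond: `(K g)(s,t) = g(s,t) - g(s,t-1) + g(s-1,t) + g(s-1,t-1)` -/
def K0 (n : ℕ) : Matrix (O n) (E n) ℚ := Matrix.of fun o x =>
  (if (x.1 : ℕ) = o.1 + 1 then (1 : ℚ) else 0) *
    ((if (x.2 : ℕ) = o.2 then 1 else 0) - (if (x.2 : ℕ) + 1 = o.2 then 1 else 0)) +
  (if (x.1 : ℕ) = o.1 then (1 : ℚ) else 0) *
    ((if (x.2 : ℕ) = o.2 then 1 else 0) + (if (x.2 : ℕ) + 1 = o.2 then 1 else 0))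

theorem sum_ind1 (n : ℕ) (p : ℚ[X]) (hp : p.coeff n = 0) (t : Fin (n + 1)) :
    ∑ x : Fin n, (if (x : ℕ) = t then (1 : ℚ) else 0) * p.coeff x = p.coeff t := by
  by_cases h : (t : ℕ) < n
  · rw [Finset.sum_eq_single ⟨t, h⟩]
    · simp
    · intro b _ hb
      rw [if_neg, zero_mul]
      intro hc
      exact hb (Fin.ext hc)
    · simp
  · have ht : (t : ℕ) = n := by have := t.2; omega
    rw [ht, hp]
    refine Finset.sum_eq_zero fun x _ => ?_
    rw [if_neg, zero_mul]
    have := x.2; omega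

theorem sum_ind2 (n : ℕ) (p : ℚ[X]) (t : Fin (n + 1)) :
    ∑ x : Fin n, (if (x : ℕ) + 1 = t then (1 : ℚ) else 0) * p.coeff x = (X * p).coeff t := by
  rcases t with ⟨t, ht⟩
  cases t with
  | zero => simp
  | succ t =>
    rw [coeff_X_mul, Finset.sum_eq_single ⟨t, by omega⟩]
    · simp
    · intro b _ hb
      rw [if_neg, zero_mul]
      intro hc
      exact hb (Fin.ext (by simpa using hc))
    · simp

theorem K0_apply (n : ℕ) (G : ℕ → ℚ[X]) (hG : ∀ s ≤ n, (G s).coeff n = 0) (o : O n) :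
    ∑ x : E n, K0 n o x * (G x.1).coeff x.2 =
      ((1 - X) * G (o.1 + 1) + (1 + X) * G o.1).coeff o.2 := by
  rw [Fintype.sum_prod_type]
  have h : ∀ s : Fin (n + 1), ∑ x : Fin n, K0 n o (s, x) * (G s).coeff x =
      (if (s : ℕ) = o.1 + 1 then (1 : ℚ) else 0) * ((1 - X) * G s).coeff o.2 +
      (if (s : ℕ) = o.1 then (1 : ℚ) else 0) * ((1 + X) * G s).coeff o.2 := by
    intro s
    rw [sub_mul, add_mul, one_mul, coeff_sub, coeff_add, ← sum_ind1 n _ (hG s (by have := s.2; omega)), ← sum_ind2,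
      ← Finset.sum_sub_distrib, ← Finset.sum_add_distrib, Finset.mul_sum, Finset.mul_sum,
      ← Finset.sum_add_distrib]
    refine Finset.sum_congr rfl fun x _ => ?_
    simp only [K0, Matrix.of_apply]
    ring
  simp only [h]
  rw [Finset.sum_add_distrib, coeff_add]
  congr 1
  · rw [Finset.sum_eq_single (⟨o.1 + 1, by omega⟩ : Fin (n + 1))]
    · simp
    · intro b _ hb
      rw [if_neg, zero_mul]
      intro hc
      exact hb (Fin.ext hc)
    · simp
  · rw [Finset.sum_eq_single (⟨o.1, by omega⟩ : Fin (n + 1))]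
    · simp
    · intro b _ hb
      rw [if_neg, zero_mul]
      intro hc
      exact hb (Fin.ext hc)
    · simp

/-- the chain matrix -/
def Cm (n : ℕ) : Matrix (O n) (E n) ℚ := Matrix.of fun o x =>
  (if (x.1 : ℕ) = o.1 + 1 ∧ (x.2 : ℕ) = o.2 then (1 : ℚ) else 0) +
  (if (x.1 : ℕ) = o.1 ∧ (x.2 : ℕ) + 1 = o.2 then (1 : ℚ) else 0)

/-- pivot bijection -/
def piv (n : ℕ) : E n ≃ O n where
  toFun x := if h : (x.1 : ℕ) ≤ x.2 then (⟨x.1, by omega⟩, ⟨x.2 + 1, by omega⟩)
    else (⟨x.1 - 1, by omega⟩, ⟨x.2, by omega⟩)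
  invFun o := if h : (o.1 : ℕ) + 1 ≤ o.2 then (⟨o.1, by omega⟩, ⟨o.2 - 1, by omega⟩)
    else (⟨o.1 + 1, by omega⟩, ⟨o.2, by omega⟩)
  left_inv x := by
    rcases x with ⟨⟨s, hs⟩, ⟨i, hi⟩⟩
    by_cases h : s ≤ i
    · simp [h]
    · have h2 : ¬ (s - 1 + 1 ≤ i) := by omega
      simp only [h, dite_false, h2]
      ext <;> simp
      omega
  right_inv o := by
    rcases o with ⟨⟨s, hs⟩, ⟨k, hk⟩⟩
    by_cases h : s + 1 ≤ k
    · have h2 : s ≤ k - 1 := by omega
      simp only [h, dite_true, h2]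
      ext <;> simp
      omega
    · have h2 : ¬ (s + 1 ≤ k) := h
      simp [h]

theorem abs_det_Cm (n : ℕ) (e : E n ≃ O n) : |((Cm n).submatrix e id).det| = 1 := by
  rw [abs_det_submatrix _ e (piv n)]
  set M := (Cm n).submatrix (piv n) id with hM
  -- ordering
  let b : E n → ℕ := fun x => if (x.1 : ℕ) ≤ x.2 then x.1 else 2 * n - x.1
  have hMval : ∀ x y : E n, M x y =
      (if (x.1 : ℕ) ≤ x.2 then
        (if (y.1 : ℕ) = x.1 + 1 ∧ (y.2 : ℕ) = x.2 + 1 then (1 : ℚ) else 0) +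
        (if (y.1 : ℕ) = x.1 ∧ (y.2 : ℕ) = x.2 then (1 : ℚ) else 0)
      else (if (y.1 : ℕ) = x.1 ∧ (y.2 : ℕ) = x.2 then (1 : ℚ) else 0) +
        (if (y.1 : ℕ) + 1 = x.1 ∧ (y.2 : ℕ) + 1 = x.2 then (1 : ℚ) else 0)) := by
    intro x y
    by_cases h : (x.1 : ℕ) ≤ x.2
    · simp only [hM, Matrix.submatrix_apply, piv, Equiv.coe_fn_mk, id, Cm, Matrix.of_apply, h,
        dite_true, if_true]
      congr 1
      simp
    · simp only [hM, Matrix.submatrix_apply, piv, Equiv.coe_fn_mk, id, Cm, Matrix.of_apply, h,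
        dite_false, if_false]
      have h1 : (x.1 : ℕ) - 1 + 1 = x.1 := by omega
      have h2 : ((y.1 : ℕ) = x.1 - 1) ↔ ((y.1 : ℕ) + 1 = x.1) := by omega
      simp only [h1, h2]
  have hdiag : ∀ x y : E n, b x = b y → M x y = if x = y then 1 else 0 := by
    intro x y hb
    rw [hMval]
    rcases x with ⟨⟨s, hs⟩, ⟨i, hi⟩⟩
    rcases y with ⟨⟨s', hs'⟩, ⟨i', hi'⟩⟩
    simp only [b, Prod.mk.injEq, Fin.mk.injEq] at hb ⊢
    split_ifs at hb ⊢ <;> first | omega | norm_num
  have hbt : M.BlockTriangular b := by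
    intro x y hb
    rw [hMval]
    rcases x with ⟨⟨s, hs⟩, ⟨i, hi⟩⟩
    rcases y with ⟨⟨s', hs'⟩, ⟨i', hi'⟩⟩
    simp only [b] at hb ⊢
    split_ifs at hb ⊢ <;> first | omega | norm_num
  rw [hbt.det]
  rw [Finset.prod_eq_one, abs_one]
  intro a _
  have : M.toSquareBlock b a = 1 := by
    ext ⟨x, hx⟩ ⟨y, hy⟩
    rw [Matrix.toSquareBlock_def, Matrix.of_apply, hdiag x y (hx.trans hy.symm), Matrix.one_apply]
    simp
  rw [this, Matrix.det_one]

theorem coeff_pp_eq_zero {a b n : ℕ} (h : a + b < n) :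
    ((1 + X) ^ a * (1 - X) ^ b : ℚ[X]).coeff n = 0 := by
  apply coeff_eq_zero_of_natDegree_lt
  refine lt_of_le_of_lt natDegree_mul_le ?_
  have h1 : ((1 + X : ℚ[X]) ^ a).natDegree ≤ a := by
    refine natDegree_pow_le.trans ?_
    have : (1 + X : ℚ[X]).natDegree ≤ 1 := by
      refine (natDegree_add_le _ _).trans ?_
      simp
    calc a * (1 + X : ℚ[X]).natDegree ≤ a * 1 := Nat.mul_le_mul_left _ this
      _ = _ := mul_one _
  have h2 : ((1 - X : ℚ[X]) ^ b).natDegree ≤ b := by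
    refine natDegree_pow_le.trans ?_
    have : (1 - X : ℚ[X]).natDegree ≤ 1 := by
      refine (natDegree_sub_le _ _).trans ?_
      simp
    calc b * (1 - X : ℚ[X]).natDegree ≤ b * 1 := Nat.mul_le_mul_left _ this
      _ = _ := mul_one _
  omega

open Kronecker in
theorem K0_mul (N : ℕ) :
    K0 (N + 1) * ((1 : Matrix (Fin (N + 2)) (Fin (N + 2)) ℚ) ⊗ₖ P N) =
      ((1 : Matrix (Fin (N + 1)) (Fin (N + 1)) ℚ) ⊗ₖ P (N + 1)) * Cm (N + 1) := by
  ext o y
  rw [Matrix.mul_apply, Matrix.mul_apply]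
  have hy := y.2.2
  -- left side
  have hL : ∑ x : E (N + 1), K0 (N + 1) o x *
      ((1 : Matrix (Fin (N + 2)) (Fin (N + 2)) ℚ) ⊗ₖ P N) x y =
      ((1 - X) * (if (o.1 : ℕ) + 1 = y.1 then (1 + X) ^ (y.2 : ℕ) * (1 - X) ^ (N - y.2) else 0) +
       (1 + X) * (if (o.1 : ℕ) = y.1 then (1 + X) ^ (y.2 : ℕ) * (1 - X) ^ (N - y.2) else 0) :
         ℚ[X]).coeff o.2 := by
    have := K0_apply (N + 1) (fun s => if s = (y.1 : ℕ) then
      ((1 + X) ^ (y.2 : ℕ) * (1 - X) ^ (N - y.2) : ℚ[X]) else 0) (by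
        intro s _
        split_ifs
        · exact coeff_pp_eq_zero (by omega)
        · simp) o
    rw [← this]
    refine Finset.sum_congr rfl fun x _ => ?_
    congr 1
    rw [Matrix.kroneckerMap_apply, Matrix.one_apply]
    by_cases h : x.1 = y.1
    · rw [if_pos h, if_pos (by rw [h]), one_mul]; rfl
    · rw [if_neg h, if_neg (fun hc => h (Fin.ext hc)), zero_mul, coeff_zero]
  have hR : ∑ j : O (N + 1), ((1 : Matrix (Fin (N + 1)) (Fin (N + 1)) ℚ) ⊗ₖ P (N + 1)) o j *
      Cm (N + 1) j y =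
      (if (o.1 : ℕ) + 1 = y.1 then
        ((1 + X) ^ (y.2 : ℕ) * (1 - X) ^ (N + 1 - y.2) : ℚ[X]).coeff o.2 else 0) +
      (if (o.1 : ℕ) = y.1 then
        ((1 + X) ^ ((y.2 : ℕ) + 1) * (1 - X) ^ (N + 1 - (y.2 + 1)) : ℚ[X]).coeff o.2 else 0) := by
    rw [Fintype.sum_prod_type, Finset.sum_eq_single o.1]
    · simp only [Matrix.kroneckerMap_apply, Matrix.one_apply_eq, one_mul, Cm, Matrix.of_apply,
        mul_add, Finset.sum_add_distrib]
      congr 1
      · by_cases h : (o.1 : ℕ) + 1 = y.1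
        · rw [Finset.sum_eq_single (⟨y.2, by omega⟩ : Fin (N + 2))]
          · simp [h, P]
          · intro k _ hk
            rw [if_neg, mul_zero]
            rintro ⟨_, h2⟩
            exact hk (Fin.ext h2.symm)
          · simp
        · rw [if_neg h]
          refine Finset.sum_eq_zero fun k _ => ?_
          rw [if_neg (fun hc => h hc.1.symm), mul_zero]
      · by_cases h : (o.1 : ℕ) = y.1
        · rw [Finset.sum_eq_single (⟨y.2 + 1, by omega⟩ : Fin (N + 2))]
          · simp [h, P]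
          · intro k _ hk
            rw [if_neg, mul_zero]
            rintro ⟨_, h2⟩
            exact hk (Fin.ext h2.symm)
          · simp
        · rw [if_neg h]
          refine Finset.sum_eq_zero fun k _ => ?_
          rw [if_neg (fun hc => h hc.1.symm), mul_zero]
    · intro b _ hb
      refine Finset.sum_eq_zero fun k _ => ?_
      rw [Matrix.kroneckerMap_apply, Matrix.one_apply_ne hb.symm, zero_mul, zero_mul]
    · simp
  rw [hL, hR, coeff_add]
  congr 1
  · split_ifs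
    · congr 1
      rw [show N + 1 - (y.2 : ℕ) = (N - y.2) + 1 from by omega]
      ring
    · simp
  · split_ifs
    · congr 1
      rw [show N + 1 - ((y.2 : ℕ) + 1) = N - y.2 from by omega]
      ring
    · simp

theorem arith_aux (N : ℕ) : (N + 1) * (N + 2) / 2 + N * (N + 1) / 2 * (N + 2) =
    (N + 1) * (N + 2) / 2 * (N + 1) := by
  obtain ⟨a, ha⟩ := Nat.even_mul_succ_self N
  obtain ⟨b, hb⟩ := Nat.even_mul_succ_self (N + 1)
  rw [hb, ha, ← two_mul, ← two_mul, Nat.mul_div_cancel_left _ (by norm_num),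
    Nat.mul_div_cancel_left _ (by norm_num)]
  nlinarith

open Kronecker in
/-- the absolute value of the determinant of the Kasteleyn matrix of the Aztec diamond -/
theorem abs_det_K0 (N : ℕ) (e : E (N + 1) ≃ O (N + 1)) :
    |((K0 (N + 1)).submatrix e id).det| = 2 ^ ((N + 1) * (N + 2) / 2) := by
  have h : |((K0 (N + 1) * ((1 : Matrix (Fin (N + 2)) (Fin (N + 2)) ℚ) ⊗ₖ P N)).submatrix e id).det| =
    |((((1 : Matrix (Fin (N + 1)) (Fin (N + 1)) ℚ) ⊗ₖ P (N + 1)) *
      Cm (N + 1)).submatrix e id).det| := by rw [K0_mul N]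
  have h1 : (K0 (N + 1) * ((1 : Matrix (Fin (N + 2)) (Fin (N + 2)) ℚ) ⊗ₖ P N)).submatrix e id =
      (K0 (N + 1)).submatrix e id * ((1 : Matrix (Fin (N + 2)) (Fin (N + 2)) ℚ) ⊗ₖ P N) := by
    ext i j; simp [Matrix.mul_apply]
  have h2 : (((1 : Matrix (Fin (N + 1)) (Fin (N + 1)) ℚ) ⊗ₖ P (N + 1)) *
      Cm (N + 1)).submatrix e id =
      ((1 : Matrix (Fin (N + 1)) (Fin (N + 1)) ℚ) ⊗ₖ P (N + 1)).submatrix e e *
      (Cm (N + 1)).submatrix e id := by
    rw [Matrix.submatrix_mul_equiv]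
  rw [h1, h2, Matrix.det_mul, Matrix.det_mul, Matrix.det_submatrix_equiv_self,
    Matrix.det_kronecker, Matrix.det_kronecker, abs_mul, abs_mul (_ * _) (det _), abs_det_Cm] at h
  simp only [Matrix.det_one, one_pow, one_mul, Fintype.card_fin, abs_pow, abs_det_P, mul_one] at h
  have h3 : (2 : ℚ) ^ (N * (N + 1) / 2 * (N + 2)) ≠ 0 := by positivity
  rw [← pow_mul, ← pow_mul] at h
  apply mul_right_cancel₀ h3
  rw [← pow_add, arith_aux]
  exact h

/-- Green function columns as polynomials -/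
noncomputable def G (n : ℕ) (γ : ℕ → ℚ) (s0 s : ℕ) : ℚ[X] :=
  if s < s0 then
    (-1) ^ (s0 - 1 - s) * ∑ k ∈ Finset.Ico s0 (n + 1),
      C (γ k) * ((1 + X) ^ (k + s - s0) * (1 - X) ^ (n + s0 - 1 - s - k))
  else
    (-1) ^ (s - s0) * ∑ k ∈ Finset.range s0,
      C (γ k) * ((1 + X) ^ (k + (s - s0)) * (1 - X) ^ (n - 1 - k - (s - s0)))

theorem G_coeff_top (n : ℕ) (γ : ℕ → ℚ) (s0 s : ℕ) (hs : s ≤ n) :
    (G n γ s0 s).coeff n = 0 := by
  unfold G
  have hC : ∀ m : ℕ, ((-1) ^ m : ℚ[X]) = C ((-1) ^ m) := by intro m; simp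
  split_ifs with h
  · rw [hC, coeff_C_mul, finsetSum_coeff, Finset.sum_eq_zero, mul_zero]
    intro k hk
    rw [Finset.mem_Ico] at hk
    rw [coeff_C_mul, coeff_pp_eq_zero (by omega), mul_zero]
  · rw [hC, coeff_C_mul, finsetSum_coeff, Finset.sum_eq_zero, mul_zero]
    intro k hk
    rw [Finset.mem_range] at hk
    rw [coeff_C_mul, coeff_pp_eq_zero (by omega), mul_zero]

theorem G_rec (n : ℕ) (γ : ℕ → ℚ) (s0 t0 s : ℕ) (h0 : 1 ≤ s0) (h1 : s0 ≤ n) (hs : s < n)
    (hγ : ∑ k ∈ Finset.range (n + 1), C (γ k) * ((1 + X) ^ k * (1 - X) ^ (n - k) : ℚ[X]) = X ^ t0) :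
    (1 - X) * G n γ s0 (s + 1) + (1 + X) * G n γ s0 s = if s + 1 = s0 then X ^ t0 else 0 := by
  rcases lt_trichotomy (s + 1) s0 with h | h | h
  · rw [if_neg h.ne]
    unfold G
    rw [if_pos h, if_pos (by omega : s < s0)]
    rw [show s0 - 1 - s = (s0 - 1 - (s + 1)) + 1 from by omega]
    simp only [Finset.mul_sum]
    rw [← Finset.sum_add_distrib]
    refine Finset.sum_eq_zero fun k hk => ?_
    rw [Finset.mem_Ico] at hk
    rw [show n + s0 - 1 - s - k = (n + s0 - 1 - (s + 1) - k) + 1 from by omega,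
      show k + (s + 1) - s0 = (k + s - s0) + 1 from by omega]
    ring
  · rw [if_pos h]
    unfold G
    rw [if_neg (by omega), if_pos (by omega : s < s0)]
    rw [show s0 - 1 - s = 0 from by omega, show s + 1 - s0 = 0 from by omega, pow_zero, one_mul,
      one_mul, ← hγ, ← Finset.sum_range_add_sum_Ico _ (by omega : s0 ≤ n + 1), Finset.mul_sum,
      Finset.mul_sum]
    congr 1
    · refine Finset.sum_congr rfl fun k hk => ?_
      rw [Finset.mem_range] at hk
      rw [show n - k = (n - 1 - k - 0) + 1 from by omega]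
      ring
    · refine Finset.sum_congr rfl fun k hk => ?_
      rw [Finset.mem_Ico] at hk
      rw [show n + s0 - 1 - s - k = n - k from by omega]
      have hk2 : (1 + X : ℚ[X]) ^ k = (1 + X) ^ (k + s - s0) * (1 + X) := by
        rw [← pow_succ, show k + s - s0 + 1 = k from by omega]
      rw [hk2]
      ring
  · rw [if_neg h.ne']
    unfold G
    rw [if_neg (by omega), if_neg (by omega)]
    rw [show s + 1 - s0 = (s - s0) + 1 from by omega]
    simp only [Finset.mul_sum]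
    rw [← Finset.sum_add_distrib]
    refine Finset.sum_eq_zero fun k hk => ?_
    rw [Finset.mem_range] at hk
    rw [show n - 1 - k - (s - s0) = (n - 1 - k - (s - s0 + 1)) + 1 from by omega]
    ring

theorem K0_G (n : ℕ) (γ : ℕ → ℚ) (s0 t0 : ℕ) (h0 : 1 ≤ s0) (h1 : s0 ≤ n)
    (hγ : ∑ k ∈ Finset.range (n + 1), C (γ k) * ((1 + X) ^ k * (1 - X) ^ (n - k) : ℚ[X]) = X ^ t0)
    (o : O n) :
    ∑ x : E n, K0 n o x * (G n γ s0 x.1).coeff x.2 =
      if (o.1 : ℕ) + 1 = s0 ∧ (o.2 : ℕ) = t0 then 1 else 0 := by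
  rw [K0_apply n (G n γ s0) (fun s hs => G_coeff_top n γ s0 s hs) o,
    G_rec n γ s0 t0 o.1 h0 h1 o.1.2 hγ]
  by_cases h : (o.1 : ℕ) + 1 = s0
  · rw [if_pos h, coeff_X_pow]
    by_cases h2 : (o.2 : ℕ) = t0 <;> simp [h, h2]
  · rw [if_neg h, if_neg (fun hc => h hc.1), coeff_zero]

section minor

variable {R J : Type*} [Fintype J] [DecidableEq J] [DecidableEq R]

theorem det_twoUpdate (H1 H2 : J → ℚ) (e2 ee : J) (hne : ee ≠ e2) :
    (1 + (Matrix.vecMulVec (H1 - Pi.single e2 1) (Pi.single e2 1) -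
      Matrix.vecMulVec ((2 : ℚ) • H2) (Pi.single ee 1)) : Matrix J J ℚ).det =
    H1 e2 * (1 - 2 * H2 ee) + 2 * (H2 e2 * H1 ee) := by
  set U : Matrix J (Fin 2) ℚ := Matrix.of fun x i => if i = 0 then H1 x - (Pi.single e2 (1 : ℚ) : J → ℚ) x
    else - (2 * H2 x) with hU
  set V : Matrix (Fin 2) J ℚ := Matrix.of fun i x => if i = 0 then (Pi.single e2 (1 : ℚ) : J → ℚ) x
    else (Pi.single ee (1 : ℚ) : J → ℚ) x with hV
  have h : (Matrix.vecMulVec (H1 - Pi.single e2 1) (Pi.single e2 1) -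
      Matrix.vecMulVec ((2 : ℚ) • H2) (Pi.single ee 1)) = U * V := by
    ext x y
    rw [Matrix.mul_apply, Fin.sum_univ_two]
    simp [hU, hV, Matrix.vecMulVec_apply, sub_eq_add_neg]
    try ring
  rw [h, Matrix.det_one_add_mul_comm, Matrix.det_fin_two]
  have hVU : ∀ i j, (V * U) i j = U (if i = 0 then e2 else ee) j := by
    intro i j
    rw [Matrix.mul_apply]
    by_cases hi : i = 0
    · rw [if_pos hi, Finset.sum_eq_single e2]
      · simp [hV, hi]
      · intro b _ hb; simp [hV, hi, hb]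
      · simp
    · rw [if_neg hi, Finset.sum_eq_single ee]
      · simp [hV, hi]
      · intro b _ hb; simp [hV, hi, hb]
      · simp
  simp only [Matrix.add_apply, hVU]
  simp [hU, hne]
  ring

/-- split off one point of a type -/
def splitEquiv {α : Type*} [DecidableEq α] (a : α) : α ≃ {x : α // x ≠ a} ⊕ Unit where
  toFun x := if h : x = a then Sum.inr () else Sum.inl ⟨x, h⟩
  invFun := Sum.elim (fun z => (z : α)) (fun _ => a)
  left_inv x := by
    by_cases h : x = a <;> simp [h]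
  right_inv y := by
    rcases y with ⟨x, hx⟩ | u
    · simp [hx]
    · simp

@[simp] theorem splitEquiv_symm_inl {α : Type*} [DecidableEq α] (a : α) (x : {x : α // x ≠ a}) :
    (splitEquiv a).symm (Sum.inl x) = x := rfl

@[simp] theorem splitEquiv_symm_inr {α : Type*} [DecidableEq α] (a : α) (u : Unit) :
    (splitEquiv a).symm (Sum.inr u) = a := rfl

/-- determinant of a minor with one changed sign -/
theorem abs_det_minor (K : Matrix R J ℚ) (H1 H2 : J → ℚ) (o1 oe : R) (e2 ee : J) (hne : ee ≠ e2)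
    (h1 : ∀ o, ∑ x, K o x * H1 x = if o = o1 then 1 else 0)
    (h2 : ∀ o, ∑ x, K o x * H2 x = if o = oe then 1 else 0)
    (hκ : K oe ee = 1)
    (φ : {x : J // x ≠ e2} ≃ {o : R // o ≠ o1}) :
    ∃ e : J ≃ R,
    |(Matrix.of fun i j : {x : J // x ≠ e2} => if (φ i : R) = oe ∧ (j : J) = ee then -1
      else K (φ i) j).det| =
    |(K.submatrix e id).det| * |H1 e2 * (1 - 2 * H2 ee) + 2 * (H2 e2 * H1 ee)| := by
  classical
  -- the equivalences
  let Φ : J ≃ {x : J // x ≠ e2} ⊕ Unit := splitEquiv e2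
  let Ψ : R ≃ {x : R // x ≠ o1} ⊕ Unit := splitEquiv o1
  let e : J ≃ R := (Φ.trans (Equiv.sumCongr φ (Equiv.refl Unit))).trans Ψ.symm
  refine ⟨e, ?_⟩
  let K2 : Matrix R J ℚ := Matrix.of fun o x => if x = e2 then (if o = o1 then 1 else 0)
    else if o = oe ∧ x = ee then -1 else K o x
  let Xm : Matrix J J ℚ := 1 + (Matrix.vecMulVec (H1 - Pi.single e2 1) (Pi.single e2 1) -
      Matrix.vecMulVec ((2 : ℚ) • H2) (Pi.single ee 1))
  have hK2 : K2 = K * Xm := by
    ext o x
    have hs : ∀ z : J, ∑ y, K o y * (Pi.single z (1 : ℚ) : J → ℚ) y = K o z := by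
      intro z
      rw [Finset.sum_eq_single z]
      · simp
      · intro b _ hb; simp [hb]
      · simp
    have hexp : (K * Xm) o x = K o x + ((∑ y, K o y * H1 y) - ∑ y, K o y *
        (Pi.single e2 (1 : ℚ) : J → ℚ) y) * (Pi.single e2 (1 : ℚ) : J → ℚ) x -
        2 * (∑ y, K o y * H2 y) * (Pi.single ee (1 : ℚ) : J → ℚ) x := by
      simp only [Xm, Matrix.mul_add, Matrix.mul_sub, Matrix.mul_one, Matrix.add_apply,
        Matrix.sub_apply]
      rw [Matrix.mul_apply, Matrix.mul_apply]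
      simp only [Matrix.vecMulVec_apply]
      have e1 : ∑ y, K o y * ((H1 - (Pi.single e2 1 : J → ℚ)) y * (Pi.single e2 (1 : ℚ) : J → ℚ) x) =
          ((∑ y, K o y * H1 y) - ∑ y, K o y *
        (Pi.single e2 (1 : ℚ) : J → ℚ) y) * (Pi.single e2 (1 : ℚ) : J → ℚ) x := by
        rw [← Finset.sum_sub_distrib, Finset.sum_mul]
        refine Finset.sum_congr rfl fun y _ => ?_
        simp only [Pi.sub_apply]; ring
      have e2' : ∑ y, K o y * (((2 : ℚ) • H2) y * (Pi.single ee (1 : ℚ) : J → ℚ) x) =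
          2 * (∑ y, K o y * H2 y) * (Pi.single ee (1 : ℚ) : J → ℚ) x := by
        rw [Finset.mul_sum, Finset.sum_mul]
        refine Finset.sum_congr rfl fun y _ => ?_
        simp only [Pi.smul_apply, smul_eq_mul]; ring
      rw [e1, e2']
      ring
    rw [hexp, h1, h2, hs]
    simp only [K2, Matrix.of_apply]
    by_cases hx : x = e2
    · subst hx
      simp [hne.symm]
    · by_cases hx2 : x = ee
      · subst hx2
        by_cases ho : o = oe
        · subst ho
          simp [hx, hκ]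
          norm_num
        · simp [hx, ho]
      · simp [hx, hx2]
  have hblock : K2.submatrix (fun y => e (Φ.symm y)) (fun y => Φ.symm y) =
      Matrix.fromBlocks (Matrix.of fun i j : {x : J // x ≠ e2} =>
        if (φ i : R) = oe ∧ (j : J) = ee then -1 else K (φ i) j) 0
        (Matrix.of fun _ j => K2 o1 j) 1 := by
    ext i j
    rcases i with i | i <;> rcases j with j | j
    · simp [e, Φ, Ψ, K2, j.2]
    · simp [e, Φ, Ψ, K2, (φ i).2]
    · simp [e, Φ, Ψ]
    · simp [e, Φ, Ψ, K2]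
  have hd1 : (Matrix.of fun i j : {x : J // x ≠ e2} => if (φ i : R) = oe ∧ (j : J) = ee then -1
      else K (φ i) j).det = (K2.submatrix e id).det := by
    have := congrArg Matrix.det hblock
    rw [Matrix.det_fromBlocks_zero₁₂, Matrix.det_one, mul_one] at this
    rw [← this]
    have h3 : K2.submatrix (fun y => e (Φ.symm y)) (fun y => Φ.symm y) =
      (K2.submatrix e id).submatrix Φ.symm Φ.symm := by
      ext i j; rfl
    rw [h3, Matrix.det_submatrix_equiv_self]
  have hd2 : (K2.submatrix e id) = (K.submatrix e id) * Xm := by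
    rw [hK2]; ext i j; simp [Matrix.mul_apply]
  rw [hd1, hd2, Matrix.det_mul, abs_mul, det_twoUpdate H1 H2 e2 ee hne]

end minor

end Pool.Agent.Helper848.AztecDet
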