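import Pool.Agent.Helper848.AztecDet
import Pool.Agent.Helper848.AztecCoeff

namespace Pool.Agent.Helper848.AztecEntries

open Polynomial Finset AztecDet AztecCoeff

theorem ge_two_mul (p j : ℕ) : ge p (2 * j) = gg p j := by
  unfold ge; rw [if_pos (by omega), show 2 * j / 2 = j from by omega]

theorem ge_odd (p j : ℕ) : ge p (2 * j + 1) = 0 := by
  unfold ge; rw [if_neg (by omega)]

theorem go_two_mul (p j : ℕ) : go p (2 * j) = 1 / 2 * gg p j := by
  unfold go; rw [show 2 * j / 2 = j from by omega]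

theorem go_odd (p j : ℕ) : go p (2 * j + 1) = 1 / 2 * gg p j := by
  unfold go; rw [show (2 * j + 1) / 2 = j from by omega]

theorem bE (p : ℕ) : (G (2 * p) (ge p) (p + 1) p).coeff (p - 1) = 1 / 2 * Sgt p := by
  unfold G
  rw [if_pos (by omega), show p + 1 - 1 - p = 0 from by omega, pow_zero, one_mul, finsetSum_coeff]
  simp only [coeff_C_mul]
  have h : ∑ k ∈ Ico (p + 1) (2 * p + 1), ge p k *
      ((1 + X) ^ (k + p - (p + 1)) * (1 - X) ^ (2 * p + (p + 1) - 1 - p - k) : ℚ[X]).coeff (p - 1) =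
      ∑ k ∈ Ico (p + 1) (2 * p + 2), ge p k *
      ((1 + X) ^ (k + p - (p + 1)) * (1 - X) ^ (2 * p + (p + 1) - 1 - p - k) : ℚ[X]).coeff (p - 1) := by
    rw [Finset.sum_Ico_succ_top (show p + 1 ≤ 2 * p + 1 by omega), ge_odd, zero_mul, add_zero]
  rw [h, sum_Ico_pairs, Sgt, mul_sum]
  refine sum_congr rfl fun j hj => ?_
  rw [mem_range] at hj
  rw [ge_odd, zero_mul, ite_self, add_zero]
  by_cases h1 : p + 1 ≤ 2 * j
  · rw [if_pos h1, if_pos (by omega), ge_two_mul, ← gg_cc p j (by omega)]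
    obtain ⟨i, rfl⟩ : ∃ i, j = i + 1 := ⟨j - 1, by omega⟩
    have h2 := half1 i (p - (i + 1))
    rw [show 2 * (i + 1) + p - (p + 1) = 2 * i + 1 from by omega,
      show 2 * p + (p + 1) - 1 - p - 2 * (i + 1) = 2 * (p - (i + 1)) from by omega,
      show p - 1 = i + (p - (i + 1)) from by omega, h2]
    ring
  · rw [if_neg h1, if_neg (by omega)]
    simp

theorem cE (p : ℕ) (hp : 1 ≤ p) : (G (2 * p) (ge p) (p + 1) (p + 1)).coeff (p - 1) =
    - (1 / 2 * (Slt p + Smid p)) := by
  unfold G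
  rw [if_neg (by omega), Nat.sub_self, pow_zero, one_mul, finsetSum_coeff]
  simp only [coeff_C_mul]
  rw [sum_range_pairs _ _ p (by omega), Slt, Smid, ← sum_add_distrib, mul_sum, ← sum_neg_distrib]
  refine sum_congr rfl fun j hj => ?_
  rw [mem_range] at hj
  rw [ge_odd, zero_mul, ite_self, add_zero]
  by_cases h1 : 2 * j < p + 1
  · have h2 := half2 j (p - j - 1)
    rw [if_pos h1, ge_two_mul, show 2 * j + 0 = 2 * j from rfl,
      show 2 * p - 1 - 2 * j - 0 = 2 * (p - j - 1) + 1 from by omega,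
      show p - 1 = j + (p - j - 1) from by omega, h2,
      show p - j - 1 + 1 = p - j from by omega]
    have h3 := gg_cc p j (by omega)
    have h4 : ((if 2 * j < p then w p j else 0) + if 2 * j = p then w p j else 0) = w p j := by
      rcases lt_or_eq_of_le (Nat.lt_succ_iff.mp h1) with h | h
      · rw [if_pos h, if_neg (by omega), add_zero]
      · rw [if_neg (by omega), if_pos h, zero_add]
    rw [h4, ← h3]
    ring
  · rw [if_neg h1, if_neg (by omega), if_neg (by omega)]
    simp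

theorem dE (p : ℕ) : (G (2 * p) (ge p) p p).coeff (p - 1) = - (1 / 2 * Slt p) := by
  unfold G
  rw [if_neg (by omega), Nat.sub_self, pow_zero, one_mul, finsetSum_coeff]
  simp only [coeff_C_mul]
  rw [sum_range_pairs _ _ p (by omega), Slt, mul_sum, ← sum_neg_distrib]
  refine sum_congr rfl fun j hj => ?_
  rw [mem_range] at hj
  rw [ge_odd, zero_mul, ite_self, add_zero]
  by_cases h1 : 2 * j < p
  · have h2 := half2 j (p - j - 1)
    rw [if_pos h1, if_pos h1, ge_two_mul, show 2 * j + 0 = 2 * j from rfl,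
      show 2 * p - 1 - 2 * j - 0 = 2 * (p - j - 1) + 1 from by omega,
      show p - 1 = j + (p - j - 1) from by omega, h2,
      show p - j - 1 + 1 = p - j from by omega]
    have h3 := gg_cc p j (by omega)
    rw [← h3]
    ring
  · rw [if_neg h1, if_neg h1]
    simp

theorem aE (p : ℕ) : (G (2 * p) (ge p) p (p + 1)).coeff (p - 1) =
    1 / 2 * ∑ j ∈ range ((p + 1) / 2), tt p j := by
  have hr : ∑ j ∈ range ((p + 1) / 2), tt p j = ∑ j ∈ range (p + 1), if 2 * j < p then tt p j
      else 0 := by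
    rw [← Finset.sum_filter]
    refine sum_congr ?_ fun _ _ => rfl
    ext j
    simp only [mem_filter, mem_range]
    omega
  unfold G
  rw [if_neg (by omega), show p + 1 - p = 1 from by omega, pow_one, neg_one_mul, coeff_neg,
    finsetSum_coeff]
  simp only [coeff_C_mul]
  rw [sum_range_pairs _ _ p (by omega), hr, mul_sum, ← sum_neg_distrib]
  refine sum_congr rfl fun j hj => ?_
  rw [mem_range] at hj
  rw [ge_odd, zero_mul, ite_self, add_zero]
  by_cases h1 : 2 * j < p
  · have h2 := half1 j (p - j - 1)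
    rw [if_pos h1, if_pos h1, ge_two_mul,
      show 2 * p - 1 - 2 * j - 1 = 2 * (p - j - 1) from by omega,
      show p - 1 = j + (p - j - 1) from by omega, h2]
    have h3 := gg_cc p j (by omega)
    have h4 := cc_rec2 j (p - j - 1)
    rw [show p - j - 1 + 1 = p - j from by omega] at h4
    have h5 : (((p - j - 1 : ℕ) : ℚ)) = p - j - 1 := by
      rw [show p - j - 1 = p - (j + 1) from by omega, Nat.cast_sub (by omega)]
      push_cast; ring
    rw [h5] at h4
    have h6 : (2 * (p : ℚ) - 2 * j - 1) ≠ 0 := by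
      have : (2 * (j : ℚ)) + 1 ≤ p := by exact_mod_cast h1
      intro hc
      have : (0 : ℚ) ≤ j := by positivity
      linarith
    have h7 : tt p j = -(gg p j * cc (j + 1) (p - j - 1)) := by
      unfold tt
      rw [div_mul_eq_mul_div, div_eq_iff h6, ← h3]
      linear_combination (gg p j) * h4
    rw [h7]
    ring
  · rw [if_neg h1, if_neg h1]
    simp

theorem bO (p : ℕ) : (G (2 * p + 1) (go p) (p + 1) (p + 1)).coeff p =
    1 / 2 * (Slt p + Smid p) := by
  unfold G
  rw [if_neg (by omega), Nat.sub_self, pow_zero, one_mul, finsetSum_coeff]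
  simp only [coeff_C_mul]
  rw [sum_range_pairs _ _ p (by omega), Slt, Smid, ← sum_add_distrib, mul_sum]
  refine sum_congr rfl fun j hj => ?_
  rw [mem_range] at hj
  have hz : (if 2 * j + 1 < p + 1 then go p (2 * j + 1) *
      ((1 + X) ^ (2 * j + 1 + 0) * (1 - X) ^ (2 * p + 1 - 1 - (2 * j + 1) - 0) : ℚ[X]).coeff p
      else 0) = 0 := by
    split_ifs with h
    · have h3 := half3 j (p - j - 1)
      rw [show 2 * p + 1 - 1 - (2 * j + 1) - 0 = 2 * (p - j - 1) + 1 from by omega,
        show (p : ℕ) = j + (p - j - 1) + 1 from by omega]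
      rw [show 2 * (j + (p - j - 1) + 1 - j - 1) + 1 = 2 * (p - j - 1) + 1 from by omega,
        show 2 * j + 1 + 0 = 2 * j + 1 from rfl, h3, mul_zero]
    · rfl
  rw [hz, add_zero]
  by_cases h1 : 2 * j < p + 1
  · rw [if_pos h1, go_two_mul, show 2 * j + 0 = 2 * j from rfl,
      show 2 * p + 1 - 1 - 2 * j - 0 = 2 * (p - j) from by omega]
    have h3 := gg_cc p j (by omega)
    have h2 : ((1 + X) ^ (2 * j) * (1 - X) ^ (2 * (p - j)) : ℚ[X]).coeff p = cc j (p - j) := by
      unfold cc; rw [show j + (p - j) = p from by omega]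
    rw [h2]
    have h4 : ((if 2 * j < p then w p j else 0) + if 2 * j = p then w p j else 0) = w p j := by
      rcases lt_or_eq_of_le (Nat.lt_succ_iff.mp h1) with h | h
      · rw [if_pos h, if_neg (by omega), add_zero]
      · rw [if_neg (by omega), if_pos h, zero_add]
    rw [h4, ← h3]
    ring
  · rw [if_neg h1, if_neg (by omega), if_neg (by omega)]
    simp

theorem cO_term (p j : ℕ) (hj : j ≤ p) : go p (2 * j + 1) *
    ((1 + X) ^ (2 * j) * (1 - X) ^ (2 * p - 2 * j) : ℚ[X]).coeff p = 1 / 2 * w p j := by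
  have h3 := gg_cc p j (by omega)
  have h2 : ((1 + X) ^ (2 * j) * (1 - X) ^ (2 * p - 2 * j) : ℚ[X]).coeff p = cc j (p - j) := by
    unfold cc
    rw [show j + (p - j) = p from by omega, show 2 * p - 2 * j = 2 * (p - j) from by omega]
  rw [h2, go_odd, ← h3]
  ring

theorem cO_zero (p j : ℕ) (h1 : 1 ≤ j) (hj : j ≤ p) :
    ((1 + X) ^ (2 * j - 1) * (1 - X) ^ (2 * p + 1 - 2 * j) : ℚ[X]).coeff p = 0 := by
  obtain ⟨i, rfl⟩ : ∃ i, j = i + 1 := ⟨j - 1, by omega⟩
  have h3 := half3 i (p - (i + 1))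
  rw [show 2 * (i + 1) - 1 = 2 * i + 1 from by omega,
    show 2 * p + 1 - 2 * (i + 1) = 2 * (p - (i + 1)) + 1 from by omega]
  have h4 : i + (p - (i + 1)) + 1 = p := by omega
  rw [h4] at h3
  exact h3

theorem cO (p : ℕ) : (G (2 * p + 1) (go p) (p + 1) p).coeff p = 1 / 2 * (Sgt p + Smid p) := by
  unfold G
  rw [if_pos (by omega), show p + 1 - 1 - p = 0 from by omega, pow_zero, one_mul, finsetSum_coeff]
  simp only [coeff_C_mul]
  rw [show 2 * p + 1 + 1 = 2 * p + 2 from rfl, sum_Ico_pairs, Sgt, Smid, ← sum_add_distrib, mul_sum]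
  refine sum_congr rfl fun j hj => ?_
  rw [mem_range] at hj
  have hz : (if p + 1 ≤ 2 * j then go p (2 * j) *
      ((1 + X) ^ (2 * j + p - (p + 1)) * (1 - X) ^ (2 * p + 1 + (p + 1) - 1 - p - 2 * j) :
        ℚ[X]).coeff p else 0) = 0 := by
    split_ifs with h
    · rw [show 2 * j + p - (p + 1) = 2 * j - 1 from by omega,
        show 2 * p + 1 + (p + 1) - 1 - p - 2 * j = 2 * p + 1 - 2 * j from by omega,
        cO_zero p j (by omega) (by omega), mul_zero]
    · rfl
  rw [hz, zero_add]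
  by_cases h1 : p + 1 ≤ 2 * j + 1
  · rw [if_pos h1, show 2 * j + 1 + p - (p + 1) = 2 * j from by omega,
      show 2 * p + 1 + (p + 1) - 1 - p - (2 * j + 1) = 2 * p - 2 * j from by omega,
      cO_term p j (by omega)]
    have h4 : ((if p < 2 * j then w p j else 0) + if 2 * j = p then w p j else 0) = w p j := by
      rcases lt_or_eq_of_le (Nat.le_of_succ_le_succ h1) with h | h
      · rw [if_pos h, if_neg (by omega), add_zero]
      · rw [if_neg (by omega), if_pos (by omega), zero_add]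
    rw [h4]
  · rw [if_neg h1, if_neg (by omega), if_neg (by omega)]
    simp

theorem dO (p : ℕ) : (G (2 * p + 1) (go p) (p + 2) (p + 1)).coeff p = 1 / 2 * Sgt p := by
  unfold G
  rw [if_pos (by omega), show p + 2 - 1 - (p + 1) = 0 from by omega, pow_zero, one_mul,
    finsetSum_coeff]
  simp only [coeff_C_mul]
  rw [show 2 * p + 1 + 1 = 2 * p + 2 from rfl, sum_Ico_pairs, Sgt, mul_sum]
  refine sum_congr rfl fun j hj => ?_
  rw [mem_range] at hj
  have hz : (if p + 2 ≤ 2 * j then go p (2 * j) *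
      ((1 + X) ^ (2 * j + (p + 1) - (p + 2)) *
        (1 - X) ^ (2 * p + 1 + (p + 2) - 1 - (p + 1) - 2 * j) :
        ℚ[X]).coeff p else 0) = 0 := by
    split_ifs with h
    · rw [show 2 * j + (p + 1) - (p + 2) = 2 * j - 1 from by omega,
        show 2 * p + 1 + (p + 2) - 1 - (p + 1) - 2 * j = 2 * p + 1 - 2 * j from by omega,
        cO_zero p j (by omega) (by omega), mul_zero]
    · rfl
  rw [hz, zero_add]
  by_cases h1 : p + 2 ≤ 2 * j + 1
  · rw [if_pos h1, show 2 * j + 1 + (p + 1) - (p + 2) = 2 * j from by omega,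
      show 2 * p + 1 + (p + 2) - 1 - (p + 1) - (2 * j + 1) = 2 * p - 2 * j from by omega,
      cO_term p j (by omega), if_pos (by omega)]
  · rw [if_neg h1, if_neg (by omega)]
    simp

theorem aO (p : ℕ) : (G (2 * p + 1) (go p) (p + 2) p).coeff p =
    1 / 2 * ∑ j ∈ range (p / 2), tt p j := by
  have hr : ∑ j ∈ range (p / 2), tt p j = ∑ j ∈ range (p + 1), if p + 2 ≤ 2 * j then
      tt p (p - j) else 0 := by
    rw [← Finset.sum_range_reflect (fun j => if p + 2 ≤ 2 * j then tt p (p - j) else 0) (p + 1)]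
    have : ∀ j ∈ range (p + 1), (if p + 2 ≤ 2 * (p + 1 - 1 - j) then tt p (p - (p + 1 - 1 - j)) else 0) =
        if 2 * j + 2 ≤ p then tt p j else 0 := by
      intro j hj
      rw [mem_range] at hj
      rw [show p + 1 - 1 - j = p - j from by omega, show p - (p - j) = j from by omega]
      by_cases h : 2 * j + 2 ≤ p
      · rw [if_pos h, if_pos (by omega)]
      · rw [if_neg h, if_neg (by omega)]
    rw [sum_congr rfl this, ← Finset.sum_filter]
    refine sum_congr ?_ fun _ _ => rfl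
    ext j
    simp only [mem_filter, mem_range]
    omega
  unfold G
  rw [if_pos (by omega), show p + 2 - 1 - p = 1 from by omega, pow_one, neg_one_mul, coeff_neg,
    finsetSum_coeff]
  simp only [coeff_C_mul]
  rw [show 2 * p + 1 + 1 = 2 * p + 2 from rfl, sum_Ico_pairs, hr, mul_sum, ← sum_neg_distrib]
  refine sum_congr rfl fun j hj => ?_
  rw [mem_range] at hj
  have hz : (if p + 2 ≤ 2 * j + 1 then go p (2 * j + 1) *
      ((1 + X) ^ (2 * j + 1 + p - (p + 2)) *
        (1 - X) ^ (2 * p + 1 + (p + 2) - 1 - p - (2 * j + 1)) :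
        ℚ[X]).coeff p else 0) = 0 := by
    split_ifs with h
    · rw [show 2 * j + 1 + p - (p + 2) = 2 * j - 1 from by omega,
        show 2 * p + 1 + (p + 2) - 1 - p - (2 * j + 1) = 2 * p + 1 - 2 * j from by omega,
        cO_zero p j (by omega) (by omega), mul_zero]
    · rfl
  rw [hz, add_zero]
  by_cases h1 : p + 2 ≤ 2 * j
  · rw [if_pos h1, if_pos h1]
    obtain ⟨i, rfl⟩ : ∃ i, j = i + 1 := ⟨j - 1, by omega⟩
    have h2 : ((1 + X) ^ (2 * (i + 1) + p - (p + 2)) *
        (1 - X) ^ (2 * p + 1 + (p + 2) - 1 - p - 2 * (i + 1)) : ℚ[X]).coeff p = cc i (p - i) := by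
      unfold cc
      rw [show i + (p - i) = p from by omega, show 2 * (i + 1) + p - (p + 2) = 2 * i from by omega,
        show 2 * p + 1 + (p + 2) - 1 - p - 2 * (i + 1) = 2 * (p - i) from by omega]
    rw [h2, go_two_mul]
    have h3 := gg_cc p (i + 1) (by omega)
    have h4 := cc_rec2 i (p - (i + 1))
    rw [show p - (i + 1) + 1 = p - i from by omega] at h4
    have h5 : (((p - (i + 1) : ℕ) : ℚ)) = p - i - 1 := by
      rw [Nat.cast_sub (by omega)]
      push_cast; ring
    rw [h5] at h4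
    have h6 : (2 * (p : ℚ) - 2 * ((p : ℚ) - i - 1) - 1) ≠ 0 := by
      have : (0 : ℚ) ≤ i := by positivity
      intro hc
      linarith
    have h7 : tt p (p - (i + 1)) = -(gg p (i + 1) * cc i (p - i)) := by
      unfold tt
      rw [w_symm p (i + 1) (by omega), h5, div_mul_eq_mul_div, div_eq_iff h6, ← h3]
      linear_combination (gg p (i + 1)) * h4
    rw [h7]
    ring
  · rw [if_neg h1, if_neg h1]
    simp

theorem val_even (p : ℕ) (hp : 1 ≤ p) :
    (G (2 * p) (ge p) p (p + 1)).coeff (p - 1) *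
      (1 - 2 * (G (2 * p) (ge p) (p + 1) p).coeff (p - 1)) +
      2 * ((G (2 * p) (ge p) (p + 1) (p + 1)).coeff (p - 1) *
        (G (2 * p) (ge p) p p).coeff (p - 1)) =
    (Slt p + Smid p) * (((p + 1) / 2 : ℕ) : ℚ) * w p ((p + 1) / 2) := by
  rw [aE, bE, cE p hp, dE, tt_sum p _ (by omega), ← Slt_range, ← Slt_eq_Sgt]
  have h1 := S_total p
  rw [← Slt_eq_Sgt] at h1
  have h2 : Smid p = 1 - 2 * Slt p := by linarith
  rw [h2]
  ring

theorem val_odd (p : ℕ) :
    (G (2 * p + 1) (go p) (p + 2) p).coeff p *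
      (1 - 2 * (G (2 * p + 1) (go p) (p + 1) (p + 1)).coeff p) +
      2 * ((G (2 * p + 1) (go p) (p + 1) p).coeff p *
        (G (2 * p + 1) (go p) (p + 2) (p + 1)).coeff p) =
    1 / 2 * Slt p * (2 * ((p / 2 : ℕ) : ℚ) * w p (p / 2) - ∑ j ∈ range (p / 2), w p j +
      Slt p + Smid p) := by
  rw [aO, bO, cO, dO, tt_sum p _ (by omega), ← Slt_eq_Sgt]
  have h1 := S_total p
  rw [← Slt_eq_Sgt] at h1
  have h2 : Smid p = 1 - 2 * Slt p := by linarith
  rw [h2]
  ring

/-- `q_m = binom(2m, m) / 4^m` -/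
def q (m : ℕ) : ℚ := Nat.centralBinom m / 4 ^ m

theorem val_even_even (m : ℕ) : (Slt (2 * m) + Smid (2 * m)) * (((2 * m + 1) / 2 : ℕ) : ℚ) *
    w (2 * m) ((2 * m + 1) / 2) = m / 2 * q m ^ 2 * (1 + q m ^ 2) := by
  have h1 := S_total (2 * m)
  rw [← Slt_eq_Sgt, Smid_even] at h1
  have h3 : Slt (2 * m) = (1 - w (2 * m) m) / 2 := by linarith
  have h4 : w (2 * m) m = q m ^ 2 := by
    unfold w q
    rw [show 2 * m - m = m from by omega, mul_comm 2 m, pow_mul]
    field_simp
  rw [show (2 * m + 1) / 2 = m from by omega, Smid_even, h3, h4]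
  ring

theorem val_even_odd (m : ℕ) : (Slt (2 * m + 1) + Smid (2 * m + 1)) *
    (((2 * m + 1 + 1) / 2 : ℕ) : ℚ) * w (2 * m + 1) ((2 * m + 1 + 1) / 2) =
    (2 * m + 1) / 4 * q m ^ 2 := by
  have h1 := S_total (2 * m + 1)
  rw [← Slt_eq_Sgt, Smid_odd] at h1
  have h3 : Slt (2 * m + 1) = 1 / 2 := by linarith
  have h4 : ((m : ℚ) + 1) * w (2 * m + 1) (m + 1) = (2 * m + 1) / 2 * q m ^ 2 := by
    unfold w q
    have h5 := cB_succ m
    rw [show 2 * m + 1 - (m + 1) = m from by omega, show 2 * m + 1 = m + m + 1 from by ring,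
      pow_succ, pow_add]
    field_simp
    linear_combination (2 * (Nat.centralBinom m : ℚ)) * h5
  rw [show (2 * m + 1 + 1) / 2 = m + 1 from by omega, Smid_odd, h3]
  push_cast
  linear_combination (1 / 2 : ℚ) * h4

theorem val_odd_even (m : ℕ) : 1 / 2 * Slt (2 * m) * (2 * ((2 * m / 2 : ℕ) : ℚ) *
    w (2 * m) (2 * m / 2) - ∑ j ∈ range (2 * m / 2), w (2 * m) j + Slt (2 * m) + Smid (2 * m)) =
    (2 * m + 1) / 4 * q m ^ 2 * (1 - q m ^ 2) := by
  have h0 := Slt_range (2 * m)
  rw [show (2 * m + 1) / 2 = m from by omega] at h0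
  have h1 := S_total (2 * m)
  rw [← Slt_eq_Sgt, Smid_even] at h1
  have h3 : Slt (2 * m) = (1 - w (2 * m) m) / 2 := by linarith
  have h4 : w (2 * m) m = q m ^ 2 := by
    unfold w q
    rw [show 2 * m - m = m from by omega, mul_comm 2 m, pow_mul]
    field_simp
  rw [show 2 * m / 2 = m from by omega, ← h0, Smid_even, h3, h4]
  ring

theorem val_odd_odd (m : ℕ) : 1 / 2 * Slt (2 * m + 1) * (2 * (((2 * m + 1) / 2 : ℕ) : ℚ) *
    w (2 * m + 1) ((2 * m + 1) / 2) - ∑ j ∈ range ((2 * m + 1) / 2), w (2 * m + 1) j +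
    Slt (2 * m + 1) + Smid (2 * m + 1)) =
    (m + 1) / 2 * q (m + 1) ^ 2 := by
  have h0 := Slt_range (2 * m + 1)
  rw [show (2 * m + 1 + 1) / 2 = m + 1 from by omega, sum_range_succ] at h0
  have h1 := S_total (2 * m + 1)
  rw [← Slt_eq_Sgt, Smid_odd] at h1
  have h3 : Slt (2 * m + 1) = 1 / 2 := by linarith
  have h4 : (2 * (m : ℚ) + 1) * w (2 * m + 1) m = 2 * ((m + 1) * q (m + 1) ^ 2) := by
    unfold w q
    have h5 := cB_succ m
    rw [show 2 * m + 1 - m = m + 1 from by omega, show 2 * m + 1 = m + m + 1 from by ring,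
      pow_succ, pow_add, pow_succ 4 m]
    field_simp
    linear_combination (-2 * (Nat.centralBinom (m + 1) : ℚ)) * h5
  rw [show (2 * m + 1) / 2 = m from by omega, Smid_odd]
  rw [h3] at h0 ⊢
  linear_combination (1 / 4 : ℚ) * h4 + (1 / 4 : ℚ) * h0

end Pool.Agent.Helper848.AztecEntries
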