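import Pool.Agent.Helper848.Domino

namespace Pool.Agent.Helper848

open Finset

instance : DecidableRel Adj := fun p q => by unfold Adj; infer_instance

theorem Adj.symm {p q : ℤ × ℤ} (h : Adj p q) : Adj q p := by
  unfold Adj at *; omega

theorem Adj.parity {p q : ℤ × ℤ} (h : Adj p q) (e : ℤ) :
    Even (p.1 + p.2 + e) ↔ ¬ Even (q.1 + q.2 + e) := by
  unfold Adj at h; rw [Int.even_iff, Int.even_iff]; omega

theorem Adj.ne {p q : ℤ × ℤ} (h : Adj p q) : p ≠ q := by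
  rintro rfl; unfold Adj at h; omega

/-- cells of `R` on the diagonal of `p` which are above `p` -/
def above (R : Finset (ℤ × ℤ)) (p : ℤ × ℤ) : ℕ :=
  (R.filter fun q => q.2 - q.1 = p.2 - p.1 ∧ p.1 < q.1).card

/-- cells of `R` on the diagonal of `p` which are below `p` -/
def below (R : Finset (ℤ × ℤ)) (p : ℤ × ℤ) : ℕ :=
  (R.filter fun q => q.2 - q.1 = p.2 - p.1 ∧ q.1 < p.1).card

/-- signed adjacency -/
def kast (R : Finset (ℤ × ℤ)) (b w : ℤ × ℤ) : ℤ :=
  if Adj w b then (if b.2 - b.1 = w.2 - w.1 + 1 then (-1) ^ (above R w + below R b) else 1) else 0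

/-- diagonal lexicographic order key -/
def key (p : ℤ × ℤ) : ℤ ×ₗ ℤ := toLex (p.2 - p.1, p.1)

theorem key_lt {p q : ℤ × ℤ} : key p < key q ↔
    p.2 - p.1 < q.2 - q.1 ∨ (p.2 - p.1 = q.2 - q.1 ∧ p.1 < q.1) := by
  unfold key; rw [Prod.Lex.toLex_lt_toLex]

theorem key_inj : Function.Injective key := by
  intro p q h
  unfold key at h
  have := toLex_inj.mp h
  rw [Prod.mk.injEq] at this
  ext <;> omega

section sign

variable {N : ℕ} (x y : Fin N → ℤ × ℤ)

theorem sign_eq_pow (τ : Equiv.Perm (Fin N)) :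
    ((Equiv.Perm.sign τ : ℤˣ) : ℤ) =
      (-1) ^ (∑ i : Fin N, ∑ j : Fin N, if i < j ∧ τ j < τ i then 1 else 0) := by
  rw [Equiv.Perm.sign_eq_prod_prod_Iio, Finset.sum_comm]
  simp only [Units.coe_prod]
  rw [← Finset.prod_pow_eq_pow_sum]
  refine Finset.prod_congr rfl fun j _ => ?_
  rw [← Finset.prod_pow_eq_pow_sum]
  rw [← Finset.prod_subset (Finset.subset_univ (Finset.Iio j))]
  · refine Finset.prod_congr rfl fun i hi => ?_
    rw [Finset.mem_Iio] at hi
    by_cases h : τ i < τ j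
    · rw [if_pos h, if_neg (by intro h2; exact absurd h2.2 (not_lt.mpr h.le))]; simp
    · have h3 : τ j < τ i := lt_of_le_of_ne (not_lt.mp h) (fun h4 => (ne_of_gt hi) (τ.injective h4))
      rw [if_neg h, if_pos ⟨hi, h3⟩]; simp
  · intro i _ hi
    rw [Finset.mem_Iio] at hi
    rw [if_neg (fun h => hi h.1)]; simp

theorem pt_identity (vi ri vj rj si ti sj tj : ℤ)
    (hi : (si = vi + 1 ∧ (ti = ri ∨ ti = ri - 1)) ∨ (si = vi - 1 ∧ (ti = ri ∨ ti = ri + 1)))
    (hj : (sj = vj + 1 ∧ (tj = rj ∨ tj = rj - 1)) ∨ (sj = vj - 1 ∧ (tj = rj ∨ tj = rj + 1)))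
    (hx : ¬ (vi = vj ∧ ri = rj)) (hz : ¬ (si = sj ∧ ti = tj)) (hp : (vj - vi) % 2 = 0) :
    ((if si = vi + 1 ∧ (vj = vi ∧ ri < rj) then 1 else 0) +
        (if si = vi + 1 ∧ (si = sj ∧ tj < ti) then 1 else 0) : ℕ) =
      (if (vi < vj ∨ (vi = vj ∧ ri < rj)) ∧ (sj < si ∨ (sj = si ∧ tj < ti)) then 1 else 0) +
      ((if (si = vi + 1 ∧ sj = vj + 1) ∧ (vj = vi ∧ ri < rj) then 1 else 0) +
       (if (sj = vj + 1 ∧ si = vi + 1) ∧ (vi = vj ∧ rj < ri) then 1 else 0)) := by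
  rcases hi with ⟨rfl, hti⟩ | ⟨rfl, hti⟩ <;> rcases hj with ⟨rfl, htj⟩ | ⟨rfl, htj⟩
  · by_cases h : vi = vj
    · subst h
      split_ifs <;> omega
    · split_ifs <;> omega
  · by_cases h : vi = vj
    · subst h
      split_ifs <;> omega
    · by_cases h2 : vj = vi + 2
      · subst h2
        split_ifs <;> omega
      · split_ifs <;> omega
  · split_ifs <;> omega
  · by_cases h : vi = vj
    · subst h
      split_ifs <;> omega
    · split_ifs <;> omega

/-- `i` is matched with the next diagonal -/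
def Upp (x z : ℤ × ℤ) : Prop := z.2 - z.1 = x.2 - x.1 + 1

/-- same diagonal and smaller -/
def Dlt (x z : ℤ × ℤ) : Prop := z.2 - z.1 = x.2 - x.1 ∧ x.1 < z.1

instance (x z : ℤ × ℤ) : Decidable (Upp x z) := by unfold Upp; infer_instance
instance (x z : ℤ × ℤ) : Decidable (Dlt x z) := by unfold Dlt; infer_instance

theorem pt_identity' {xi xj zi zj : ℤ × ℤ} (hi : Adj xi zi) (hj : Adj xj zj)
    (hx : xi ≠ xj) (hz : zi ≠ zj) (e : ℤ) (hwi : Even (xi.1 + xi.2 + e)) (hwj : Even (xj.1 + xj.2 + e)) :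
    ((if Upp xi zi ∧ Dlt xi xj then 1 else 0) +
        (if Upp xi zi ∧ Dlt zj zi then 1 else 0) : ℕ) =
      (if key xi < key xj ∧ key zj < key zi then 1 else 0) +
      ((if (Upp xi zi ∧ Upp xj zj) ∧ Dlt xi xj then 1 else 0) +
       (if (Upp xj zj ∧ Upp xi zi) ∧ Dlt xj xi then 1 else 0)) := by
  simp only [key_lt]
  unfold Upp Dlt
  rw [Int.even_iff] at hwi hwj
  unfold Adj at hi hj
  obtain ⟨a, b⟩ := xi
  obtain ⟨a', b'⟩ := xj
  obtain ⟨c, d⟩ := zi
  obtain ⟨c', d'⟩ := zj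
  simp only [ne_eq, Prod.mk.injEq] at *
  have := pt_identity (b - a) a (b' - a') a' (d - c) c (d' - c') c' (by omega) (by omega)
    (by omega) (by omega) (by omega)
  convert this using 3

theorem sign_main (hx : StrictMono fun i => key (x i)) (hy : StrictMono fun i => key (y i))
    (e : ℤ) (hw : ∀ i, Even ((x i).1 + (x i).2 + e))
    (τ : Equiv.Perm (Fin N)) (hadj : ∀ i, Adj (x i) (y (τ i))) :
    ((Equiv.Perm.sign τ : ℤˣ) : ℤ) = ∏ i : Fin N,
      (if Upp (x i) (y (τ i)) then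
        (-1 : ℤ) ^ ((∑ j : Fin N, if Dlt (x i) (x j) then 1 else 0) +
          ∑ j : Fin N, if Dlt (y j) (y (τ i)) then 1 else 0) else 1) := by
  have hpt : ∀ i j : Fin N,
      ((if Upp (x i) (y (τ i)) ∧ Dlt (x i) (x j) then 1 else 0) +
        (if Upp (x i) (y (τ i)) ∧ Dlt (y (τ j)) (y (τ i)) then 1 else 0) : ℕ) =
      (if i < j ∧ τ j < τ i then 1 else 0) +
      ((if (Upp (x i) (y (τ i)) ∧ Upp (x j) (y (τ j))) ∧ Dlt (x i) (x j) then 1 else 0) +
       (if (Upp (x j) (y (τ j)) ∧ Upp (x i) (y (τ i))) ∧ Dlt (x j) (x i) then 1 else 0)) := by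
    intro i j
    by_cases hij : i = j
    · subst hij
      simp [Dlt]
    · have h1 : i < j ↔ key (x i) < key (x j) := (hx.lt_iff_lt (a := i) (b := j)).symm
      have h2 : τ j < τ i ↔ key (y (τ j)) < key (y (τ i)) :=
        (hy.lt_iff_lt (a := τ j) (b := τ i)).symm
      simp only [h1, h2]
      refine pt_identity' (hadj i) (hadj j) ?_ ?_ e (hw i) (hw j)
      · intro h
        exact hij (hx.injective (show key _ = key _ by rw [h]))
      · intro h
        exact hij (τ.injective (hy.injective (show key _ = key _ by rw [h])))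
  have hre : ∀ i : Fin N, (∑ j : Fin N, if Dlt (y j) (y (τ i)) then 1 else 0) =
      (∑ j : Fin N, if Dlt (y (τ j)) (y (τ i)) then 1 else 0) := fun i =>
    (Equiv.sum_comp τ (fun j => if Dlt (y j) (y (τ i)) then 1 else 0)).symm
  have hprod : ∀ i : Fin N, (if Upp (x i) (y (τ i)) then
        (-1 : ℤ) ^ ((∑ j : Fin N, if Dlt (x i) (x j) then 1 else 0) +
          ∑ j : Fin N, if Dlt (y j) (y (τ i)) then 1 else 0) else 1) =
      (-1) ^ (∑ j : Fin N, ((if Upp (x i) (y (τ i)) ∧ Dlt (x i) (x j) then 1 else 0) +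
        (if Upp (x i) (y (τ i)) ∧ Dlt (y (τ j)) (y (τ i)) then 1 else 0))) := by
    intro i
    rw [hre]
    by_cases h : Upp (x i) (y (τ i))
    · simp only [h, true_and, if_true, Finset.sum_add_distrib]
    · simp only [h, false_and, if_false]; simp
  rw [Finset.prod_congr rfl (fun i _ => hprod i), Finset.prod_pow_eq_pow_sum, sign_eq_pow,
    Finset.sum_congr rfl (fun i _ => Finset.sum_congr rfl (fun j _ => hpt i j))]
  simp only [Finset.sum_add_distrib]
  rw [Finset.sum_comm (f := fun i j : Fin N => (if (Upp (x j) (y (τ j)) ∧ Upp (x i) (y (τ i))) ∧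
    Dlt (x j) (x i) then 1 else 0))]
  rw [pow_add, ← two_mul, pow_mul (-1 : ℤ) 2]
  simp

end sign

section main

variable {ι : Type*} [Fintype ι] [DecidableEq ι]

/-- the set of dominoes of a bijection -/
def domSet (f g : ι → ℤ × ℤ) (π : Equiv.Perm ι) : Finset (Finset (ℤ × ℤ)) :=
  Finset.univ.image fun i => {f i, g (π i)}

theorem tilings_eq_image (e : ℤ) (R : Finset (ℤ × ℤ)) (f g : ι → ℤ × ℤ) (hf : Function.Injective f)
    (hg : Function.Injective g)
    (hfR : ∀ p, (∃ i, f i = p) ↔ p ∈ R ∧ Even (p.1 + p.2 + e))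
    (hgR : ∀ p, (∃ i, g i = p) ↔ p ∈ R ∧ ¬ Even (p.1 + p.2 + e)) :
    {T : Finset (Finset (ℤ × ℤ)) | IsTiling R T} =
      domSet f g '' {π : Equiv.Perm ι | ∀ i, Adj (f i) (g (π i))} := by
  have hfg : ∀ i j, f i ≠ g j := by
    intro i j h
    have h1 := (hfR _).mp ⟨i, rfl⟩
    have h2 := (hgR _).mp ⟨j, rfl⟩
    rw [h] at h1
    exact h2.2 h1.2
  ext T
  simp only [Set.mem_ofPred_eq, Set.mem_image]
  constructor
  · rintro ⟨h1, h2⟩
    have hex : ∀ i, ∃ k, Adj (f i) (g k) ∧ ({f i, g k} : Finset (ℤ × ℤ)) ∈ T := by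
      intro i
      obtain ⟨hiR, hie⟩ := (hfR _).mp ⟨i, rfl⟩
      obtain ⟨D, ⟨hD, hiD⟩, _⟩ := h2 _ hiR
      obtain ⟨hDR, p, q, hpq, hDe⟩ := h1 D hD
      have hb : ∃ b, Adj (f i) b ∧ D = {f i, b} := by
        rw [hDe, Finset.mem_insert, Finset.mem_singleton] at hiD
        rcases hiD with h | h
        · exact ⟨q, h ▸ hpq, by rw [hDe, h]⟩
        · exact ⟨p, h ▸ hpq.symm, by rw [hDe, h, Finset.pair_comm]⟩
      obtain ⟨b, hb1, hb2⟩ := hb
      have hbR : b ∈ R := hDR (by rw [hb2]; simp)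
      obtain ⟨k, hk⟩ := (hgR b).mpr ⟨hbR, (hb1.parity e).mp hie⟩
      exact ⟨k, by rw [hk]; exact hb1, by rw [hk, ← hb2]; exact hD⟩
    choose π₀ hπa hπT using hex
    have hinj : Function.Injective π₀ := by
      intro i j hij
      have hR : g (π₀ i) ∈ R := ((hgR _).mp ⟨_, rfl⟩).1
      obtain ⟨D, _, hD⟩ := h2 _ hR
      have e1 := hD _ ⟨hπT i, by simp⟩
      have e2 := hD _ ⟨hπT j, by rw [hij]; simp⟩
      have e3 : f i ∈ ({f j, g (π₀ j)} : Finset (ℤ × ℤ)) := by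
        rw [e2, ← e1]; simp
      rw [Finset.mem_insert, Finset.mem_singleton] at e3
      rcases e3 with h | h
      · exact hf h
      · exact absurd h (hfg _ _)
    have hbij : Function.Bijective π₀ := Finite.injective_iff_bijective.mp hinj
    refine ⟨Equiv.ofBijective π₀ hbij, fun i => hπa i, ?_⟩
    unfold domSet
    ext D
    simp only [Finset.mem_image, Finset.mem_univ, true_and, Equiv.ofBijective_apply]
    constructor
    · rintro ⟨i, rfl⟩
      exact hπT i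
    · intro hD
      obtain ⟨hDR, p, q, hpq, hDe⟩ := h1 D hD
      have hp : p ∈ R := hDR (by rw [hDe]; simp)
      have hq : q ∈ R := hDR (by rw [hDe]; simp)
      have : ∃ i, f i ∈ D := by
        by_cases he : Even (p.1 + p.2 + e)
        · obtain ⟨i, hi⟩ := (hfR p).mpr ⟨hp, he⟩
          exact ⟨i, by rw [hi, hDe]; simp⟩
        · have he2 : Even (q.1 + q.2 + e) := by
            by_contra hc
            exact he ((hpq.parity e).mpr hc)
          obtain ⟨i, hi⟩ := (hfR q).mpr ⟨hq, he2⟩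
          exact ⟨i, by rw [hi, hDe]; simp⟩
      obtain ⟨i, hi⟩ := this
      refine ⟨i, ?_⟩
      obtain ⟨D', _, hD'⟩ := h2 (f i) ((hfR _).mp ⟨i, rfl⟩).1
      rw [hD' _ ⟨hπT i, by simp⟩, hD' _ ⟨hD, hi⟩]
  · rintro ⟨π, hπ, rfl⟩
    unfold domSet
    refine ⟨?_, ?_⟩
    · intro D hD
      simp only [Finset.mem_image, Finset.mem_univ, true_and] at hD
      obtain ⟨i, rfl⟩ := hD
      refine ⟨?_, f i, g (π i), hπ i, rfl⟩
      intro c hc
      rw [Finset.mem_insert, Finset.mem_singleton] at hc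
      rcases hc with rfl | rfl
      · exact ((hfR _).mp ⟨i, rfl⟩).1
      · exact ((hgR _).mp ⟨_, rfl⟩).1
    · intro c hc
      by_cases he : Even (c.1 + c.2 + e)
      · obtain ⟨i, hi⟩ := (hfR c).mpr ⟨hc, he⟩
        refine ⟨{f i, g (π i)}, ⟨by simp, by rw [hi]; simp⟩, ?_⟩
        rintro D ⟨hD, hcD⟩
        simp only [Finset.mem_image, Finset.mem_univ, true_and] at hD
        obtain ⟨j, rfl⟩ := hD
        rw [Finset.mem_insert, Finset.mem_singleton, ← hi] at hcD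
        rcases hcD with h | h
        · rw [hf h]
        · exact absurd h (hfg _ _)
      · obtain ⟨k, hk⟩ := (hgR c).mpr ⟨hc, he⟩
        refine ⟨{f (π.symm k), g (π (π.symm k))}, ⟨?_, by simp [hk]⟩, ?_⟩
        · exact Finset.mem_image_of_mem (fun i => ({f i, g (π i)} : Finset (ℤ × ℤ)))
            (Finset.mem_univ (π.symm k))
        rintro D ⟨hD, hcD⟩
        simp only [Finset.mem_image, Finset.mem_univ, true_and] at hD
        obtain ⟨j, rfl⟩ := hD
        rw [Finset.mem_insert, Finset.mem_singleton, ← hk] at hcD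
        rcases hcD with h | h
        · exact absurd h.symm (hfg _ _)
        · have : j = π.symm k := by rw [hg h, Equiv.symm_apply_apply]
          rw [this]

theorem domSet_injOn (e : ℤ) (R : Finset (ℤ × ℤ)) (f g : ι → ℤ × ℤ) (hf : Function.Injective f)
    (hg : Function.Injective g)
    (hfR : ∀ p, (∃ i, f i = p) ↔ p ∈ R ∧ Even (p.1 + p.2 + e))
    (hgR : ∀ p, (∃ i, g i = p) ↔ p ∈ R ∧ ¬ Even (p.1 + p.2 + e)) :
    Set.InjOn (domSet f g) {π : Equiv.Perm ι | ∀ i, Adj (f i) (g (π i))} := by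
  have hfg : ∀ i j, f i ≠ g j := by
    intro i j h
    have h1 := (hfR _).mp ⟨i, rfl⟩
    have h2 := (hgR _).mp ⟨j, rfl⟩
    rw [h] at h1
    exact h2.2 h1.2
  intro π _ π' _ h
  ext i
  have h1 : ({f i, g (π i)} : Finset (ℤ × ℤ)) ∈ domSet f g π := by
    unfold domSet; exact Finset.mem_image_of_mem _ (Finset.mem_univ i)
  rw [h] at h1
  unfold domSet at h1
  simp only [Finset.mem_image, Finset.mem_univ, true_and] at h1
  obtain ⟨j, hj⟩ := h1
  have h2 : f i ∈ ({f j, g (π' j)} : Finset (ℤ × ℤ)) := by rw [hj]; simp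
  rw [Finset.mem_insert, Finset.mem_singleton] at h2
  rcases h2 with h2 | h2
  · have h3 := hf h2
    subst h3
    have h4 : g (π i) ∈ ({f i, g (π' i)} : Finset (ℤ × ℤ)) := by rw [hj]; simp
    rw [Finset.mem_insert, Finset.mem_singleton] at h4
    rcases h4 with h4 | h4
    · exact absurd h4.symm (hfg _ _)
    · exact hg h4
  · exact absurd h2 (hfg _ _)

theorem exists_sorted (f : ι → ℤ × ℤ) (hf : Function.Injective f) :
    ∃ e : Fin (Fintype.card ι) ≃ ι, StrictMono fun i => key (f (e i)) := by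
  let _ : LinearOrder ι := LinearOrder.lift' (fun i => key (f i)) (key_inj.comp hf)
  refine ⟨(monoEquivOfFin ι rfl).toEquiv, ?_⟩
  intro i j hij
  exact (monoEquivOfFin ι rfl).strictMono hij

theorem above_eq_sum (e : ℤ) (R : Finset (ℤ × ℤ)) {N : ℕ} (x : Fin N → ℤ × ℤ) (hx : Function.Injective x)
    (hxR : ∀ p, (∃ i, x i = p) ↔ p ∈ R ∧ Even (p.1 + p.2 + e)) (k : Fin N) :
    above R (x k) = ∑ j : Fin N, if Dlt (x k) (x j) then 1 else 0 := by
  have h0 := Finset.card_filter (fun j : Fin N => Dlt (x k) (x j)) Finset.univ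
  rw [← h0, above, ← Finset.card_image_of_injective _ hx]
  congr 1
  ext p
  simp only [Finset.mem_filter, Finset.mem_image, Finset.mem_univ, true_and]
  constructor
  · rintro ⟨hp, h1, h2⟩
    have he : Even (p.1 + p.2 + e) := by
      have := ((hxR _).mp ⟨k, rfl⟩).2
      rw [Int.even_iff] at this ⊢
      omega
    obtain ⟨j, hj⟩ := (hxR p).mpr ⟨hp, he⟩
    exact ⟨j, ⟨by rw [hj]; exact h1, by rw [hj]; exact h2⟩, hj⟩
  · rintro ⟨j, ⟨h1, h2⟩, rfl⟩
    exact ⟨((hxR _).mp ⟨j, rfl⟩).1, h1, h2⟩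

theorem below_eq_sum (e : ℤ) (R : Finset (ℤ × ℤ)) {N : ℕ} (x : Fin N → ℤ × ℤ) (hx : Function.Injective x)
    (hxR : ∀ p, (∃ i, x i = p) ↔ p ∈ R ∧ ¬ Even (p.1 + p.2 + e)) (k : Fin N) :
    below R (x k) = ∑ j : Fin N, if Dlt (x j) (x k) then 1 else 0 := by
  have h0 := Finset.card_filter (fun j : Fin N => Dlt (x j) (x k)) Finset.univ
  rw [← h0, below, ← Finset.card_image_of_injective _ hx]
  congr 1
  ext p
  simp only [Finset.mem_filter, Finset.mem_image, Finset.mem_univ, true_and]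
  constructor
  · rintro ⟨hp, h1, h2⟩
    have he : ¬ Even (p.1 + p.2 + e) := by
      have := ((hxR _).mp ⟨k, rfl⟩).2
      rw [Int.even_iff] at this ⊢
      omega
    obtain ⟨j, hj⟩ := (hxR p).mpr ⟨hp, he⟩
    exact ⟨j, ⟨by rw [hj]; exact h1.symm, by rw [hj]; exact h2⟩, hj⟩
  · rintro ⟨j, ⟨h1, h2⟩, rfl⟩
    exact ⟨((hxR _).mp ⟨j, rfl⟩).1, h1.symm, h2⟩

theorem exists_sign (e : ℤ) (R : Finset (ℤ × ℤ)) (f g : ι → ℤ × ℤ) (hf : Function.Injective f)
    (hg : Function.Injective g)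
    (hfR : ∀ p, (∃ i, f i = p) ↔ p ∈ R ∧ Even (p.1 + p.2 + e))
    (hgR : ∀ p, (∃ i, g i = p) ↔ p ∈ R ∧ ¬ Even (p.1 + p.2 + e)) :
    ∃ ε : ℤˣ, ∀ π : Equiv.Perm ι, (∀ i, Adj (f i) (g (π i))) →
      ((Equiv.Perm.sign π : ℤˣ) : ℤ) * ∏ i, kast R (g (π i)) (f i) = (ε : ℤ) := by
  obtain ⟨eW, heW⟩ := exists_sorted f hf
  obtain ⟨eB, heB⟩ := exists_sorted g hg
  refine ⟨Equiv.Perm.sign (eW.trans eB.symm), fun π hπ => ?_⟩
  set τ : Equiv.Perm (Fin (Fintype.card ι)) := (eW.trans π).trans eB.symm with hτ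
  have hyτ : ∀ i, g (eB (τ i)) = g (π (eW i)) := fun i => by simp [hτ]
  have hsign : Equiv.Perm.sign τ = Equiv.Perm.sign π * Equiv.Perm.sign (eW.trans eB.symm) := by
    have : τ = (((eW.trans π).trans eW.symm).trans (eW.trans eB.symm) :
      Equiv.Perm (Fin (Fintype.card ι))) := by
      ext i; simp [hτ]
    rw [this, Equiv.Perm.sign_trans, Equiv.Perm.sign_trans_trans_symm, mul_comm]
  have hmain := sign_main (fun i => f (eW i)) (fun i => g (eB i)) heW heB e
    (fun i => ((hfR _).mp ⟨_, rfl⟩).2) τ (fun i => by simpa [hyτ] using hπ (eW i))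
  have hprod : ∏ i, kast R (g (π i)) (f i) = ((Equiv.Perm.sign τ : ℤˣ) : ℤ) := by
    rw [hmain, ← Equiv.prod_comp eW]
    refine Finset.prod_congr rfl fun i _ => ?_
    have ha := above_eq_sum e R (fun i => f (eW i)) (hf.comp eW.injective) (fun p => by
      rw [← hfR p]; exact ⟨fun ⟨i, hi⟩ => ⟨_, hi⟩, fun ⟨i, hi⟩ => ⟨eW.symm i, by simpa using hi⟩⟩) i
    have hb := below_eq_sum e R (fun i => g (eB i)) (hg.comp eB.injective) (fun p => by
      rw [← hgR p]; exact ⟨fun ⟨i, hi⟩ => ⟨_, hi⟩, fun ⟨i, hi⟩ => ⟨eB.symm i, by simpa using hi⟩⟩)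
      (τ i)
    rw [← ha, ← hb, hyτ, kast, if_pos (hπ _)]
    rfl
  rw [hprod, hsign, Units.val_mul, ← mul_assoc, ← Units.val_mul, ← Units.val_mul]
  simp

/-- Kasteleyn's theorem for an arbitrary finite region of the square lattice, with explicit
signs, up to a gauge transformation. -/
theorem numTilings_eq (e : ℤ) (R : Finset (ℤ × ℤ)) (f g : ι → ℤ × ℤ) (hf : Function.Injective f)
    (hg : Function.Injective g)
    (hfR : ∀ p, (∃ i, f i = p) ↔ p ∈ R ∧ Even (p.1 + p.2 + e))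
    (hgR : ∀ p, (∃ i, g i = p) ↔ p ∈ R ∧ ¬ Even (p.1 + p.2 + e))
    (α β : ι → ℤˣ) (M : Matrix ι ι ℤ)
    (hM : ∀ i j, M i j = α i * β j * kast R (g i) (f j)) :
    numTilings R = M.det.natAbs := by
  obtain ⟨ε, hε⟩ := exists_sign e R f g hf hg hfR hgR
  have hdet : M.det = ((∏ i, α i : ℤˣ) : ℤ) * ((∏ i, β i : ℤˣ) : ℤ) * ε *
      ((Finset.univ.filter fun π : Equiv.Perm ι => ∀ i, Adj (f i) (g (π i))).card : ℤ) := by
    rw [Matrix.det_apply', Finset.card_filter, Nat.cast_sum, Finset.mul_sum]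
    refine Finset.sum_congr rfl fun π _ => ?_
    have h1 : ∏ i, M (π i) i = ((∏ i, α i : ℤˣ) : ℤ) * ((∏ i, β i : ℤˣ) : ℤ) *
        ∏ i, kast R (g (π i)) (f i) := by
      simp only [hM, Finset.prod_mul_distrib]
      rw [Units.coe_prod, Units.coe_prod, Equiv.prod_comp π (fun i => ((α i : ℤˣ) : ℤ))]
    rw [h1]
    by_cases hπ : ∀ i, Adj (f i) (g (π i))
    · rw [if_pos hπ, ← hε π hπ]
      push_cast
      ring
    · rw [if_neg hπ]
      rw [not_forall] at hπ
      obtain ⟨i, hi⟩ := hπ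
      rw [Finset.prod_eq_zero (Finset.mem_univ i) (by rw [kast, if_neg hi])]
      simp
  rw [hdet, Int.natAbs_mul, ← Units.val_mul, ← Units.val_mul, Int.natAbs_of_isUnit (Units.isUnit _),
    one_mul, Int.natAbs_natCast, numTilings, tilings_eq_image e R f g hf hg hfR hgR,
    (domSet_injOn e R f g hf hg hfR hgR).ncard_image, ← Set.ncard_coe_finset]
  congr 1
  ext π
  simp

end main

end Pool.Agent.Helper848
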