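import Pool.Agent.Helper848.KnightDefs
import Pool.Agent.Helper848.Kast
import Pool.Agent.Helper848.AztecEntries

namespace Pool.Agent.Helper848.AztecRegion

open Finset AztecDet

theorem mem_aztec (n : ℕ) (p : ℤ × ℤ) : p ∈ aztec n ↔
    (-(n : ℤ) ≤ p.1 + p.2 + 1 ∧ p.1 + p.2 + 1 ≤ n) ∧ (-(n : ℤ) ≤ p.1 - p.2 ∧ p.1 - p.2 ≤ n) := by
  unfold aztec
  rw [mem_filter, mem_product, mem_Icc, mem_Icc]
  omega

/-- cell with even first diagonal coordinate -/
def cE (n : ℕ) (s t : ℕ) : ℤ × ℤ := ((s : ℤ) + t - n, (s : ℤ) - t - 1)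

/-- cell with odd first diagonal coordinate -/
def cO (n : ℕ) (s t : ℕ) : ℤ × ℤ := ((s : ℤ) + t - n, (s : ℤ) - t)

theorem above_sdiff (A H : Finset (ℤ × ℤ)) (hH : H ⊆ A) (p : ℤ × ℤ) :
    above (A \ H) p + above H p = above A p := by
  unfold above
  rw [← card_union_of_disjoint]
  · congr 1
    ext q
    simp only [mem_union, mem_filter, mem_sdiff]
    constructor
    · rintro (⟨⟨h1, _⟩, h2⟩ | ⟨h1, h2⟩)
      · exact ⟨h1, h2⟩
      · exact ⟨hH h1, h2⟩
    · rintro ⟨h1, h2⟩
      by_cases h : q ∈ H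
      · exact Or.inr ⟨h, h2⟩
      · exact Or.inl ⟨⟨h1, h⟩, h2⟩
  · rw [disjoint_left]
    intro q hq hq2
    simp only [mem_filter, mem_sdiff] at hq hq2
    exact hq.1.2 hq2.1

theorem below_sdiff (A H : Finset (ℤ × ℤ)) (hH : H ⊆ A) (p : ℤ × ℤ) :
    below (A \ H) p + below H p = below A p := by
  unfold below
  rw [← card_union_of_disjoint]
  · congr 1
    ext q
    simp only [mem_union, mem_filter, mem_sdiff]
    constructor
    · rintro (⟨⟨h1, _⟩, h2⟩ | ⟨h1, h2⟩)
      · exact ⟨h1, h2⟩
      · exact ⟨hH h1, h2⟩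
    · rintro ⟨h1, h2⟩
      by_cases h : q ∈ H
      · exact Or.inr ⟨h, h2⟩
      · exact Or.inl ⟨⟨h1, h⟩, h2⟩
  · rw [disjoint_left]
    intro q hq hq2
    simp only [mem_filter, mem_sdiff] at hq hq2
    exact hq.1.2 hq2.1

theorem above_pair (h1 h2 p : ℤ × ℤ) (hne : h1 ≠ h2) : above {h1, h2} p =
    (if h1.2 - h1.1 = p.2 - p.1 ∧ p.1 < h1.1 then 1 else 0) +
    (if h2.2 - h2.1 = p.2 - p.1 ∧ p.1 < h2.1 then 1 else 0) := by
  unfold above
  rw [card_filter, sum_pair hne]

theorem below_pair (h1 h2 p : ℤ × ℤ) (hne : h1 ≠ h2) : below {h1, h2} p =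
    (if h1.2 - h1.1 = p.2 - p.1 ∧ h1.1 < p.1 then 1 else 0) +
    (if h2.2 - h2.1 = p.2 - p.1 ∧ h2.1 < p.1 then 1 else 0) := by
  unfold below
  rw [card_filter, sum_pair hne]

theorem above_aztec (n s t : ℕ) (hs : s ≤ n) (ht : t < n) : above (aztec n) (cE n s t) = n - s := by
  unfold above
  have h : ((aztec n).filter fun q => q.2 - q.1 = (cE n s t).2 - (cE n s t).1 ∧
      (cE n s t).1 < q.1) = (range (n - s)).image fun k => cE n (s + 1 + k) t := by
    ext q
    rw [mem_filter, mem_aztec, mem_image]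
    simp only [cE, mem_range]
    constructor
    · rintro ⟨h1, h2, h3⟩
      refine ⟨(q.1 - t + n - s - 1).toNat, ?_, ?_⟩
      · omega
      · ext
        · simp only; push_cast; omega
        · simp only; push_cast; omega
    · rintro ⟨k, hk, rfl⟩
      simp only
      push_cast
      omega
  rw [h, card_image_of_injective, card_range]
  intro a b hab
  unfold cE at hab
  simp only [Prod.mk.injEq] at hab
  push_cast at hab
  omega

theorem below_aztec (n s t : ℕ) (hs : s < n) (ht : t ≤ n) : below (aztec n) (cO n s t) = s := by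
  unfold below
  have h : ((aztec n).filter fun q => q.2 - q.1 = (cO n s t).2 - (cO n s t).1 ∧
      q.1 < (cO n s t).1) = (range s).image fun k => cO n k t := by
    ext q
    rw [mem_filter, mem_aztec, mem_image]
    simp only [cO, mem_range]
    constructor
    · rintro ⟨h1, h2, h3⟩
      refine ⟨(q.1 - t + n).toNat, ?_, ?_⟩
      · omega
      · ext
        · simp only; omega
        · simp only; omega
    · rintro ⟨k, hk, rfl⟩
      simp only
      omega
  rw [h, card_image_of_injective, card_range]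
  intro a b hab
  unfold cO at hab
  simp only [Prod.mk.injEq] at hab
  omega

/-- integer Kasteleyn matrix entry -/
def K0Z (s' tb s t : ℕ) : ℤ :=
  (if s = s' + 1 then (1 : ℤ) else 0) *
    ((if t = tb then 1 else 0) - (if t + 1 = tb then 1 else 0)) +
  (if s = s' then (1 : ℤ) else 0) *
    ((if t = tb then 1 else 0) + (if t + 1 = tb then 1 else 0))

theorem adj_iff (n s' tb s t : ℕ) : Adj (cE n s t) (cO n s' tb) ↔
    (s = s' ∨ s = s' + 1) ∧ (t = tb ∨ t + 1 = tb) := by
  unfold Adj cE cO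
  simp only
  omega

theorem even_cE (n s t : ℕ) : Even ((cE n s t).1 + (cE n s t).2 + ((n : ℤ) + 1)) := by
  rw [Int.even_iff]; unfold cE; simp only; omega

theorem odd_cO (n s t : ℕ) : ¬ Even ((cO n s t).1 + (cO n s t).2 + ((n : ℤ) + 1)) := by
  rw [Int.even_iff]; unfold cO; simp only; omega

theorem cE_inj (n : ℕ) (x y : E n) (h : cE n x.1 x.2 = cE n y.1 y.2) : x = y := by
  unfold cE at h
  rw [Prod.mk.injEq] at h
  ext <;> omega

theorem cO_inj (n : ℕ) (x y : O n) (h : cO n x.1 x.2 = cO n y.1 y.2) : x = y := by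
  unfold cO at h
  rw [Prod.mk.injEq] at h
  ext <;> omega

theorem cE_mem (n : ℕ) (x : E n) : cE n x.1 x.2 ∈ aztec n := by
  rw [mem_aztec]; unfold cE; simp only
  have := x.1.2; have := x.2.2
  omega

theorem cO_mem (n : ℕ) (x : O n) : cO n x.1 x.2 ∈ aztec n := by
  rw [mem_aztec]; unfold cO; simp only
  have := x.1.2; have := x.2.2
  omega

theorem exists_cE (n : ℕ) (q : ℤ × ℤ) (hq : q ∈ aztec n) (he : Even (q.1 + q.2 + ((n : ℤ) + 1))) :
    ∃ x : E n, cE n x.1 x.2 = q := by
  rw [mem_aztec] at hq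
  rw [Int.even_iff] at he
  refine ⟨(⟨((q.1 + q.2 + n + 1) / 2).toNat, by omega⟩, ⟨((q.1 - q.2 + n - 1) / 2).toNat,
    by omega⟩), ?_⟩
  unfold cE
  ext <;> simp only <;> omega

theorem exists_cO (n : ℕ) (q : ℤ × ℤ) (hq : q ∈ aztec n)
    (he : ¬ Even (q.1 + q.2 + ((n : ℤ) + 1))) :
    ∃ x : O n, cO n x.1 x.2 = q := by
  rw [mem_aztec] at hq
  rw [Int.even_iff] at he
  refine ⟨(⟨((q.1 + q.2 + n) / 2).toNat, by omega⟩, ⟨((q.1 - q.2 + n) / 2).toNat,
    by omega⟩), ?_⟩
  unfold cO
  ext <;> simp only <;> omega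

theorem neg_one_pow_congr {a b : ℕ} (h : a % 2 = b % 2) : (-1 : ℤ) ^ a = (-1) ^ b := by
  rw [neg_one_pow_eq_pow_mod_two a, neg_one_pow_eq_pow_mod_two b, h]

theorem holesE_even (p s t : ℕ) : above {(-1, -1), (0, 1)} (cE (2 * p) s t) =
    (if t + 1 = p ∧ s ≤ p then 1 else 0) := by
  rw [above_pair _ _ _ (by decide)]
  unfold cE
  simp only
  split_ifs <;> omega

theorem holesO_even (p s t : ℕ) : below {(-1, -1), (0, 1)} (cO (2 * p) s t) =
    (if t = p ∧ p ≤ s then 1 else 0) := by
  rw [below_pair _ _ _ (by decide)]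
  unfold cO
  simp only
  split_ifs <;> omega

theorem holesE_odd (p s t : ℕ) : above {(-1, -1), (0, 1)} (cE (2 * p + 1) s t) =
    (if t = p ∧ s + 1 ≤ p then 1 else 0) := by
  rw [above_pair _ _ _ (by decide)]
  unfold cE
  simp only
  split_ifs <;> omega

theorem holesO_odd (p s t : ℕ) : below {(-1, -1), (0, 1)} (cO (2 * p + 1) s t) =
    (if t = p ∧ p + 2 ≤ s then 1 else 0) := by
  rw [below_pair _ _ _ (by decide)]
  unfold cO
  simp only
  split_ifs <;> omega

/-- sign identity for even order `2p` -/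
theorem gauge_even (p : ℕ) (hp : 1 ≤ p) (s' tb s t : ℕ) (hs' : s' < 2 * p) (htb : tb ≤ 2 * p)
    (hs : s ≤ 2 * p) (ht : t < 2 * p) (_h1 : ¬ (s' + 1 = p ∧ tb = p))
    (h2 : ¬ (s = p + 1 ∧ t + 1 = p)) :
    (if (s' = p ∧ tb = p) ∧ (s = p ∧ t + 1 = p) then -1 else K0Z s' tb s t) =
      (-1) ^ (s' + (if tb = p ∧ p ≤ s' then 1 else 0) + (if p ≤ tb then 1 else 0)) *
      (-1) ^ (s + (if t + 1 = p ∧ p + 2 ≤ s then 1 else 0) + (if p ≤ t + 1 then 1 else 0)) *
      kast (knightRegion (2 * p)) (cO (2 * p) s' tb) (cE (2 * p) s t) := by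
  have hH : ({(-1, -1), (0, 1)} : Finset (ℤ × ℤ)) ⊆ aztec (2 * p) := by
    intro q hq
    rw [mem_insert, mem_singleton] at hq
    rw [mem_aztec]
    rcases hq with rfl | rfl <;> simp only <;> omega
  have hA := above_sdiff _ _ hH (cE (2 * p) s t)
  have hB := below_sdiff _ _ hH (cO (2 * p) s' tb)
  rw [above_aztec _ s t hs ht, holesE_even] at hA
  rw [below_aztec _ s' tb hs' htb, holesO_even] at hB
  unfold kast knightRegion
  by_cases hadj : Adj (cE (2 * p) s t) (cO (2 * p) s' tb)
  · rw [if_pos hadj]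
    rw [adj_iff] at hadj
    have hupp : ((cO (2 * p) s' tb).2 - (cO (2 * p) s' tb).1 =
        (cE (2 * p) s t).2 - (cE (2 * p) s t).1 + 1) ↔ t = tb := by
      unfold cO cE; simp only; omega
    rcases hadj.2 with h3 | h3
    · rw [if_pos (hupp.mpr h3), ← pow_add, ← pow_add]
      have hK : (if (s' = p ∧ tb = p) ∧ (s = p ∧ t + 1 = p) then -1 else K0Z s' tb s t) =
          (-1) ^ 0 := by
        rw [if_neg (by omega)]
        unfold K0Z
        rcases hadj.1 with h4 | h4
        · rw [if_neg (by omega), if_pos h4, if_pos h3, if_neg (by omega)]; norm_num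
        · rw [if_pos h4, if_neg (c := s = s') (by omega), if_pos h3, if_neg (by omega)]; norm_num
      rw [hK]
      apply neg_one_pow_congr
      split_ifs at hA hB ⊢ <;> omega
    · rw [if_neg (c := _ = _ + (1 : ℤ)) (fun h => by have := hupp.mp h; omega), mul_one, ← pow_add]
      by_cases he : (s' = p ∧ tb = p) ∧ (s = p ∧ t + 1 = p)
      · rw [if_pos he, show (-1 : ℤ) = (-1) ^ 1 from by norm_num, ← pow_mul, one_mul]
        apply neg_one_pow_congr
        split_ifs <;> omega
      · rw [if_neg he]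
        rcases hadj.1 with h4 | h4
        · have hK : K0Z s' tb s t = (-1) ^ 0 := by
            unfold K0Z
            rw [if_neg (by omega), if_pos h4, if_neg (by omega), if_pos h3]; norm_num
          rw [hK]
          apply neg_one_pow_congr
          split_ifs <;> omega
        · have hK : K0Z s' tb s t = (-1) ^ 1 := by
            unfold K0Z
            rw [if_pos h4, if_neg (c := s = s') (by omega), if_neg (by omega), if_pos h3]; norm_num
          rw [hK]
          apply neg_one_pow_congr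
          split_ifs <;> omega
  · rw [if_neg hadj, mul_zero]
    rw [adj_iff] at hadj
    rw [if_neg (by omega)]
    unfold K0Z
    by_cases h3 : s = s' + 1
    · rw [if_pos h3, if_neg (c := s = s') (by omega), if_neg (by omega), if_neg (by omega)]
      norm_num
    · rw [if_neg h3]
      by_cases h4 : s = s'
      · rw [if_pos h4, if_neg (c := t = tb) (by omega), if_neg (by omega)]
        norm_num
      · rw [if_neg h4]
        norm_num

/-- sign identity for odd order `2p+1` -/
theorem gauge_odd (p : ℕ) (hp : 1 ≤ p) (s' tb s t : ℕ) (hs' : s' < 2 * p + 1)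
    (htb : tb ≤ 2 * p + 1) (hs : s ≤ 2 * p + 1) (ht : t < 2 * p + 1)
    (h1 : ¬ (s' = p + 1 ∧ tb = p)) (h2 : ¬ (s = p ∧ t = p)) :
    (if (s' = p ∧ tb = p) ∧ (s = p + 1 ∧ t = p) then -1 else K0Z s' tb s t) =
      (-1) ^ (s' + tb + 1 + (if p + 1 ≤ tb then 1 else 0)) *
      (-1) ^ (s + t + (if p ≤ t then 1 else 0)) *
      kast (knightRegion (2 * p + 1)) (cO (2 * p + 1) s' tb) (cE (2 * p + 1) s t) := by
  have hH : ({(-1, -1), (0, 1)} : Finset (ℤ × ℤ)) ⊆ aztec (2 * p + 1) := by
    intro q hq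
    rw [mem_insert, mem_singleton] at hq
    rw [mem_aztec]
    rcases hq with rfl | rfl <;> simp only <;> omega
  have hA := above_sdiff _ _ hH (cE (2 * p + 1) s t)
  have hB := below_sdiff _ _ hH (cO (2 * p + 1) s' tb)
  rw [above_aztec _ s t hs ht, holesE_odd] at hA
  rw [below_aztec _ s' tb hs' htb, holesO_odd] at hB
  unfold kast knightRegion
  by_cases hadj : Adj (cE (2 * p + 1) s t) (cO (2 * p + 1) s' tb)
  · rw [if_pos hadj]
    rw [adj_iff] at hadj
    have hupp : ((cO (2 * p + 1) s' tb).2 - (cO (2 * p + 1) s' tb).1 =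
        (cE (2 * p + 1) s t).2 - (cE (2 * p + 1) s t).1 + 1) ↔ t = tb := by
      unfold cO cE; simp only; omega
    rcases hadj.2 with h3 | h3
    · rw [if_pos (hupp.mpr h3), ← pow_add, ← pow_add]
      by_cases he : (s' = p ∧ tb = p) ∧ (s = p + 1 ∧ t = p)
      · rw [if_pos he]
        refine (pow_one (-1 : ℤ)).symm.trans ?_
        apply neg_one_pow_congr
        split_ifs at hA hB ⊢ <;> omega
      · rw [if_neg he]
        have hK : K0Z s' tb s t = (-1) ^ 0 := by
          unfold K0Z
          rcases hadj.1 with h4 | h4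
          · rw [if_neg (by omega), if_pos h4, if_pos h3, if_neg (by omega)]; norm_num
          · rw [if_pos h4, if_neg (c := s = s') (by omega), if_pos h3, if_neg (by omega)]; norm_num
        rw [hK]
        apply neg_one_pow_congr
        split_ifs at hA hB ⊢ <;> omega
    · rw [if_neg (c := _ = _ + (1 : ℤ)) (fun h => by have := hupp.mp h; omega), mul_one, ← pow_add, if_neg (by omega)]
      rcases hadj.1 with h4 | h4
      · have hK : K0Z s' tb s t = (-1) ^ 0 := by
          unfold K0Z
          rw [if_neg (by omega), if_pos h4, if_neg (by omega), if_pos h3]; norm_num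
        rw [hK]
        apply neg_one_pow_congr
        split_ifs <;> omega
      · have hK : K0Z s' tb s t = (-1) ^ 1 := by
          unfold K0Z
          rw [if_pos h4, if_neg (c := s = s') (by omega), if_neg (by omega), if_pos h3]; norm_num
        rw [hK]
        apply neg_one_pow_congr
        split_ifs <;> omega
  · rw [if_neg hadj, mul_zero]
    rw [adj_iff] at hadj
    rw [if_neg (by omega)]
    unfold K0Z
    by_cases h3 : s = s' + 1
    · rw [if_pos h3, if_neg (c := s = s') (by omega), if_neg (by omega), if_neg (by omega)]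
      norm_num
    · rw [if_neg h3]
      by_cases h4 : s = s'
      · rw [if_pos h4, if_neg (c := t = tb) (by omega), if_neg (by omega)]
        norm_num
      · rw [if_neg h4]
        norm_num

end Pool.Agent.Helper848.AztecRegion
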