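import Pool.Agent.Helper848.AztecDet

namespace Pool.Agent.Helper848.Compress

open Matrix Finset

theorem adet_mul {m n p : Type*} [Fintype n] [DecidableEq n] [Fintype p]
    [DecidableEq p] (A : Matrix m n ℤ) (B : Matrix n p ℤ) (e1 : n ≃ m) (e2 : p ≃ n) :
    |((A * B).submatrix (e2.trans e1) id).det| =
      |(A.submatrix e1 id).det| * |(B.submatrix e2 id).det| := by
  have h : (A * B).submatrix (e2.trans e1) id =
      ((A.submatrix e1 id).submatrix e2 e2) * (B.submatrix e2 id) := by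
    ext i j
    rw [submatrix_apply, mul_apply, mul_apply, ← e2.sum_comp]
    rfl
  rw [h, det_mul, det_submatrix_equiv_self, abs_mul]

theorem adet_one_of_mul {m n : Type*} [Fintype m] [DecidableEq m] [Fintype n] [DecidableEq n]
    (A : Matrix m n ℤ) (B : Matrix n m ℤ) (e1 : n ≃ m) (h : A * B = 1) :
    |(A.submatrix e1 id).det| = 1 ∧ |(B.submatrix e1.symm id).det| = 1 := by
  have h1 := adet_mul A B e1 e1.symm
  rw [h] at h1
  have h2 : ((1 : Matrix m m ℤ).submatrix (e1.symm.trans e1) id) = 1 := by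
    rw [Equiv.symm_trans_self]
    rfl
  rw [h2, det_one, abs_one] at h1
  have h3 := Int.eq_one_or_neg_one_of_mul_eq_one h1.symm
  have h4 : (0 : ℤ) ≤ |(A.submatrix e1 id).det| := abs_nonneg _
  rcases h3 with h3 | h3
  · refine ⟨h3, ?_⟩
    rw [h3, one_mul] at h1
    exact h1.symm
  · rw [h3] at h4
    omega

variable {R1 R2 C1 C2 J : Type*} [Fintype R1] [DecidableEq R1] [Fintype R2] [DecidableEq R2]
  [Fintype C1] [DecidableEq C1] [Fintype C2] [DecidableEq C2] [Fintype J] [DecidableEq J]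

omit [Fintype R1] [DecidableEq C1] in
theorem exists_right_inv (P : Matrix R1 C1 ℤ) (hP : ∀ f : R1 → ℤ, ∃ x : C1 → ℤ, P *ᵥ x = f)
    (N : Matrix C1 J ℤ) (hN : P * N = 0) (ρ : Matrix J C1 ℤ) (hρ : ρ * N = 1) :
    ∃ X : Matrix C1 R1 ℤ, P * X = 1 ∧ ρ * X = 0 := by
  choose x hx using hP
  let X0 : Matrix C1 R1 ℤ := Matrix.of fun c r => x (Pi.single r 1) c
  have h0 : P * X0 = 1 := by
    ext i j
    have := congrFun (hx (Pi.single j 1)) i
    rw [mulVec, dotProduct] at this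
    rw [mul_apply, one_apply]
    simp only [X0, Matrix.of_apply]
    rw [this, Pi.single_apply]
  refine ⟨X0 - N * (ρ * X0), ?_, ?_⟩
  · rw [Matrix.mul_sub, h0, ← Matrix.mul_assoc, hN, Matrix.zero_mul, sub_zero]
  · rw [Matrix.mul_sub, ← Matrix.mul_assoc ρ N, hρ, Matrix.one_mul, sub_self]

theorem compress (P : Matrix R1 C1 ℤ) (F : Matrix R2 C1 ℤ) (E : Matrix R2 C2 ℤ)
    (hP : ∀ f : R1 → ℤ, ∃ x : C1 → ℤ, P *ᵥ x = f)
    (N : Matrix C1 J ℤ) (hN : P * N = 0) (ρ : Matrix J C1 ℤ) (hρ : ρ * N = 1)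
    (hE : ∀ f : C2 → ℤ, ∃ y : R2 → ℤ, Eᵀ *ᵥ y = f)
    (L : Matrix J R2 ℤ) (hL : L * E = 0) (σ : Matrix R2 J ℤ) (hσ : L * σ = 1)
    (hc1 : Fintype.card C1 = Fintype.card R1 + Fintype.card J)
    (hc2 : Fintype.card R2 = Fintype.card C2 + Fintype.card J)
    (e : (C1 ⊕ C2) ≃ (R1 ⊕ R2)) :
    |((fromBlocks P 0 F E).submatrix e id).det| = |(L * F * N).det| := by
  obtain ⟨X, hX1, hX2⟩ := exists_right_inv P hP N hN ρ hρ
  obtain ⟨Y', hY1', hY2'⟩ := exists_right_inv Eᵀ hE Lᵀ (by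
    rw [← transpose_mul, hL, transpose_zero]) σᵀ (by rw [← transpose_mul, hσ, transpose_one])
  obtain ⟨Y, rfl⟩ : ∃ Y : Matrix C2 R2 ℤ, Y' = Yᵀ := ⟨Y'ᵀ, (transpose_transpose _).symm⟩
  have hY1 : Y * E = 1 := by
    rw [← transpose_mul] at hY1'
    rw [← transpose_transpose (Y * E), hY1', transpose_one]
  have hY2 : Y * σ = 0 := by
    rw [← transpose_mul] at hY2'
    rw [← transpose_transpose (Y * σ), hY2', transpose_zero]
  let e1 : C1 ≃ (R1 ⊕ J) := Fintype.equivOfCardEq (by rw [hc1, Fintype.card_sum])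
  let e2 : R2 ≃ (C2 ⊕ J) := Fintype.equivOfCardEq (by rw [hc2, Fintype.card_sum])
  have hA : (fromRows P ρ) * (fromCols X N) = 1 := by
    rw [fromRows_mul_fromCols, hX1, hN, hX2, hρ, fromBlocks_one]
  have hB : (fromRows Y L) * (fromCols E σ) = 1 := by
    rw [fromRows_mul_fromCols, hY1, hY2, hL, hσ, fromBlocks_one]
  have hA1 := (adet_one_of_mul _ _ e1 hA).2
  have hB1 := (adet_one_of_mul _ _ e2 hB).1
  let A2 : Matrix C1 (R1 ⊕ J) ℤ := fromCols X N
  let B2 : Matrix (C2 ⊕ J) R2 ℤ := fromRows Y L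
  let D1 : Matrix (C1 ⊕ C2) ((R1 ⊕ J) ⊕ C2) ℤ := fromBlocks A2 0 0 1
  let D2 : Matrix (R1 ⊕ (C2 ⊕ J)) (R1 ⊕ R2) ℤ := fromBlocks 1 0 0 B2
  have hD1 : |(D1.submatrix (Equiv.sumCongr e1.symm (Equiv.refl C2)) id).det| = 1 := by
    have : D1.submatrix (Equiv.sumCongr e1.symm (Equiv.refl C2)) id =
        fromBlocks (A2.submatrix e1.symm id) 0 0 1 := by
      ext i j
      rcases i with i | i <;> rcases j with j | j <;> rfl
    rw [this, det_fromBlocks_zero₂₁, det_one, mul_one]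
    exact hA1
  have hD2 : |(D2.submatrix (Equiv.sumCongr (Equiv.refl R1) e2) id).det| = 1 := by
    have : D2.submatrix (Equiv.sumCongr (Equiv.refl R1) e2) id =
        fromBlocks 1 0 0 (B2.submatrix e2 id) := by
      ext i j
      rcases i with i | i <;> rcases j with j | j <;> rfl
    rw [this, det_fromBlocks_zero₂₁, det_one, one_mul]
    exact hB1
  have hmul := adet_mul (D2 * (fromBlocks P 0 F E)) D1 (e.trans (Equiv.sumCongr (Equiv.refl R1) e2))
    (Equiv.sumCongr e1.symm (Equiv.refl C2))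
  have hmul2 := adet_mul D2 (fromBlocks P 0 F E) (Equiv.sumCongr (Equiv.refl R1) e2) e
  rw [hD2, one_mul] at hmul2
  rw [hmul2, hD1, mul_one] at hmul
  rw [← hmul]
  have hT : D2 * (fromBlocks P 0 F E) * D1 = fromBlocks (fromCols 1 0) 0 (B2 * F * A2)
      (fromRows 1 0) := by
    simp only [D1, D2]
    rw [fromBlocks_multiply, fromBlocks_multiply]
    simp only [Matrix.one_mul, Matrix.zero_mul, Matrix.mul_zero, add_zero, zero_add,
      Matrix.mul_one]
    have hPA : P * A2 = fromCols 1 0 := by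
      simp only [A2]
      rw [mul_fromCols, hX1, hN]
    have hBE : B2 * E = fromRows 1 0 := by
      simp only [B2]
      rw [fromRows_mul, hY1, hL]
    rw [hPA, hBE]
  rw [hT]
  let e' : (R1 ⊕ (C2 ⊕ J)) ≃ ((R1 ⊕ J) ⊕ C2) :=
    ((Equiv.sumCongr (Equiv.refl R1) (Equiv.sumComm C2 J))).trans (Equiv.sumAssoc R1 J C2).symm
  rw [AztecDet.abs_det_submatrix _ _ e'.symm]
  have hfin : (fromBlocks (fromCols 1 0) 0 (B2 * F * A2) (fromRows 1 0) :
      Matrix (R1 ⊕ (C2 ⊕ J)) ((R1 ⊕ J) ⊕ C2) ℤ).submatrix e'.symm id =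
      ((fromBlocks 1 0 (B2 * F * X) (fromBlocks 1 (Y * F * N) 0 (L * F * N)) :
      Matrix (R1 ⊕ (C2 ⊕ J)) (R1 ⊕ (C2 ⊕ J)) ℤ)).submatrix e'.symm e'.symm := by
    ext i j
    rw [submatrix_apply, submatrix_apply]
    generalize e'.symm i = i'
    rcases j with (j | j) | j
    · rcases i' with i | i
      · rfl
      · simp only [A2, B2]
        rw [mul_fromCols]
        rfl
    · rcases i' with i | (i | i)
      · rfl
      · simp only [A2, B2]
        rw [fromRows_mul, fromRows_mul_fromCols]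
        rfl
      · simp only [A2, B2]
        rw [fromRows_mul, fromRows_mul_fromCols]
        rfl
    · rcases i' with i | (i | i)
      · rfl
      · rfl
      · rfl
  rw [hfin, det_submatrix_equiv_self, det_fromBlocks_zero₁₂, det_one, one_mul,
    det_fromBlocks_zero₂₁, det_one, one_mul]

end Pool.Agent.Helper848.Compress
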