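import Pool.Agent.Helper848.CornerRegion

namespace Pool.Agent.Helper848.Corner

open Finset Matrix Evol

/-- sign of an integer parity -/
def sg (x : ℤ) : ℤ := if x % 2 = 0 then 1 else -1

theorem sg_mul_self (x : ℤ) : sg x * sg x = 1 := by unfold sg; split_ifs <;> norm_num

theorem sg_succ (x : ℤ) : sg (x + 1) = - sg x := by
  unfold sg; split_ifs <;> omega

theorem sg_pred (x : ℤ) : sg (x - 1) = - sg x := by
  unfold sg; split_ifs <;> omega

/-- basic signed adjacency in the lower triangle -/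
def e0 (b w : ℤ × ℤ) : ℤ :=
  (if w = (b.1 + 1, b.2) then 1 else 0) - (if w = (b.1 - 1, b.2) then 1 else 0) -
    (if w = (b.1, b.2 + 1) then 1 else 0) - (if w = (b.1, b.2 - 1) then 1 else 0)

theorem sum_ite_val (A : Finset (ℤ × ℤ)) (q : ℤ × ℤ) (Z : ℤ × ℤ → ℤ) (h : q ∉ A → Z q = 0) :
    ∑ p ∈ A, (if p = q then 1 else 0) * Z p = Z q := by
  simp only [ite_mul, one_mul, zero_mul]
  rw [sum_ite_eq']
  split_ifs with h1
  · rfl
  · exact (h h1).symm

theorem sum_e0_right (A : Finset (ℤ × ℤ)) (b : ℤ × ℤ) (Z : ℤ × ℤ → ℤ)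
    (h1 : (b.1 + 1, b.2) ∉ A → Z (b.1 + 1, b.2) = 0)
    (h2 : (b.1 - 1, b.2) ∉ A → Z (b.1 - 1, b.2) = 0)
    (h3 : (b.1, b.2 + 1) ∉ A → Z (b.1, b.2 + 1) = 0)
    (h4 : (b.1, b.2 - 1) ∉ A → Z (b.1, b.2 - 1) = 0) :
    ∑ p ∈ A, e0 b p * Z p =
      Z (b.1 + 1, b.2) - Z (b.1 - 1, b.2) - Z (b.1, b.2 + 1) - Z (b.1, b.2 - 1) := by
  unfold e0
  simp only [sub_mul, sum_sub_distrib]
  rw [sum_ite_val A _ Z h1, sum_ite_val A _ Z h2, sum_ite_val A _ Z h3, sum_ite_val A _ Z h4]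

theorem sum_e0_left (A : Finset (ℤ × ℤ)) (w : ℤ × ℤ) (Z : ℤ × ℤ → ℤ)
    (h1 : (w.1 - 1, w.2) ∉ A → Z (w.1 - 1, w.2) = 0)
    (h2 : (w.1 + 1, w.2) ∉ A → Z (w.1 + 1, w.2) = 0)
    (h3 : (w.1, w.2 - 1) ∉ A → Z (w.1, w.2 - 1) = 0)
    (h4 : (w.1, w.2 + 1) ∉ A → Z (w.1, w.2 + 1) = 0) :
    ∑ b ∈ A, e0 b w * Z b =
      Z (w.1 - 1, w.2) - Z (w.1 + 1, w.2) - Z (w.1, w.2 - 1) - Z (w.1, w.2 + 1) := by
  rw [← sum_ite_val A _ Z h1, ← sum_ite_val A _ Z h2, ← sum_ite_val A _ Z h3,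
    ← sum_ite_val A _ Z h4, ← sum_sub_distrib, ← sum_sub_distrib, ← sum_sub_distrib]
  refine sum_congr rfl fun b _ => ?_
  rw [← sub_mul, ← sub_mul, ← sub_mul]
  congr 1
  unfold e0
  have e1 : (w = (b.1 + 1, b.2)) ↔ (b = (w.1 - 1, w.2)) := by
    rw [Prod.ext_iff, Prod.ext_iff]; simp only; omega
  have e2 : (w = (b.1 - 1, b.2)) ↔ (b = (w.1 + 1, w.2)) := by
    rw [Prod.ext_iff, Prod.ext_iff]; simp only; omega
  have e3 : (w = (b.1, b.2 + 1)) ↔ (b = (w.1, w.2 - 1)) := by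
    rw [Prod.ext_iff, Prod.ext_iff]; simp only; omega
  have e4 : (w = (b.1, b.2 - 1)) ↔ (b = (w.1, w.2 + 1)) := by
    rw [Prod.ext_iff, Prod.ext_iff]; simp only; omega
  simp only [e1, e2, e3, e4]

/-- evolution with sources, cut off at column `K` -/
def evS (K : ℤ) (f : ℕ → ℤ → ℤ) : ℕ → ℤ → ℤ
  | 0, _ => 0
  | 1, _ => 0
  | (r + 2), c => if c < K then evS K f r c + evS K f (r + 1) (c + 1) + evS K f (r + 1) (c - 1) +
      f (r + 1) c else 0

theorem exists_sol (n : ℕ) (d : ℤ) (h : ℕ → ℕ → ℤ → ℤ)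
    (h1 : ∀ j c, h j 0 c = 0) (h2 : ∀ j r, h j r (2 * n + 1) = 0)
    (h3 : ∀ j r c, h j (r + 2) c = h j r c + h j (r + 1) (c + 1) + h j (r + 1) (c - 1))
    (h4 : ∀ j, j ≤ n → ∀ i : ℕ, i < j → h j i (i + d) = 0)
    (h5 : ∀ j : ℕ, j ≤ n → 1 ≤ j → h j j (j + d) = 1) (f : ℕ → ℤ → ℤ) (k : ℕ) (hk : k ≤ n) :
    ∃ Z : ℕ → ℤ → ℤ, (∀ c, Z 0 c = 0) ∧ (∀ r, Z r (2 * n + 1) = 0) ∧
      (∀ (r : ℕ) (c : ℤ), c < 2 * n + 1 → Z (r + 2) c = Z r c + Z (r + 1) (c + 1) + Z (r + 1) (c - 1) +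
        f (r + 1) c) ∧ (∀ i : ℕ, 1 ≤ i → i ≤ k → Z i (i + d) = 0) := by
  induction k with
  | zero =>
    refine ⟨evS (2 * n + 1) f, ?_, ?_, ?_, ?_⟩
    · intro c; rw [evS]
    · intro r
      match r with
      | 0 => rw [evS]
      | 1 => rw [evS]
      | (r + 2) => rw [evS, if_neg (lt_irrefl _)]
    · intro r c hc
      rw [evS, if_pos hc]
    · intro i hi hi2
      omega
  | succ k ih =>
    obtain ⟨Z, hZ1, hZ2, hZ3, hZ4⟩ := ih (by omega)
    refine ⟨fun r c => Z r c - Z (k + 1) ((k + 1 : ℕ) + d) * h (k + 1) r c, ?_, ?_, ?_, ?_⟩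
    · intro c
      simp only
      rw [hZ1, h1]; ring
    · intro r
      simp only
      rw [hZ2, h2]; ring
    · intro r c hc
      simp only
      rw [hZ3 r c hc, h3]; ring
    · intro i hi hi2
      simp only
      by_cases hik : i = k + 1
      · subst hik
        rw [h5 _ hk (by omega)]; ring
      · rw [hZ4 i hi (by omega), h4 _ hk i (by omega)]; ring

/-- diagonal gauge -/
def S (p : ℤ × ℤ) : ℤ := if p.2 = p.1 ∧ p.1 % 2 = 1 then -1 else 1

theorem S_mul_self (p : ℤ × ℤ) : S p * S p = 1 := by unfold S; split_ifs <;> norm_num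

theorem S_diag (r : ℤ) : S (r, r) = sg r := by
  unfold S sg
  simp only [true_and]
  split_ifs <;> omega

variable (n m : ℕ)

/-- upper triangle (mirrored) -/
def Pm : Matrix (Bs n 0) (WDs n m) ℤ := Matrix.of fun b p => e0 b p * S p

/-- coupling of the lower triangle with the diagonal -/
def Fm : Matrix (Bs n m) (WDs n m) ℤ := Matrix.of fun b p => if p.1.2 = p.1.1 then e0 b p else 0

/-- lower triangle -/
def Em : Matrix (Bs n m) (Ws n) ℤ := Matrix.of fun b w => e0 b w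

/-- kernel of `Pm` -/
def Nm : Matrix (WDs n m) (Ioc m n) ℤ := Matrix.of fun p j => S p * zt n j p.1.1.toNat p.1.2

/-- left kernel of `Em` -/
def Lm : Matrix (Ioc m n) (Bs n m) ℤ := Matrix.of fun i b => sg b.1.1 * mu n i b.1.1.toNat b.1.2

theorem sum_Z (Z : ℕ → ℤ → ℤ) (hZ1 : ∀ c, Z 0 c = 0) (hZ2 : ∀ r, Z r (2 * n + 1) = 0)
    (hZ4 : ∀ i : ℕ, 1 ≤ i → i ≤ m → Z i i = 0) (b : Bs n 0) :
    ∃ k : ℕ, b.1.1 = k + 1 ∧ b.1.2 < 2 * n + 1 ∧ ∑ p ∈ WDs n m, e0 b p * Z p.1.toNat p.2 =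
      Z (k + 2) b.1.2 - Z k b.1.2 - Z (k + 1) (b.1.2 + 1) - Z (k + 1) (b.1.2 - 1) := by
  have hb := (mem_Bs n 0 b.1).mp b.2
  obtain ⟨k, hk⟩ : ∃ k : ℕ, b.1.1 = k + 1 := ⟨(b.1.1 - 1).toNat, by omega⟩
  refine ⟨k, hk, by omega, ?_⟩
  rw [sum_e0_right (WDs n m) b.1 (fun p => Z p.1.toNat p.2)]
  · simp only
    rw [hk, show ((k : ℤ) + 1 + 1).toNat = k + 2 by omega,
      show ((k : ℤ) + 1 - 1).toNat = k by omega, show ((k : ℤ) + 1).toNat = k + 1 by omega]
  · intro h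
    rw [mem_WDs] at h
    simp only at h ⊢
    have h5 : b.1.2 = ((b.1.1 + 1).toNat : ℤ) := by omega
    rw [h5]
    exact hZ4 _ (by omega) (by omega)
  · intro h
    rw [mem_WDs] at h
    simp only at h ⊢
    have h5 : (b.1.1 - 1).toNat = 0 := by omega
    rw [h5, hZ1]
  · intro h
    rw [mem_WDs] at h
    simp only at h ⊢
    have h5 : b.1.2 + 1 = 2 * n + 1 := by omega
    rw [h5, hZ2]
  · intro h
    rw [mem_WDs] at h
    simp only at h ⊢
    have h5 : b.1.2 - 1 = (b.1.1.toNat : ℤ) := by omega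
    rw [h5]
    exact hZ4 _ (by omega) (by omega)

theorem sum_mu (Z : ℕ → ℤ → ℤ) (hZ1 : ∀ c, Z 0 c = 0) (hZ2 : ∀ r, Z r (2 * n + 1) = 0)
    (hZ4 : ∀ i : ℕ, 1 ≤ i → i ≤ m → Z i (i + 1) = 0) (w : Ws n) :
    ∃ k : ℕ, w.1.1 = k + 1 ∧ w.1.2 < 2 * n + 1 ∧
      ∑ b ∈ Bs n m, e0 b w * (sg b.1 * Z b.1.toNat b.2) =
      sg w.1.1 * (Z (k + 2) w.1.2 - Z k w.1.2 - Z (k + 1) (w.1.2 + 1) -
        Z (k + 1) (w.1.2 - 1)) := by
  have hw := (mem_Ws n w.1).mp w.2
  obtain ⟨k, hk⟩ : ∃ k : ℕ, w.1.1 = k + 1 := ⟨(w.1.1 - 1).toNat, by omega⟩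
  refine ⟨k, hk, by omega, ?_⟩
  rw [sum_e0_left (Bs n m) w.1 (fun p => sg p.1 * Z p.1.toNat p.2)]
  · simp only
    rw [sg_succ, sg_pred, hk, show ((k : ℤ) + 1 + 1).toNat = k + 2 by omega,
      show ((k : ℤ) + 1 - 1).toNat = k by omega, show ((k : ℤ) + 1).toNat = k + 1 by omega]
    ring
  · intro h
    rw [mem_Bs] at h
    simp only at h ⊢
    have h5 : (w.1.1 - 1).toNat = 0 := by omega
    rw [h5, hZ1, mul_zero]
  · intro h
    rw [mem_Bs] at h
    simp only at h ⊢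
    have h5 : w.1.2 = ((w.1.1 + 1).toNat : ℤ) + 1 := by omega
    rw [h5, hZ4 _ (by omega) (by omega), mul_zero]
  · intro h
    rw [mem_Bs] at h
    simp only at h ⊢
    have h5 : w.1.2 - 1 = (w.1.1.toNat : ℤ) + 1 := by omega
    rw [h5, hZ4 _ (by omega) (by omega), mul_zero]
  · intro h
    rw [mem_Bs] at h
    simp only at h ⊢
    have h5 : w.1.2 + 1 = 2 * n + 1 := by omega
    rw [h5, hZ2, mul_zero]

theorem P_surj (hm : m ≤ n) (f : Bs n 0 → ℤ) : ∃ x : WDs n m → ℤ, Pm n m *ᵥ x = f := by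
  obtain ⟨Z, hZ1, hZ2, hZ3, hZ4⟩ := exists_sol n 0 (zt n) (zt_zero n) (fun j r => zt_right n j r)
    (zt_rec n) (fun j hj i hi => by rw [add_zero]; exact zt_diag_zero n j hj i hi)
    (fun j hj hj1 => by rw [add_zero]; exact zt_diag_one n j hj hj1)
    (fun r c => if h : ((r : ℤ), c) ∈ Bs n 0 then f ⟨_, h⟩ else 0) m hm
  refine ⟨fun p => S p * Z p.1.1.toNat p.1.2, ?_⟩
  ext b
  obtain ⟨k, hk1, hk2, hk3⟩ := sum_Z n m Z hZ1 hZ2 (fun i hi him => by
    have := hZ4 i hi him; rwa [add_zero] at this) b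
  rw [mulVec, dotProduct]
  have h1 : ∑ p : WDs n m, Pm n m b p * (S p * Z p.1.1.toNat p.1.2) =
      ∑ p : WDs n m, e0 b p * Z p.1.1.toNat p.1.2 := by
    refine sum_congr rfl fun p _ => ?_
    unfold Pm
    rw [Matrix.of_apply, mul_assoc, ← mul_assoc (S p), S_mul_self, one_mul]
  rw [h1, sum_coe_sort (WDs n m) (fun p => e0 b p * Z p.1.toNat p.2), hk3, hZ3 k _ hk2]
  have hb : ((k + 1 : ℕ) : ℤ) = b.1.1 := by rw [hk1]; push_cast; rfl
  have h2 : (((k + 1 : ℕ) : ℤ), b.1.2) ∈ Bs n 0 := by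
    rw [hb]; exact b.2
  rw [dif_pos h2]
  have h3 : (⟨(((k + 1 : ℕ) : ℤ), b.1.2), h2⟩ : Bs n 0) = b := by
    apply Subtype.ext
    ext
    · exact hb
    · rfl
  rw [h3]
  ring

theorem E_surj (hm : m ≤ n) (f : Ws n → ℤ) : ∃ y : Bs n m → ℤ, (Em n m)ᵀ *ᵥ y = f := by
  obtain ⟨Z, hZ1, hZ2, hZ3, hZ4⟩ := exists_sol n 1 (mu n) (mu_zero n) (fun j r => mu_right n j r)
    (mu_rec n) (fun j hj i hi => mu_diag_zero n j hj i hi)
    (fun j hj hj1 => mu_diag_one n j hj hj1)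
    (fun r c => if h : ((r : ℤ), c) ∈ Ws n then sg r * f ⟨_, h⟩ else 0) m hm
  refine ⟨fun p => sg p.1.1 * Z p.1.1.toNat p.1.2, ?_⟩
  ext w
  obtain ⟨k, hk1, hk2, hk3⟩ := sum_mu n m Z hZ1 hZ2 hZ4 w
  rw [mulVec, dotProduct]
  have h1 : ∑ b : Bs n m, (Em n m)ᵀ w b * (sg b.1.1 * Z b.1.1.toNat b.1.2) =
      ∑ b : Bs n m, e0 b w * (sg b.1.1 * Z b.1.1.toNat b.1.2) := by
    refine sum_congr rfl fun p _ => ?_
    unfold Em
    rw [transpose_apply, Matrix.of_apply]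
  rw [h1, sum_coe_sort (Bs n m) (fun b => e0 b w * (sg b.1 * Z b.1.toNat b.2)), hk3,
    hZ3 k _ hk2]
  have hb : ((k + 1 : ℕ) : ℤ) = w.1.1 := by rw [hk1]; push_cast; rfl
  have h2 : (((k + 1 : ℕ) : ℤ), w.1.2) ∈ Ws n := by
    rw [hb]; exact w.2
  rw [dif_pos h2]
  have h3 : (⟨(((k + 1 : ℕ) : ℤ), w.1.2), h2⟩ : Ws n) = w := by
    apply Subtype.ext
    ext
    · exact hb
    · rfl
  rw [h3, hb]
  have h4 := sg_mul_self w.1.1
  linear_combination f w * h4

theorem P_N : Pm n m * Nm n m = 0 := by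
  ext b j
  have hj := mem_Ioc.mp j.2
  rw [mul_apply, Matrix.zero_apply]
  have h1 : ∑ p : WDs n m, Pm n m b p * Nm n m p j =
      ∑ p : WDs n m, e0 b p * zt n j p.1.1.toNat p.1.2 := by
    refine sum_congr rfl fun p _ => ?_
    unfold Pm Nm
    rw [Matrix.of_apply, Matrix.of_apply, mul_assoc, ← mul_assoc (S p), S_mul_self, one_mul]
  obtain ⟨k, hk1, hk2, hk3⟩ := sum_Z n m (zt n j) (zt_zero n j) (fun r => zt_right n j r)
    (fun i hi him => zt_diag_zero n j (by omega) i (by omega)) b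
  rw [h1, sum_coe_sort (WDs n m) (fun p => e0 b p * zt n j p.1.toNat p.2), hk3, zt_rec]
  ring

theorem L_E : Lm n m * Em n m = 0 := by
  ext j w
  have hj := mem_Ioc.mp j.2
  rw [mul_apply, Matrix.zero_apply]
  have h1 : ∑ b : Bs n m, Lm n m j b * Em n m b w =
      ∑ b : Bs n m, e0 b w * (sg b.1.1 * mu n j b.1.1.toNat b.1.2) := by
    refine sum_congr rfl fun p _ => ?_
    unfold Lm Em
    rw [Matrix.of_apply, Matrix.of_apply, mul_comm]
  obtain ⟨k, hk1, hk2, hk3⟩ := sum_mu n m (mu n j) (mu_zero n j) (fun r => mu_right n j r)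
    (fun i hi him => mu_diag_zero n j (by omega) i (by omega)) w
  rw [h1, sum_coe_sort (Bs n m) (fun b => e0 b w * (sg b.1 * mu n j b.1.toNat b.2)), hk3, mu_rec]
  ring

theorem exists_rho : ∃ ρ : Matrix (Ioc m n) (WDs n m) ℤ, ρ * Nm n m = 1 := by
  let T : Matrix (Ioc m n) (Ioc m n) ℤ := Matrix.of fun i j => zt n j i (i : ℕ)
  let D : Matrix (Ioc m n) (WDs n m) ℤ := Matrix.of fun i p =>
    if p.1 = (((i : ℕ) : ℤ), ((i : ℕ) : ℤ)) then S p else 0
  have hDN : D * Nm n m = T := by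
    ext i j
    have hi := mem_Ioc.mp i.2
    rw [mul_apply]
    have h1 : ∀ p : WDs n m, D i p * Nm n m p j = (fun p : ℤ × ℤ =>
        (if p = (((i : ℕ) : ℤ), ((i : ℕ) : ℤ)) then (1 : ℤ) else 0) *
          zt n j p.1.toNat p.2) p := by
      intro p
      simp only [D, Nm, Matrix.of_apply]
      rw [ite_mul, zero_mul, ite_mul, one_mul, zero_mul, ← mul_assoc, S_mul_self, one_mul]
    rw [Finset.sum_congr rfl fun p _ => h1 p, sum_coe_sort (WDs n m) (fun p : ℤ × ℤ =>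
        (if p = (((i : ℕ) : ℤ), ((i : ℕ) : ℤ)) then (1 : ℤ) else 0) *
          zt n j p.1.toNat p.2), sum_ite_val _ _ (fun p : ℤ × ℤ => zt n j p.1.toNat p.2)]
    · simp only [T, Matrix.of_apply, Int.toNat_natCast]
    · intro h
      exfalso
      apply h
      rw [mem_WDs]
      simp only
      omega
  have hT : T.det = 1 := by
    rw [det_of_isLowerTriangular]
    · apply Finset.prod_eq_one
      intro i _
      have hi := mem_Ioc.mp i.2
      simp only [T, Matrix.of_apply]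
      exact zt_diag_one n i hi.2 (by omega)
    · intro i j hij
      simp only [T, Matrix.of_apply]
      have hj := mem_Ioc.mp j.2
      exact zt_diag_zero n j hj.2 i hij
  refine ⟨T⁻¹ * D, ?_⟩
  rw [Matrix.mul_assoc, hDN, Matrix.nonsing_inv_mul]
  rw [hT]
  exact isUnit_one

theorem exists_sigma : ∃ σ : Matrix (Bs n m) (Ioc m n) ℤ, Lm n m * σ = 1 := by
  refine ⟨Matrix.of fun b j => if b.1 = (1, 2 * ((j : ℕ) : ℤ)) then -1 else 0, ?_⟩
  ext i j
  have hi := mem_Ioc.mp i.2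
  have hj := mem_Ioc.mp j.2
  rw [mul_apply]
  have h1 : ∀ b : Bs n m, Lm n m i b * (Matrix.of fun (b : Bs n m) (j : Ioc m n) =>
      if b.1 = (1, 2 * ((j : ℕ) : ℤ)) then (-1 : ℤ) else 0) b j = (fun b : ℤ × ℤ =>
        (if b = (1, 2 * ((j : ℕ) : ℤ)) then (1 : ℤ) else 0) *
          (-(sg b.1 * mu n i b.1.toNat b.2))) b := by
    intro b
    simp only [Lm, Matrix.of_apply]
    split_ifs <;> ring
  rw [Finset.sum_congr rfl fun p _ => h1 p, sum_coe_sort (Bs n m) (fun b : ℤ × ℤ =>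
        (if b = (1, 2 * ((j : ℕ) : ℤ)) then (1 : ℤ) else 0) *
          (-(sg b.1 * mu n i b.1.toNat b.2))),
    sum_ite_val _ _ (fun b : ℤ × ℤ => (-(sg b.1 * mu n i b.1.toNat b.2)))]
  · simp only
    rw [show (1 : ℤ).toNat = 1 from rfl, mu_one, one_apply]
    have h2 : sg 1 = -1 := by unfold sg; norm_num
    rw [h2]
    unfold u0
    have h3 : (i = j) ↔ (i : ℕ) = (j : ℕ) := Subtype.ext_iff
    simp only [h3]
    split_ifs <;> omega
  · intro h
    exfalso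
    apply h
    rw [mem_Bs]
    simp only
    omega

theorem LFN : Lm n m * Fm n m * Nm n m =
    Matrix.of fun i j : (Ioc m n : Finset ℕ) => - G n i j := by
  ext i j
  have hi := mem_Ioc.mp i.2
  have hj := mem_Ioc.mp j.2
  rw [mul_apply, Matrix.of_apply]
  have hLF : ∀ p : WDs n m, (Lm n m * Fm n m) i p =
      if p.1.2 = p.1.1 then - (sg p.1.1 * zp n i (p.1.1 - 1).toNat) else 0 := by
    intro p
    have hp := (mem_WDs n m p.1).mp p.2
    rw [mul_apply]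
    by_cases hd : p.1.2 = p.1.1
    · rw [if_pos hd]
      have h1 : ∀ b : Bs n m, Lm n m i b * Fm n m b p = (fun b : ℤ × ℤ =>
          e0 b p * (if b.1 < b.2 then (sg b.1 * mu n i b.1.toNat b.2) else 0)) b := by
        intro b
        have hb := (mem_Bs n m b.1).mp b.2
        simp only [Lm, Fm, Matrix.of_apply]
        rw [if_pos hd, if_pos hb.2.1, mul_comm]
      rw [Finset.sum_congr rfl fun p _ => h1 p, sum_coe_sort (Bs n m) (fun b : ℤ × ℤ =>
          e0 b p * (if b.1 < b.2 then (sg b.1 * mu n i b.1.toNat b.2) else 0)),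
        sum_e0_left (Bs n m) p.1 (fun b : ℤ × ℤ =>
          (if b.1 < b.2 then (sg b.1 * mu n i b.1.toNat b.2) else 0))]
      · obtain ⟨k, hk⟩ : ∃ k : ℕ, p.1.1 = k + 1 := ⟨(p.1.1 - 1).toNat, by omega⟩
        simp only
        rw [hd, hk, if_pos (by omega), if_neg (by omega), if_neg (by omega), if_pos (by omega),
          sg_pred, show ((k : ℤ) + 1 - 1).toNat = k by omega,
          show ((k : ℤ) + 1).toNat = k + 1 by omega]
        unfold zp
        rw [show ((k : ℤ) + 1 + 1) = k + 2 by ring]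
        ring
      · intro h
        rw [mem_Bs] at h
        simp only at h ⊢
        rw [if_pos (by omega)]
        by_cases h5 : p.1.1 = 1
        · rw [h5, show ((1 : ℤ) - 1).toNat = 0 from rfl, mu_zero, mul_zero]
        · have h6 : p.1.2 = (((p.1.1 - 1).toNat : ℕ) : ℤ) + 1 := by omega
          rw [h6, mu_diag_zero n i hi.2 _ (by omega), mul_zero]
      · intro h
        simp only
        rw [if_neg (by omega)]
      · intro h
        simp only
        rw [if_neg (by omega)]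
      · intro h
        rw [mem_Bs] at h
        simp only at h ⊢
        rw [if_pos (by omega)]
        have h6 : p.1.2 + 1 = 2 * n + 1 := by omega
        rw [h6, mu_right, mul_zero]
    · rw [if_neg hd]
      apply Finset.sum_eq_zero
      intro b _
      simp only [Fm, Matrix.of_apply]
      rw [if_neg hd, mul_zero]
  have h1 : ∀ p : WDs n m, (Lm n m * Fm n m) i p * Nm n m p j = (fun p : ℤ × ℤ =>
      if p.2 = p.1 then - (zp n i (p.1 - 1).toNat * zt n j p.1.toNat p.2) else 0) p := by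
    intro p
    rw [hLF]
    simp only [Nm, Matrix.of_apply]
    split_ifs with hd
    · have h2 : S p.1 = sg p.1.1 := by
        have h3 : p.1 = (p.1.1, p.1.1) := by
          ext
          · rfl
          · exact hd
        rw [h3, S_diag]
      rw [h2]
      have h4 := sg_mul_self p.1.1
      linear_combination (-(zp n i (p.1.1 - 1).toNat * zt n j p.1.1.toNat p.1.2)) * h4
    · rw [zero_mul]
  rw [Finset.sum_congr rfl fun p _ => h1 p, sum_coe_sort (WDs n m) (fun p : ℤ × ℤ =>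
      if p.2 = p.1 then - (zp n i (p.1 - 1).toNat * zt n j p.1.toNat p.2) else 0)]
  unfold G
  rw [← Finset.sum_neg_distrib]
  have h2 : ∑ k ∈ range (2 * n), - (zp n i k * zt n j (k + 1) (k + 1)) =
      ∑ p ∈ (range (2 * n)).image (fun k : ℕ => ((k : ℤ) + 1, (k : ℤ) + 1)),
      (if p.2 = p.1 then - (zp n i (p.1 - 1).toNat * zt n j p.1.toNat p.2) else 0) := by
    rw [sum_image]
    · refine Finset.sum_congr rfl fun k _ => ?_
      simp only
      rw [if_pos trivial, show ((k : ℤ) + 1 - 1).toNat = k by omega,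
        show ((k : ℤ) + 1).toNat = k + 1 by omega]
    · intro x _ y _ hxy
      simp only [Prod.mk.injEq] at hxy
      omega
  rw [h2]
  have h3 : ∑ p ∈ WDs n m ∩ (range (2 * n)).image (fun k : ℕ => ((k : ℤ) + 1, (k : ℤ) + 1)),
      (if p.2 = p.1 then - (zp n i (p.1 - 1).toNat * zt n j p.1.toNat p.2) else 0) =
      ∑ p ∈ WDs n m,
      (if p.2 = p.1 then - (zp n i (p.1 - 1).toNat * zt n j p.1.toNat p.2) else 0) := by
    apply sum_subset inter_subset_left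
    intro p hp hp2
    rw [if_neg]
    intro hd
    apply hp2
    rw [mem_inter]
    refine ⟨hp, ?_⟩
    rw [mem_image]
    rw [mem_WDs] at hp
    refine ⟨(p.1 - 1).toNat, mem_range.mpr (by omega), ?_⟩
    ext <;> simp only <;> omega
  have h4 : ∑ p ∈ WDs n m ∩ (range (2 * n)).image (fun k : ℕ => ((k : ℤ) + 1, (k : ℤ) + 1)),
      (if p.2 = p.1 then - (zp n i (p.1 - 1).toNat * zt n j p.1.toNat p.2) else 0) =
      ∑ p ∈ (range (2 * n)).image (fun k : ℕ => ((k : ℤ) + 1, (k : ℤ) + 1)),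
      (if p.2 = p.1 then - (zp n i (p.1 - 1).toNat * zt n j p.1.toNat p.2) else 0) := by
    apply sum_subset inter_subset_right
    intro p hp hp2
    rw [mem_inter, not_and] at hp2
    have h5 : p ∉ WDs n m := fun h => hp2 h hp
    rw [mem_image] at hp
    obtain ⟨k, hk, rfl⟩ := hp
    rw [mem_range] at hk
    rw [mem_WDs] at h5
    simp only at h5 ⊢
    rw [if_pos trivial]
    have h6 : (k : ℤ) + 1 ≤ m := by
      by_contra h7
      apply h5
      refine ⟨by omega, le_refl _, by omega, by omega, ?_⟩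
      rintro ⟨_, h8⟩
      exact h7 h8
    have h9 : zp n i ((k : ℤ) + 1 - 1).toNat = 0 := by
      rw [show ((k : ℤ) + 1 - 1).toNat = k by omega]
      unfold zp
      have h10 := mu_diag_zero n i hi.2 k (by omega)
      have h11 := mu_diag_zero n i hi.2 (k + 1) (by omega)
      push_cast at h11
      rw [show ((k : ℤ) + 1 + 1) = k + 2 by ring] at h11
      rw [h10, h11, add_zero]
    rw [h9, zero_mul, neg_zero]
  rw [← h3, h4]

end Pool.Agent.Helper848.Corner
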