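import Pool.Agent.Helper848.Domino

namespace Pool.Agent.Helper848

/-- The region `R_{n,m}`: the `2n × 2n` square of cells `(r, c)`, `1 ≤ r, c ≤ 2n`, with the `m`
horizontal dominoes `{(i, i), (i, i + 1)}`, `i = 1, …, m`, removed. -/
noncomputable def cornerRegion (n m : ℕ) : Finset (ℤ × ℤ) :=
  ((Finset.Icc 1 (2 * (n : ℤ))) ×ˢ (Finset.Icc 1 (2 * (n : ℤ)))) \
    (Finset.Icc 1 (m : ℤ)).biUnion fun i => {(i, i), (i, i + 1)}

end Pool.Agent.Helper848
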