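import Pool.Agent.Helper848.CornerAlg

namespace Pool.Agent.Helper848.Corner

open Finset Matrix Evol

theorem npc {a b : ℕ} (h : a % 2 = b % 2) : (-1 : ℤ) ^ a = (-1) ^ b := by
  rw [neg_one_pow_eq_pow_mod_two a, neg_one_pow_eq_pow_mod_two b, h]

variable (n m : ℕ)

/-- cells of columns -/
def fcell : WDs n m ⊕ Ws n → ℤ × ℤ
  | .inl p => (p.1.2, p.1.1)
  | .inr w => w.1

/-- cells of rows -/
def gcell : Bs n 0 ⊕ Bs n m → ℤ × ℤ
  | .inl b => (b.1.2, b.1.1)
  | .inr b => b.1

/-- row gauge exponent -/
def aexp : Bs n 0 ⊕ Bs n m → ℕ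
  | .inl b => ((b.1.1 + b.1.2 + 1) / 2).toNat + m
  | .inr b => ((b.1.2 - b.1.1 - 1) / 2).toNat

/-- column gauge exponent -/
def bexp : WDs n m ⊕ Ws n → ℕ
  | .inl p => (if p.1.2 = p.1.1 then 0 else ((p.1.1 + p.1.2) / 2).toNat) + m
  | .inr w => ((w.1.2 - w.1.1) / 2).toNat

theorem e0_eq_pos {b w : ℤ × ℤ} (h : w = (b.1 + 1, b.2)) : e0 b w = 1 := by
  unfold e0
  rw [if_pos h, if_neg, if_neg, if_neg]
  · norm_num
  · rw [h, Prod.mk.injEq]; omega
  · rw [h, Prod.mk.injEq]; omega
  · rw [h, Prod.mk.injEq]; omega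

theorem e0_eq_neg {b w : ℤ × ℤ}
    (h : w = (b.1 - 1, b.2) ∨ w = (b.1, b.2 + 1) ∨ w = (b.1, b.2 - 1)) : e0 b w = -1 := by
  unfold e0
  rcases h with h | h | h
  · rw [if_neg, if_pos h, if_neg, if_neg]
    · norm_num
    · rw [h, Prod.mk.injEq]; omega
    · rw [h, Prod.mk.injEq]; omega
    · rw [h, Prod.mk.injEq]; omega
  · rw [if_neg, if_neg, if_pos h, if_neg]
    · norm_num
    · rw [h, Prod.mk.injEq]; omega
    · rw [h, Prod.mk.injEq]; omega
    · rw [h, Prod.mk.injEq]; omega
  · rw [if_neg, if_neg, if_neg, if_pos h]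
    · norm_num
    · rw [h, Prod.mk.injEq]; omega
    · rw [h, Prod.mk.injEq]; omega
    · rw [h, Prod.mk.injEq]; omega

theorem e0_eq_zero {b w : ℤ × ℤ} (h : ¬ Adj w b) : e0 b w = 0 := by
  unfold e0
  unfold Adj at h
  rw [if_neg, if_neg, if_neg, if_neg]
  · norm_num
  all_goals
    intro h1
    rw [Prod.ext_iff] at h1
    simp only at h1
    omega

/-- the four kinds of adjacency -/
theorem adj_cases {b w : ℤ × ℤ} (h : Adj w b) : w = (b.1 + 1, b.2) ∨ w = (b.1 - 1, b.2) ∨
    w = (b.1, b.2 + 1) ∨ w = (b.1, b.2 - 1) := by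
  unfold Adj at h
  rw [Prod.ext_iff, Prod.ext_iff, Prod.ext_iff, Prod.ext_iff]
  simp only
  omega

theorem gauge (x : Bs n 0 ⊕ Bs n m) (y : WDs n m ⊕ Ws n) :
    fromBlocks (Pm n m) 0 (Fm n m) (Em n m) x y =
      (-1) ^ (aexp n m x) * (-1) ^ (bexp n m y) *
        kast (cornerRegion n m) (gcell n m x) (fcell n m y) := by
  rcases x with b | b <;> rcases y with p | w
  · -- upper left
    obtain ⟨⟨b1, b2⟩, hb⟩ := b
    obtain ⟨⟨p1, p2⟩, hp⟩ := p
    have hb' := hb
    have hp' := hp
    rw [mem_Bs] at hb'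
    rw [mem_WDs] at hp'
    simp only at hb' hp'
    rw [fromBlocks_apply₁₁]
    simp only [Pm, Matrix.of_apply, aexp, bexp, gcell, fcell]
    unfold kast
    simp only
    have hadj : Adj (p2, p1) (b2, b1) ↔ Adj (p1, p2) (b1, b2) := by
      unfold Adj; simp only; omega
    by_cases ha : Adj (p1, p2) (b1, b2)
    · rw [if_pos (hadj.mpr ha)]
      have hpR : ((p2, p1) : ℤ × ℤ) ∈ cornerRegion n m := by
        rw [mem_region]; simp only; omega
      have hbR : ((b2, b1) : ℤ × ℤ) ∈ cornerRegion n m := by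
        rw [mem_region]; simp only; omega
      rw [above_region n m _ hpR (by simp only; omega),
        below_region n m _ hbR (by simp only; omega)]
      simp only
      rw [if_neg (c := b1 - b2 = 1) (by omega)]
      rcases adj_cases ha with h | h | h | h
      · rw [e0_eq_pos h]
        rw [Prod.mk.injEq] at h
        simp only at h
        obtain ⟨rfl, rfl⟩ := h
        rw [if_neg (c := b1 - p2 = b1 + 1 - p2 + 1) (by omega), mul_one, ← pow_add, one_mul]
        unfold S
        simp only
        split_ifs with h1 h2 h3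
        · exact (pow_one (-1 : ℤ)).symm.trans (npc (by omega))
        · omega
        · exact (pow_zero (-1 : ℤ)).symm.trans (npc (by omega))
        · exact (pow_zero (-1 : ℤ)).symm.trans (npc (by omega))
      · rw [e0_eq_neg (Or.inl h)]
        rw [Prod.mk.injEq] at h
        simp only at h
        obtain ⟨rfl, rfl⟩ := h
        rw [if_pos (c := b1 - p2 = b1 - 1 - p2 + 1) (by omega), ← pow_add, ← pow_add]
        unfold S
        simp only
        rw [if_neg (by omega), mul_one, if_neg (by omega)]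
        exact (pow_one (-1 : ℤ)).symm.trans (npc (by omega))
      · rw [e0_eq_neg (Or.inr (Or.inl h))]
        rw [Prod.mk.injEq] at h
        simp only at h
        obtain ⟨rfl, rfl⟩ := h
        rw [if_pos (c := p1 - b2 = p1 - (b2 + 1) + 1) (by omega), ← pow_add, ← pow_add]
        unfold S
        simp only
        rw [if_neg (by omega), mul_one, if_neg (by omega)]
        exact (pow_one (-1 : ℤ)).symm.trans (npc (by omega))
      · rw [e0_eq_neg (Or.inr (Or.inr h))]
        rw [Prod.mk.injEq] at h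
        simp only at h
        obtain ⟨rfl, rfl⟩ := h
        rw [if_neg (c := p1 - b2 = p1 - (b2 - 1) + 1) (by omega), mul_one, ← pow_add]
        unfold S
        simp only
        split_ifs with h1 h2 h3
        · rw [show (-1 : ℤ) * -1 = (-1) ^ 0 by norm_num]
          exact npc (by omega)
        · omega
        · rw [mul_one]
          exact (pow_one (-1 : ℤ)).symm.trans (npc (by omega))
        · rw [mul_one]
          exact (pow_one (-1 : ℤ)).symm.trans (npc (by omega))
    · rw [if_neg (fun h => ha (hadj.mp h)), e0_eq_zero ha, zero_mul, mul_zero]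
  · -- upper right
    obtain ⟨⟨b1, b2⟩, hb⟩ := b
    obtain ⟨⟨p1, p2⟩, hp⟩ := w
    have hb' := hb
    have hp' := hp
    rw [mem_Bs] at hb'
    rw [mem_Ws] at hp'
    simp only at hb' hp'
    rw [fromBlocks_apply₁₂]
    simp only [Matrix.zero_apply, gcell, fcell]
    unfold kast
    rw [if_neg, mul_zero]
    unfold Adj
    simp only
    omega
  · -- lower left
    obtain ⟨⟨b1, b2⟩, hb⟩ := b
    obtain ⟨⟨p1, p2⟩, hp⟩ := p
    have hb' := hb
    have hp' := hp
    rw [mem_Bs] at hb'
    rw [mem_WDs] at hp'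
    simp only at hb' hp'
    rw [fromBlocks_apply₂₁]
    simp only [Fm, Matrix.of_apply, aexp, bexp, gcell, fcell]
    unfold kast
    simp only
    by_cases ha : Adj (p2, p1) (b1, b2)
    · rw [if_pos ha]
      have hpR : ((p2, p1) : ℤ × ℤ) ∈ cornerRegion n m := by
        rw [mem_region]; simp only; omega
      have hbR : ((b1, b2) : ℤ × ℤ) ∈ cornerRegion n m := by
        rw [mem_region]; simp only; omega
      rw [above_region n m _ hpR (by simp only; omega),
        below_region n m _ hbR (by simp only; omega)]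
      simp only
      have ha' := ha
      unfold Adj at ha'
      simp only at ha'
      obtain ⟨rfl⟩ : p2 = p1 := by omega
      rw [if_pos rfl, if_pos rfl, if_pos (c := b2 - b1 = p1 - p1 + 1) (by omega),
        if_pos (c := b2 - b1 = 1) (by omega)]
      rcases adj_cases ha with h | h | h | h
      · rw [e0_eq_pos h]
        rw [Prod.mk.injEq] at h
        simp only at h
        rw [← pow_add, ← pow_add]
        exact (pow_zero (-1 : ℤ)).symm.trans (npc (by omega))
      · rw [Prod.mk.injEq] at h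
        simp only at h
        omega
      · rw [Prod.mk.injEq] at h
        simp only at h
        omega
      · rw [e0_eq_neg (Or.inr (Or.inr h))]
        rw [Prod.mk.injEq] at h
        simp only at h
        rw [← pow_add, ← pow_add]
        exact (pow_one (-1 : ℤ)).symm.trans (npc (by omega))
    · rw [if_neg ha, mul_zero]
      split_ifs with h
      · subst h
        exact e0_eq_zero ha
      · rfl
  · -- lower right
    obtain ⟨⟨b1, b2⟩, hb⟩ := b
    obtain ⟨⟨p1, p2⟩, hp⟩ := w
    have hb' := hb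
    have hp' := hp
    rw [mem_Bs] at hb'
    rw [mem_Ws] at hp'
    simp only at hb' hp'
    rw [fromBlocks_apply₂₂]
    simp only [Em, Matrix.of_apply, aexp, bexp, gcell, fcell]
    unfold kast
    simp only
    by_cases ha : Adj (p1, p2) (b1, b2)
    · rw [if_pos ha]
      have hpR : ((p1, p2) : ℤ × ℤ) ∈ cornerRegion n m := by
        rw [mem_region]; simp only; omega
      have hbR : ((b1, b2) : ℤ × ℤ) ∈ cornerRegion n m := by
        rw [mem_region]; simp only; omega
      rw [above_region n m _ hpR (by simp only; omega),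
        below_region n m _ hbR (by simp only; omega)]
      simp only
      rcases adj_cases ha with h | h | h | h
      · rw [e0_eq_pos h]
        rw [Prod.mk.injEq] at h
        simp only at h
        obtain ⟨rfl, rfl⟩ := h
        rw [if_pos (c := p2 - b1 = p2 - (b1 + 1) + 1) (by omega), if_neg (by omega),
          ← pow_add, ← pow_add]
        exact (pow_zero (-1 : ℤ)).symm.trans (npc (by omega))
      · rw [e0_eq_neg (Or.inl h)]
        rw [Prod.mk.injEq] at h
        simp only at h
        obtain ⟨rfl, rfl⟩ := h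
        rw [if_neg (c := p2 - b1 = p2 - (b1 - 1) + 1) (by omega), mul_one, ← pow_add]
        exact (pow_one (-1 : ℤ)).symm.trans (npc (by omega))
      · rw [e0_eq_neg (Or.inr (Or.inl h))]
        rw [Prod.mk.injEq] at h
        simp only at h
        obtain ⟨rfl, rfl⟩ := h
        rw [if_neg (c := b2 - p1 = b2 + 1 - p1 + 1) (by omega), mul_one, ← pow_add]
        exact (pow_one (-1 : ℤ)).symm.trans (npc (by omega))
      · rw [e0_eq_neg (Or.inr (Or.inr h))]
        rw [Prod.mk.injEq] at h
        simp only at h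
        obtain ⟨rfl, rfl⟩ := h
        rw [if_pos (c := b2 - p1 = b2 - 1 - p1 + 1) (by omega), if_neg (by omega),
          ← pow_add, ← pow_add]
        exact (pow_one (-1 : ℤ)).symm.trans (npc (by omega))
    · rw [if_neg ha, e0_eq_zero ha, mul_zero]

theorem fcell_inj : Function.Injective (fcell n m) := by
  rintro (p | p) (q | q) h
  · congr 1
    apply Subtype.ext
    simp only [fcell, Prod.mk.injEq] at h
    ext
    · exact h.2
    · exact h.1
  · exfalso
    have hp := (mem_WDs n m p.1).mp p.2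
    have hq := (mem_Ws n q.1).mp q.2
    simp only [fcell] at h
    rw [← h] at hq
    simp only at hq
    omega
  · exfalso
    have hp := (mem_Ws n p.1).mp p.2
    have hq := (mem_WDs n m q.1).mp q.2
    simp only [fcell] at h
    rw [h] at hp
    simp only at hp
    omega
  · congr 1
    exact Subtype.ext h

theorem gcell_inj : Function.Injective (gcell n m) := by
  rintro (p | p) (q | q) h
  · congr 1
    apply Subtype.ext
    simp only [gcell, Prod.mk.injEq] at h
    ext
    · exact h.2
    · exact h.1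
  · exfalso
    have hp := (mem_Bs n 0 p.1).mp p.2
    have hq := (mem_Bs n m q.1).mp q.2
    simp only [gcell] at h
    rw [← h] at hq
    simp only at hq
    omega
  · exfalso
    have hp := (mem_Bs n m p.1).mp p.2
    have hq := (mem_Bs n 0 q.1).mp q.2
    simp only [gcell] at h
    rw [h] at hp
    simp only at hp
    omega
  · congr 1
    exact Subtype.ext h

theorem fcell_range (p : ℤ × ℤ) : (∃ i, fcell n m i = p) ↔
    p ∈ cornerRegion n m ∧ Even (p.1 + p.2 + 0) := by
  rw [mem_region, Int.even_iff]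
  constructor
  · rintro ⟨i | i, rfl⟩
    · have hi := (mem_WDs n m i.1).mp i.2
      simp only [fcell]
      omega
    · have hi := (mem_Ws n i.1).mp i.2
      simp only [fcell]
      omega
  · rintro ⟨h1, h2⟩
    by_cases h : p.1 < p.2
    · refine ⟨.inr ⟨p, ?_⟩, rfl⟩
      rw [mem_Ws]
      omega
    · refine ⟨.inl ⟨(p.2, p.1), ?_⟩, rfl⟩
      rw [mem_WDs]
      simp only
      omega

theorem gcell_range (p : ℤ × ℤ) : (∃ i, gcell n m i = p) ↔
    p ∈ cornerRegion n m ∧ ¬ Even (p.1 + p.2 + 0) := by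
  rw [mem_region, Int.even_iff]
  constructor
  · rintro ⟨i | i, rfl⟩
    · have hi := (mem_Bs n 0 i.1).mp i.2
      simp only [gcell]
      omega
    · have hi := (mem_Bs n m i.1).mp i.2
      simp only [gcell]
      omega
  · rintro ⟨h1, h2⟩
    by_cases h : p.1 < p.2
    · refine ⟨.inr ⟨p, ?_⟩, rfl⟩
      rw [mem_Bs]
      omega
    · refine ⟨.inl ⟨(p.2, p.1), ?_⟩, rfl⟩
      rw [mem_Bs]
      simp only
      omega

theorem count (e : (WDs n m ⊕ Ws n) ≃ (Bs n 0 ⊕ Bs n m)) :
    numTilings (cornerRegion n m) =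
      ((fromBlocks (Pm n m) 0 (Fm n m) (Em n m)).submatrix e id).det.natAbs := by
  refine numTilings_eq 0 (cornerRegion n m) (fcell n m) (fun i => gcell n m (e i))
    (fcell_inj n m) (fun x y hxy => e.injective (gcell_inj n m hxy)) (fcell_range n m) ?_
    (fun i => (-1) ^ (aexp n m (e i))) (fun j => (-1) ^ (bexp n m j)) _ ?_
  · intro p
    rw [← gcell_range]
    constructor
    · rintro ⟨i, hi⟩
      exact ⟨e i, hi⟩
    · rintro ⟨i, hi⟩
      exact ⟨e.symm i, by rw [e.apply_symm_apply]; exact hi⟩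
  · intro i j
    rw [submatrix_apply, gauge]
    push_cast
    rfl

theorem det_M_odd : ((Matrix.of fun i j : (Ioc m n : Finset ℕ) => M n i j).det : ZMod 2) = 1 := by
  have h : ((Matrix.of fun i j : (Ioc m n : Finset ℕ) => M n i j).map
      (fun x : ℤ => (x : ZMod 2))) = 1 := by
    ext i j
    have hi := mem_Ioc.mp i.2
    have hj := mem_Ioc.mp j.2
    rw [map_apply, Matrix.of_apply, M_cast n i j (by omega) hi.2 (by omega) hj.2, one_apply]
    simp only [Subtype.ext_iff]
  rw [Int.cast_det, h, det_one]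

theorem main_le (hn : 1 ≤ n) (hm : m ≤ n) :
    ∃ k : ℕ, Odd k ∧ numTilings (cornerRegion n m) = 2 ^ (n - m) * k ^ 2 := by
  have c1 := card_Bs n m (by omega)
  have c2 := card_Ws n
  have c3 := card_WDs n m (by omega)
  have e : (WDs n m ⊕ Ws n) ≃ (Bs n 0 ⊕ Bs n m) := Fintype.equivOfCardEq (by
    rw [Fintype.card_sum, Fintype.card_sum, Fintype.card_coe, Fintype.card_coe,
      Fintype.card_coe, Fintype.card_coe]
    omega)
  obtain ⟨ρ, hρ⟩ := exists_rho n m
  obtain ⟨σ, hσ⟩ := exists_sigma n m
  have h1 := Compress.compress (Pm n m) (Fm n m) (Em n m) (P_surj n m hm) (Nm n m) (P_N n m) ρ hρ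
    (E_surj n m hm) (Lm n m) (L_E n m) σ hσ
    (by
      rw [Fintype.card_coe, Fintype.card_coe, Fintype.card_coe, Nat.card_Ioc]
      omega)
    (by
      rw [Fintype.card_coe, Fintype.card_coe, Fintype.card_coe, Nat.card_Ioc]
      omega) e
  have h2 : Lm n m * Fm n m * Nm n m =
      (-2 : ℤ) • (Matrix.of fun i j : (Ioc m n : Finset ℕ) => M n i j) := by
    rw [LFN]
    ext i j
    rw [Matrix.of_apply, Matrix.smul_apply, Matrix.of_apply, G_eq, smul_eq_mul]
    ring
  rw [h2, det_smul, Fintype.card_coe, Nat.card_Ioc] at h1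
  obtain ⟨k, hk⟩ := SqDet.isSquare_int (Matrix.of fun i j : (Ioc m n : Finset ℕ) => M n i j)
    (fun i => wv n i) (by
      intro i j
      have hi := mem_Ioc.mp i.2
      have hj := mem_Ioc.mp j.2
      rw [Matrix.of_apply, Matrix.of_apply]
      exact M_symm n i j (by omega) hi.2 (by omega) hj.2)
  have hodd := det_M_odd n m
  rw [hk] at hodd h1
  refine ⟨k.natAbs, ?_, ?_⟩
  · rw [Int.natAbs_odd]
    by_contra hcon
    rw [Int.not_odd_iff_even] at hcon
    have h3 : ((k : ℤ) : ZMod 2) = 0 := by
      rw [ZMod.intCast_zmod_eq_zero_iff_dvd]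
      exact hcon.two_dvd
    rw [Int.cast_mul, h3] at hodd
    exact absurd hodd (by decide)
  · rw [count n m e]
    zify
    rw [h1, abs_mul, abs_pow, abs_mul, sq]
    norm_num

theorem main_gt (h1 : n < m) (h2 : m ≤ 2 * n - 1) : numTilings (cornerRegion n m) = 0 := by
  have c1 := card_Bs n m (by omega)
  have c2 := card_Ws n
  have c3 := card_WDs n m (by omega)
  have e : (WDs n m ⊕ Ws n) ≃ (Bs n 0 ⊕ Bs n m) := Fintype.equivOfCardEq (by
    rw [Fintype.card_sum, Fintype.card_sum, Fintype.card_coe, Fintype.card_coe,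
      Fintype.card_coe, Fintype.card_coe]
    omega)
  rw [count n m e, Int.natAbs_eq_zero]
  have h3 : ∃ v : Ws n → ℤ, v ≠ 0 ∧ Em n m *ᵥ v = 0 := by
    by_cases h0 : 0 < Fintype.card (Bs n m)
    · obtain ⟨t, ht1, ht2, -⟩ := Int.Matrix.exists_ne_zero_int_vec_norm_le (Em n m) (by
        rw [Fintype.card_coe, Fintype.card_coe]; omega) h0
      exact ⟨t, ht1, ht2⟩
    · have h4 : IsEmpty (Bs n m) := by
        rw [← Fintype.card_eq_zero_iff]; omega
      have h5 : 0 < (Ws n).card := by
        rw [Fintype.card_coe] at h0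
        omega
      obtain ⟨w, hw⟩ := card_pos.mp h5
      refine ⟨fun _ => 1, ?_, Subsingleton.elim _ _⟩
      intro h6
      have := congrFun h6 ⟨w, hw⟩
      simp at this
  obtain ⟨v, hv, hEv⟩ := h3
  rw [← Matrix.exists_mulVec_eq_zero_iff]
  refine ⟨Sum.elim 0 v, ?_, ?_⟩
  · intro h4
    apply hv
    ext w
    exact congrFun h4 (Sum.inr w)
  · have h5 : fromBlocks (Pm n m) 0 (Fm n m) (Em n m) *ᵥ Sum.elim 0 v = 0 := by
      rw [fromBlocks_mulVec]
      simp only [Sum.elim_comp_inl, Sum.elim_comp_inr, mulVec_zero, zero_mulVec, hEv, add_zero]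
      ext (i | i) <;> rfl
    ext i
    have h6 := congrFun h5 (e i)
    exact h6

end Pool.Agent.Helper848.Corner
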