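import Mathlib

namespace Pool.Agent.Helper848.Evol

open Finset

/-- row-by-row evolution from row `1` -/
def ev (u : ℤ → ℤ) : ℕ → ℤ → ℤ
  | 0, _ => 0
  | 1, c => u c
  | (r + 2), c => ev u r c + ev u (r + 1) (c + 1) + ev u (r + 1) (c - 1)

theorem ev_zero (u : ℤ → ℤ) (c : ℤ) : ev u 0 c = 0 := by rw [ev]
theorem ev_one (u : ℤ → ℤ) (c : ℤ) : ev u 1 c = u c := by rw [ev]
theorem ev_rec (u : ℤ → ℤ) (r : ℕ) (c : ℤ) :
    ev u (r + 2) c = ev u r c + ev u (r + 1) (c + 1) + ev u (r + 1) (c - 1) := by rw [ev]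

/-- initial row of `mu` -/
def u0 (n i : ℕ) (c : ℤ) : ℤ := (if c = 2 * i then 1 else 0) - (if c = 4 * n + 2 - 2 * i then 1 else 0)

/-- black solutions -/
def mu (n i : ℕ) : ℕ → ℤ → ℤ := ev (u0 n i)

theorem mu_zero (n i : ℕ) (c : ℤ) : mu n i 0 c = 0 := ev_zero _ _

theorem mu_one (n i : ℕ) (c : ℤ) : mu n i 1 c = u0 n i c := ev_one _ _

theorem mu_rec (n i : ℕ) (r : ℕ) (c : ℤ) :
    mu n i (r + 2) c = mu n i r c + mu n i (r + 1) (c + 1) + mu n i (r + 1) (c - 1) := ev_rec _ _ _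

/-- two step induction on rows -/
theorem row_induction (p : ℕ → Prop) (h0 : p 0) (h1 : p 1) (h2 : ∀ r, p r → p (r + 1) → p (r + 2))
    (r : ℕ) : p r := by
  have h : p r ∧ p (r + 1) := by
    induction r with
    | zero => exact ⟨h0, h1⟩
    | succ r ih => exact ⟨ih.2, h2 r ih.1 ih.2⟩
  exact h.1

theorem mu_anti (n i : ℕ) (r : ℕ) : ∀ c, mu n i r (4 * n + 2 - c) = - mu n i r c := by
  refine row_induction (fun r => ∀ c, mu n i r (4 * n + 2 - c) = - mu n i r c) ?_ ?_ ?_ r
  · intro c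
    rw [mu_zero, mu_zero, neg_zero]
  · intro c
    rw [mu_one, mu_one]
    unfold u0
    split_ifs <;> omega
  · intro r h1 h2 c
    rw [mu_rec, mu_rec, h1, show (4 * (n : ℤ) + 2 - c + 1) = 4 * n + 2 - (c - 1) by ring, h2,
      show (4 * (n : ℤ) + 2 - c - 1) = 4 * n + 2 - (c + 1) by ring, h2]
    ring

theorem mu_right (n i : ℕ) (r : ℕ) : mu n i r (2 * n + 1) = 0 := by
  have h := mu_anti n i r (2 * n + 1)
  rw [show (4 * (n : ℤ) + 2 - (2 * n + 1)) = 2 * n + 1 by ring] at h
  omega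

theorem mu_parity (n i : ℕ) (r : ℕ) : ∀ c : ℤ, (r + c) % 2 = 0 → mu n i r c = 0 := by
  refine row_induction (fun r => ∀ c : ℤ, (r + c) % 2 = 0 → mu n i r c = 0) ?_ ?_ ?_ r
  · intro c _
    rw [mu_zero]
  · intro c hc
    rw [mu_one]
    unfold u0
    push_cast at hc
    split_ifs <;> omega
  · intro r h1 h2 c hc
    push_cast at hc
    rw [mu_rec, h1 c (by omega), h2 (c + 1) (by push_cast; omega),
      h2 (c - 1) (by push_cast; omega)]
    ring

theorem mu_cone (n i : ℕ) (hi : i ≤ n) (r : ℕ) : ∀ c : ℤ, c + r < 2 * i + 1 → mu n i r c = 0 := by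
  refine row_induction (fun r => ∀ c : ℤ, c + r < 2 * i + 1 → mu n i r c = 0) ?_ ?_ ?_ r
  · intro c _
    rw [mu_zero]
  · intro c hc
    rw [mu_one]
    unfold u0
    push_cast at hc
    split_ifs <;> omega
  · intro r h1 h2 c hc
    push_cast at hc
    rw [mu_rec, h1 c (by omega), h2 (c + 1) (by push_cast; omega),
      h2 (c - 1) (by push_cast; omega)]
    ring

theorem mu_lead (n i : ℕ) (hi : i ≤ n) (r : ℕ) : mu n i (r + 1) (2 * i - r) = 1 := by
  induction r with
  | zero =>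
    rw [zero_add, mu_one]
    unfold u0
    rw [if_pos (by push_cast; ring), if_neg (by push_cast; omega)]
    ring
  | succ r ih =>
    rw [mu_rec, mu_cone n i hi r _ (by push_cast; omega),
      show (2 * (i : ℤ) - (r + 1 : ℕ) + 1) = 2 * i - r by push_cast; ring, ih,
      mu_cone n i hi (r + 1) _ (by push_cast; omega)]
    ring

/-- white solutions -/
def zt (n i r : ℕ) (c : ℤ) : ℤ := mu n i r (c + 1) + mu n i r (c - 1)

theorem zt_zero (n i : ℕ) (c : ℤ) : zt n i 0 c = 0 := by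
  unfold zt; rw [mu_zero, mu_zero, add_zero]

theorem zt_rec (n i : ℕ) (r : ℕ) (c : ℤ) :
    zt n i (r + 2) c = zt n i r c + zt n i (r + 1) (c + 1) + zt n i (r + 1) (c - 1) := by
  unfold zt
  rw [mu_rec, mu_rec, show c + 1 - 1 = c by ring, show c - 1 + 1 = c by ring]
  ring

theorem zt_right (n i : ℕ) (r : ℕ) : zt n i r (2 * n + 1) = 0 := by
  unfold zt
  have h := mu_anti n i r (2 * n)
  rw [show (4 * (n : ℤ) + 2 - 2 * n) = 2 * n + 1 + 1 by ring] at h
  rw [h, show (2 * (n : ℤ) + 1 - 1) = 2 * n by ring]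
  ring

theorem zt_parity (n i : ℕ) (r : ℕ) (c : ℤ) (h : (r + c) % 2 = 1) : zt n i r c = 0 := by
  unfold zt
  rw [mu_parity _ _ _ _ (by omega), mu_parity _ _ _ _ (by omega), add_zero]

theorem zt_diag_zero (n i : ℕ) (hi : i ≤ n) (r : ℕ) (hr : r < i) : zt n i r r = 0 := by
  unfold zt
  rw [mu_cone n i hi r _ (by omega), mu_cone n i hi r _ (by omega), add_zero]

theorem zt_diag_one (n i : ℕ) (hi : i ≤ n) (h1 : 1 ≤ i) : zt n i i i = 1 := by
  unfold zt
  obtain ⟨j, rfl⟩ : ∃ j, i = j + 1 := ⟨i - 1, by omega⟩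
  have h := mu_lead n (j + 1) hi j
  rw [show (2 * ((j + 1 : ℕ) : ℤ) - j) = ((j + 1 : ℕ) : ℤ) + 1 by push_cast; ring] at h
  rw [h, mu_cone n (j + 1) hi _ _ (by omega), add_zero]

theorem mu_diag_zero (n i : ℕ) (hi : i ≤ n) (r : ℕ) (hr : r < i) : mu n i r (r + 1) = 0 :=
  mu_cone n i hi r _ (by omega)

theorem mu_diag_one (n i : ℕ) (hi : i ≤ n) (h1 : 1 ≤ i) : mu n i i (i + 1) = 1 := by
  obtain ⟨j, rfl⟩ : ∃ j, i = j + 1 := ⟨i - 1, by omega⟩
  have h := mu_lead n (j + 1) hi j
  rw [show (2 * ((j + 1 : ℕ) : ℤ) - j) = ((j + 1 : ℕ) : ℤ) + 1 by push_cast; ring] at h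
  exact h

/-- `a_{r-1} + a_r` with `r = k + 1` -/
def zp (n i k : ℕ) : ℤ := mu n i k (k + 1) + mu n i (k + 1) (k + 2)

/-- the Gram matrix entry -/
def G (n i j : ℕ) : ℤ := ∑ k ∈ range (2 * n), zp n i k * zt n j (k + 1) (k + 1)

/-- the halved Gram matrix entry -/
def M (n i j : ℕ) : ℤ :=
  ∑ k ∈ range (2 * n), if k % 2 = 1 then zp n i k * zt n j (k + 1) (k + 1) else 0

/-- half of the last value -/
def wv (n i : ℕ) : ℤ := ∑ k ∈ range (2 * n), mu n i k (k + 1)

theorem step_b (n i k : ℕ) : mu n i (k + 2) (k + 1) - mu n i (k + 1) k = zp n i k := by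
  unfold zp
  rw [mu_rec, show ((k : ℤ) + 1 - 1) = k by ring, show ((k : ℤ) + 1 + 1) = k + 2 by ring]
  ring

theorem G_symm (n i j : ℕ) (hi : 1 ≤ i) (hin : i ≤ n) (hj : 1 ≤ j) (hjn : j ≤ n) :
    G n i j + G n j i = 4 * (wv n i * wv n j) := by
  have hb : ∀ i, 1 ≤ i → i ≤ n → mu n i (2 * n + 1) (2 * n) = 2 * wv n i := by
    intro i hi hin
    have h1 : ∀ N : ℕ, mu n i (N + 1) N =
        2 * ∑ k ∈ range N, mu n i k (k + 1) + mu n i N (N + 1) := by
      intro N
      induction N with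
      | zero =>
        rw [range_zero, sum_empty, zero_add, mu_one, mu_zero]
        unfold u0
        rw [if_neg (by push_cast; omega), if_neg (by push_cast; omega)]
        ring
      | succ N ih =>
        have h2 := step_b n i N
        unfold zp at h2
        rw [sum_range_succ]
        push_cast at ih ⊢
        rw [show (N + 1 + 1 : ℕ) = N + 2 from rfl, show ((N : ℤ) + 1 + 1) = N + 2 by ring]
        linarith
    have h3 := h1 (2 * n)
    push_cast at h3
    rw [mu_right, add_zero] at h3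
    exact h3
  have htel : ∀ N : ℕ, ∑ k ∈ range N, (zp n i k * zt n j (k + 1) (k + 1) +
      zp n j k * zt n i (k + 1) (k + 1)) =
      mu n i N (N + 1) * mu n j N (N + 1) + mu n i (N + 1) N * mu n j (N + 1) N := by
    intro N
    induction N with
    | zero =>
      rw [range_zero, sum_empty, mu_zero, zero_add, mu_one]
      unfold u0
      rw [if_neg (by push_cast; omega), if_neg (by push_cast; omega)]
      ring
    | succ N ih =>
      rw [sum_range_succ, ih]
      have h1 := step_b n i N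
      have h2 := step_b n j N
      unfold zt
      unfold zp at *
      push_cast
      rw [show (N + 1 + 1 : ℕ) = N + 2 from rfl, show ((N : ℤ) + 1 + 1) = N + 2 by ring,
        show ((N : ℤ) + 1 - 1) = N by ring]
      have h3 : mu n i (N + 2) (N + 1) = mu n i (N + 1) N +
        (mu n i N (N + 1) + mu n i (N + 1) (N + 2)) := by linarith
      have h4 : mu n j (N + 2) (N + 1) = mu n j (N + 1) N +
        (mu n j N (N + 1) + mu n j (N + 1) (N + 2)) := by linarith
      rw [h3, h4]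
      ring
  unfold G
  rw [← sum_add_distrib, htel]
  push_cast
  rw [mu_right, mu_right, hb i hi hin, hb j hj hjn]
  ring

theorem orth (n i j : ℕ) :
    ∑ k ∈ range (2 * n), (-1) ^ k * (zp n i k * zt n j (k + 1) (k + 1)) = 0 := by
  -- truncated Wronskian
  let V : ℕ → ℤ := fun r => ∑ c ∈ Ico (r + 1) (2 * n + 1),
    (mu n i r c * zt n j (r + 1) c - zt n j r c * mu n i (r + 1) c)
  have htel : ∀ (k a : ℕ), a ≤ 2 * n → ∑ c ∈ Ico (a + 1) (2 * n + 1),
      (mu n i k c * (zt n j k (c + 1) + zt n j k (c - 1)) -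
        zt n j k c * (mu n i k (c + 1) + mu n i k (c - 1))) =
      - (mu n i k a * zt n j k (a + 1) - zt n j k a * mu n i k (a + 1)) := by
    intro k a ha
    have h1 : ∀ b : ℕ, a ≤ b → ∑ c ∈ Ico (a + 1) (b + 1),
      (mu n i k c * (zt n j k (c + 1) + zt n j k (c - 1)) -
        zt n j k c * (mu n i k (c + 1) + mu n i k (c - 1))) =
      (mu n i k b * zt n j k (b + 1) - zt n j k b * mu n i k (b + 1)) -
      (mu n i k a * zt n j k (a + 1) - zt n j k a * mu n i k (a + 1)) := by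
      intro b hb
      induction b, hb using Nat.le_induction with
      | base => rw [Ico_self, sum_empty, sub_self]
      | succ b hb ih =>
        rw [sum_Ico_succ_top (by omega), ih]
        push_cast
        rw [show ((b : ℤ) + 1 - 1) = b by ring]
        ring
    rw [h1 _ ha]
    push_cast
    rw [mu_right, zt_right]
    ring
  have hV : ∀ k, k < 2 * n → V (k + 1) + V k =
      (zp n i k * zt n j (k + 1) (k + 1)) := by
    intro k hk
    have h1 : V (k + 1) = ∑ c ∈ Ico (k + 1 + 1) (2 * n + 1),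
        (mu n i (k + 1) c * zt n j k c - zt n j (k + 1) c * mu n i k c) +
        ∑ c ∈ Ico (k + 1 + 1) (2 * n + 1),
      (mu n i (k + 1) c * (zt n j (k + 1) (c + 1) + zt n j (k + 1) (c - 1)) -
        zt n j (k + 1) c * (mu n i (k + 1) (c + 1) + mu n i (k + 1) (c - 1))) := by
      simp only [V]
      rw [← sum_add_distrib]
      refine sum_congr rfl fun c _ => ?_
      rw [zt_rec, mu_rec]
      ring
    have h2 : V k = (mu n i k (k + 1 : ℕ) * zt n j (k + 1) (k + 1 : ℕ) -
        zt n j k (k + 1 : ℕ) * mu n i (k + 1) (k + 1 : ℕ)) +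
        ∑ c ∈ Ico (k + 1 + 1) (2 * n + 1),
        (mu n i k c * zt n j (k + 1) c - zt n j k c * mu n i (k + 1) c) := by
      simp only [V]
      rw [sum_eq_sum_Ico_succ_bot (by omega)]
    rw [h1, h2, htel (k + 1) (k + 1) (by omega)]
    have h3 : ∑ c ∈ Ico (k + 1 + 1) (2 * n + 1),
        (mu n i (k + 1) c * zt n j k c - zt n j (k + 1) c * mu n i k c) =
        - ∑ c ∈ Ico (k + 1 + 1) (2 * n + 1),
        (mu n i k c * zt n j (k + 1) c - zt n j k c * mu n i (k + 1) c) := by
      rw [← sum_neg_distrib]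
      refine sum_congr rfl fun c _ => ?_
      ring
    rw [h3]
    have h4 : mu n i (k + 1) (k + 1 : ℕ) = 0 := mu_parity _ _ _ _ (by push_cast; omega)
    rw [h4]
    unfold zp
    push_cast
    rw [show ((k : ℤ) + 1 + 1) = k + 2 by ring]
    ring
  have h0 : V 0 = 0 := by
    simp only [V]
    apply sum_eq_zero
    intro c _
    rw [mu_zero, zt_zero]
    ring
  have hend : V (2 * n) = 0 := by
    simp only [V]
    rw [Ico_self, sum_empty]
  have hsum : ∀ N, N ≤ 2 * n → ∑ k ∈ range N, (-1) ^ k * (zp n i k * zt n j (k + 1) (k + 1)) =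
      - (-1) ^ N * V N := by
    intro N hN
    induction N with
    | zero => rw [range_zero, sum_empty, h0, mul_zero]
    | succ N ih =>
      rw [sum_range_succ, ih (by omega), ← hV N (by omega), pow_succ]
      ring
  rw [hsum _ le_rfl, hend, mul_zero]

theorem G_eq (n i j : ℕ) : G n i j = 2 * M n i j := by
  have h := orth n i j
  unfold G M
  rw [mul_sum]
  have h2 : ∑ k ∈ range (2 * n), zp n i k * zt n j (k + 1) (k + 1) =
      ∑ k ∈ range (2 * n), (zp n i k * zt n j (k + 1) (k + 1) -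
        (-1) ^ k * (zp n i k * zt n j (k + 1) (k + 1))) := by
    rw [sum_sub_distrib, h, sub_zero]
  rw [h2]
  refine sum_congr rfl fun k _ => ?_
  by_cases hk : k % 2 = 1
  · rw [if_pos hk, Odd.neg_one_pow (Nat.odd_iff.mpr hk)]
    ring
  · rw [if_neg hk, Even.neg_one_pow (Nat.even_iff.mpr (by omega))]
    ring

theorem M_symm (n i j : ℕ) (hi : 1 ≤ i) (hin : i ≤ n) (hj : 1 ≤ j) (hjn : j ≤ n) :
    M n i j + M n j i = 2 * (wv n i * wv n j) := by
  have h := G_symm n i j hi hin hj hjn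
  rw [G_eq, G_eq] at h
  omega

/-- indicator of a light cone, modulo two -/
def cone (x : ℤ) (r : ℕ) (c : ℤ) : ZMod 2 :=
  if (c - x < r ∧ x - c < r) ∧ (c - x + r) % 2 = 1 then 1 else 0

theorem cone_rec (x : ℤ) (r : ℕ) (c : ℤ) :
    cone x (r + 2) c = cone x r c + cone x (r + 1) (c + 1) + cone x (r + 1) (c - 1) := by
  unfold cone
  push_cast
  split_ifs <;> first | rfl | omega

theorem mu_cast (n i : ℕ) (r : ℕ) : ∀ c : ℤ, ((mu n i r c : ℤ) : ZMod 2) =
    cone (2 * i) r c + cone (4 * n + 2 - 2 * i) r c := by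
  refine row_induction (fun r => ∀ c : ℤ, ((mu n i r c : ℤ) : ZMod 2) =
    cone (2 * i) r c + cone (4 * n + 2 - 2 * i) r c) ?_ ?_ ?_ r
  · intro c
    rw [mu_zero]
    unfold cone
    rw [if_neg (by push_cast; omega), if_neg (by push_cast; omega)]
    rfl
  · intro c
    rw [mu_one]
    unfold u0 cone
    push_cast
    rw [sub_eq_add_neg]
    congr 1
    · split_ifs <;> first | rfl | omega
    · split_ifs <;> first | rfl | omega
  · intro r h1 h2 c
    rw [mu_rec]
    push_cast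
    rw [h1, h2, h2, cone_rec, cone_rec]
    ring

/-- indicator of the two marked positions -/
def mark (n i r : ℕ) : ZMod 2 := (if r = i then 1 else 0) + (if r + i = 2 * n + 1 then 1 else 0)

theorem zp_cast (n i : ℕ) (hi : 1 ≤ i) (hin : i ≤ n) (k : ℕ) :
    ((zp n i k : ℤ) : ZMod 2) = mark n i (k + 1) := by
  unfold zp
  push_cast
  rw [mu_cast, mu_cast]
  unfold cone mark
  push_cast
  split_ifs <;> first | rfl | omega

theorem zt_cast (n i : ℕ) (hi : 1 ≤ i) (hin : i ≤ n) (k : ℕ) :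
    ((zt n i (k + 1) (k + 1) : ℤ) : ZMod 2) = mark n i (k + 1) := by
  unfold zt
  push_cast
  rw [mu_cast, mu_cast]
  unfold cone mark
  push_cast
  split_ifs <;> first | rfl | omega

theorem M_cast (n i j : ℕ) (hi : 1 ≤ i) (hin : i ≤ n) (hj : 1 ≤ j) (hjn : j ≤ n) :
    ((M n i j : ℤ) : ZMod 2) = if i = j then 1 else 0 := by
  unfold M
  push_cast
  have h1 : ∀ k ∈ range (2 * n), (if k % 2 = 1 then ((zp n i k : ℤ) : ZMod 2) *
      ((zt n j (k + 1) (k + 1) : ℤ) : ZMod 2) else 0) =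
      if k = (if i % 2 = 0 then i - 1 else 2 * n - i) then (if i = j then 1 else 0) else 0 := by
    intro k hk
    rw [mem_range] at hk
    rw [zp_cast n i hi hin, zt_cast n j hj hjn]
    unfold mark
    split_ifs <;> first | rfl | omega
  have h2 : ∑ k ∈ range (2 * n), (((if k % 2 = 1 then (zp n i k * zt n j (k + 1) (k + 1)) else 0 :
      ℤ)) : ZMod 2) = ∑ k ∈ range (2 * n), (if k % 2 = 1 then ((zp n i k : ℤ) : ZMod 2) *
      ((zt n j (k + 1) (k + 1) : ℤ) : ZMod 2) else 0) := by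
    refine sum_congr rfl fun k _ => ?_
    split_ifs <;> push_cast <;> rfl
  have h3 : (if i % 2 = 0 then i - 1 else 2 * n - i) ∈ range (2 * n) := by
    rw [mem_range]
    split_ifs <;> omega
  push_cast at h2
  rw [h2, sum_congr rfl h1, sum_ite_eq', if_pos h3]

end Pool.Agent.Helper848.Evol
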