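import Mathlib

namespace Pool.Agent.Helper848.SqDet

open Matrix Finset

theorem det_alt_odd (n : ℕ) (hn : n % 2 = 1) (A : Matrix (Fin n) (Fin n) ℚ)
    (hA : ∀ i j, A i j = -A j i) : A.det = 0 := by
  have h : Aᵀ = -A := by
    ext i j
    rw [transpose_apply, neg_apply, hA]
  have h1 : A.det = (-1) ^ n * A.det := by
    conv_lhs => rw [← det_transpose, h, det_neg, Fintype.card_fin]
  rw [Odd.neg_one_pow (Nat.odd_iff.mpr hn)] at h1
  linarith

theorem det_pivot (n : ℕ) (M : Matrix (Fin (n + 1)) (Fin (n + 1)) ℚ) (h : M 0 0 ≠ 0) :
    M.det = M 0 0 * (Matrix.of fun i j : Fin n =>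
      M i.succ j.succ - M i.succ 0 / M 0 0 * M 0 j.succ).det := by
  have h1 : M.det = (Matrix.of fun i j : Fin (n + 1) =>
      M i j - (if i = 0 then 0 else M i 0 / M 0 0) * M 0 j).det := by
    refine det_eq_of_forall_row_eq_smul_add_const (fun i => if i = 0 then 0 else M i 0 / M 0 0) 0
      (by simp) ?_
    intro i j
    simp only [Matrix.of_apply, if_true, zero_mul, sub_zero]
    ring
  rw [h1, det_succ_column_zero]
  rw [Finset.sum_eq_single 0]
  · simp only [Fin.val_zero, pow_zero, one_mul, Matrix.of_apply, if_true, zero_mul, sub_zero]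
    congr 2
  · intro i _ hi
    simp only [Matrix.of_apply, if_neg hi]
    rw [div_mul_cancel₀ _ h, sub_self]
    ring
  · intro h0
    exact absurd (Finset.mem_univ _) h0

theorem isSquare_rat (n : ℕ) : ∀ (A : Matrix (Fin n) (Fin n) ℚ) (w : Fin n → ℚ),
    (∀ i j, A i j = -A j i) → IsSquare (Matrix.of fun i j => A i j + w i * w j).det := by
  induction n with
  | zero =>
    intro A w _
    rw [det_fin_zero]
    exact ⟨1, by norm_num⟩
  | succ n ih =>
    have key : ∀ (A : Matrix (Fin (n + 1)) (Fin (n + 1)) ℚ) (w : Fin (n + 1) → ℚ),
        (∀ i j, A i j = -A j i) → w 0 ≠ 0 →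
        IsSquare (Matrix.of fun i j => A i j + w i * w j).det := by
      intro A w hA hw
      have h00 : A 0 0 = 0 := by have := hA 0 0; linarith
      have h0 : (Matrix.of fun i j => A i j + w i * w j) 0 0 = w 0 * w 0 := by
        rw [Matrix.of_apply, h00, zero_add]
      rw [det_pivot n _ (by rw [h0]; exact mul_ne_zero hw hw), h0]
      have h1 := ih (Matrix.of fun i j : Fin n => A i.succ j.succ +
        (A 0 i.succ * w j.succ - w i.succ * A 0 j.succ) / w 0) (fun i => A 0 i.succ / w 0)
        (by
          intro i j
          simp only [Matrix.of_apply]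
          rw [hA i.succ j.succ]
          ring)
      have h2 : (Matrix.of fun i j : Fin n =>
          (Matrix.of fun i j => A i j + w i * w j) i.succ j.succ -
          (Matrix.of fun i j => A i j + w i * w j) i.succ 0 / (w 0 * w 0) *
          (Matrix.of fun i j => A i j + w i * w j) 0 j.succ) =
          (Matrix.of fun i j : Fin n => (Matrix.of fun i j : Fin n => A i.succ j.succ +
        (A 0 i.succ * w j.succ - w i.succ * A 0 j.succ) / w 0) i j +
        (A 0 i.succ / w 0) * (A 0 j.succ / w 0)) := by
        ext i j
        simp only [Matrix.of_apply]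
        rw [hA i.succ 0]
        field_simp
        ring
      rw [h2]
      exact IsSquare.mul ⟨w 0, rfl⟩ h1
    intro A w hA
    by_cases hw : w = 0
    · subst hw
      simp only [Pi.zero_apply, mul_zero, add_zero]
      have hAA : (Matrix.of fun i j => A i j) = A := rfl
      rw [hAA]
      by_cases hn : (n + 1) % 2 = 1
      · rw [det_alt_odd _ hn A hA]
        exact ⟨0, by norm_num⟩
      · have hn' : n % 2 = 1 := by omega
        have h1 := key A (fun i => if i = 0 then 1 else 0) hA (by simp)
        have h2 : (Matrix.of fun i j => A i j + (if i = 0 then (1 : ℚ) else 0) *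
            (if j = 0 then 1 else 0)) = A.updateRow 0 (A 0 + Pi.single 0 1) := by
          ext i j
          rw [Matrix.of_apply, updateRow_apply]
          by_cases hi : i = 0
          · subst hi
            rw [if_pos rfl, if_pos rfl, Pi.add_apply, Pi.single_apply, one_mul]
          · rw [if_neg hi, if_neg hi, zero_mul, add_zero]
        rw [h2, det_updateRow_add, updateRow_eq_self] at h1
        have h3 : (A.updateRow 0 (Pi.single 0 1)).det = 0 := by
          rw [det_succ_row_zero, Finset.sum_eq_single 0]
          · have h4 : ((A.updateRow 0 (Pi.single 0 1)).submatrix Fin.succ (Fin.succAbove 0)).det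
                = 0 := by
              apply det_alt_odd n hn'
              intro i j
              rw [submatrix_apply, submatrix_apply, updateRow_apply, updateRow_apply,
                if_neg (Fin.succ_ne_zero _), if_neg (Fin.succ_ne_zero _), Fin.succAbove_zero]
              exact hA _ _
            rw [h4, mul_zero]
          · intro j _ hj
            rw [updateRow_self, Pi.single_apply, if_neg hj]
            ring
          · intro h0
            exact absurd (Finset.mem_univ _) h0
        rw [h3, add_zero] at h1
        exact h1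
    · obtain ⟨i, hi⟩ := Function.ne_iff.mp hw
      let e := Equiv.swap (0 : Fin (n + 1)) i
      have h1 := key (A.submatrix e e) (w ∘ e) (by
        intro a b
        rw [submatrix_apply, submatrix_apply]
        exact hA _ _) (by
        simp only [Function.comp_apply, e, Equiv.swap_apply_left]
        exact hi)
      have h2 : (Matrix.of fun a b => A.submatrix e e a b + (w ∘ e) a * (w ∘ e) b) =
          (Matrix.of fun a b => A a b + w a * w b).submatrix e e := by
        ext a b
        simp only [Matrix.of_apply, submatrix_apply, Function.comp_apply]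
      rw [h2, det_submatrix_equiv_self] at h1
      exact h1

theorem isSquare_int {ι : Type*} [Fintype ι] [DecidableEq ι] (M : Matrix ι ι ℤ) (w : ι → ℤ)
    (h : ∀ i j, M i j + M j i = 2 * (w i * w j)) : IsSquare M.det := by
  let e := (Fintype.equivFin ι).symm
  have h1 := isSquare_rat (Fintype.card ι)
    (Matrix.of fun i j => ((M (e i) (e j) : ℤ) : ℚ) - w (e i) * w (e j))
    (fun i => (w (e i) : ℚ)) (by
      intro i j
      simp only [Matrix.of_apply]
      have h2 := h (e i) (e j)
      have h3 : ((M (e i) (e j) : ℤ) : ℚ) + (M (e j) (e i) : ℤ) = 2 * (w (e i) * w (e j)) := by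
        exact_mod_cast h2
      linarith)
  have h2 : (Matrix.of fun i j => (Matrix.of fun i j => ((M (e i) (e j) : ℤ) : ℚ) -
      w (e i) * w (e j)) i j + (w (e i) : ℚ) * (w (e j) : ℚ)) =
      (M.map (fun x : ℤ => (x : ℚ))).submatrix e e := by
    ext i j
    simp only [Matrix.of_apply, submatrix_apply, map_apply]
    ring
  rw [h2, det_submatrix_equiv_self] at h1
  have h3 : (M.map (fun x : ℤ => (x : ℚ))).det = ((M.det : ℤ) : ℚ) := by
    rw [Int.cast_det]
  rw [h3] at h1
  exact Rat.isSquare_intCast_iff.mp h1

end Pool.Agent.Helper848.SqDet
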