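import Pool.Agent.Helper848.CornerDefs
import Pool.Agent.Helper848.Kast
import Pool.Agent.Helper848.Compress
import Pool.Agent.Helper848.Evol
import Pool.Agent.Helper848.SqDet

namespace Pool.Agent.Helper848.Corner

open Finset Matrix Evol

theorem mem_region (n m : ℕ) (p : ℤ × ℤ) : p ∈ cornerRegion n m ↔
    (1 ≤ p.1 ∧ p.1 ≤ 2 * n) ∧ (1 ≤ p.2 ∧ p.2 ≤ 2 * n) ∧
      ¬ (p.1 ≤ m ∧ (p.2 = p.1 ∨ p.2 = p.1 + 1)) := by
  unfold cornerRegion
  rw [mem_sdiff, mem_product, mem_Icc, mem_Icc, mem_biUnion, and_assoc]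
  refine and_congr_right fun h1 => and_congr_right fun h2 => not_congr ?_
  constructor
  · rintro ⟨i, hi, hp⟩
    rw [mem_Icc] at hi
    rw [mem_insert, mem_singleton] at hp
    rcases hp with rfl | rfl
    · exact ⟨hi.2, Or.inl rfl⟩
    · exact ⟨hi.2, Or.inr rfl⟩
  · rintro ⟨h3, h4⟩
    refine ⟨p.1, mem_Icc.mpr ⟨h1.1, h3⟩, ?_⟩
    rw [mem_insert, mem_singleton]
    rcases h4 with h4 | h4
    · left; ext <;> simp only; exact h4
    · right; ext <;> simp only; exact h4

theorem above_region (n m : ℕ) (w : ℤ × ℤ) (hw : w ∈ cornerRegion n m) (he : (w.1 + w.2) % 2 = 0) :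
    above (cornerRegion n m) w = (2 * n - max w.1 w.2).toNat := by
  unfold above
  rw [mem_region] at hw
  have h : ((cornerRegion n m).filter fun q => q.2 - q.1 = w.2 - w.1 ∧ w.1 < q.1) =
      (range (2 * n - max w.1 w.2).toNat).image fun k : ℕ => (w.1 + 1 + k, w.2 + 1 + k) := by
    ext q
    rw [mem_filter, mem_region, mem_image]
    simp only [mem_range]
    constructor
    · rintro ⟨h1, h2, h3⟩
      refine ⟨(q.1 - w.1 - 1).toNat, ?_, ?_⟩
      · omega
      · ext
        · simp only; omega
        · simp only; omega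
    · rintro ⟨k, hk, rfl⟩
      simp only
      omega
  rw [h, card_image_of_injective, card_range]
  intro a b hab
  rw [Prod.mk.injEq] at hab
  omega

theorem below_region (n m : ℕ) (b : ℤ × ℤ) (hb : b ∈ cornerRegion n m) (he : (b.1 + b.2) % 2 = 1) :
    below (cornerRegion n m) b =
      (min b.1 b.2 - 1 - if b.2 - b.1 = 1 then (m : ℤ) else 0).toNat := by
  unfold below
  rw [mem_region] at hb
  by_cases hv : b.2 - b.1 = 1
  · rw [if_pos hv]
    have h : ((cornerRegion n m).filter fun q => q.2 - q.1 = b.2 - b.1 ∧ q.1 < b.1) =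
        (range (min b.1 b.2 - 1 - m).toNat).image fun k : ℕ => (b.1 - 1 - k, b.2 - 1 - k) := by
      ext q
      rw [mem_filter, mem_region, mem_image]
      simp only [mem_range]
      constructor
      · rintro ⟨h1, h2, h3⟩
        refine ⟨(b.1 - 1 - q.1).toNat, ?_, ?_⟩
        · omega
        · ext
          · simp only; omega
          · simp only; omega
      · rintro ⟨k, hk, rfl⟩
        simp only
        omega
    rw [h, card_image_of_injective, card_range]
    intro x y hxy
    rw [Prod.mk.injEq] at hxy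
    omega
  · rw [if_neg hv]
    have h : ((cornerRegion n m).filter fun q => q.2 - q.1 = b.2 - b.1 ∧ q.1 < b.1) =
        (range (min b.1 b.2 - 1 - 0).toNat).image fun k : ℕ => (b.1 - 1 - k, b.2 - 1 - k) := by
      ext q
      rw [mem_filter, mem_region, mem_image]
      simp only [mem_range]
      constructor
      · rintro ⟨h1, h2, h3⟩
        refine ⟨(b.1 - 1 - q.1).toNat, ?_, ?_⟩
        · omega
        · ext
          · simp only; omega
          · simp only; omega
      · rintro ⟨k, hk, rfl⟩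
        simp only
        omega
    rw [h, card_image_of_injective, card_range]
    intro x y hxy
    rw [Prod.mk.injEq] at hxy
    omega

/-- black cells strictly to the right of the diagonal, the first `m` next to the diagonal
removed -/
noncomputable def Bs (n m : ℕ) : Finset (ℤ × ℤ) :=
  ((Icc 1 (2 * (n : ℤ))) ×ˢ (Icc 1 (2 * (n : ℤ)))).filter fun p =>
    p.1 < p.2 ∧ (p.1 + p.2) % 2 = 1 ∧ ¬ (p.2 = p.1 + 1 ∧ p.1 ≤ m)

/-- white cells strictly to the right of the diagonal -/
noncomputable def Ws (n : ℕ) : Finset (ℤ × ℤ) :=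
  ((Icc 1 (2 * (n : ℤ))) ×ˢ (Icc 1 (2 * (n : ℤ)))).filter fun p =>
    p.1 < p.2 ∧ (p.1 + p.2) % 2 = 0

/-- white cells weakly to the right of the diagonal, the first `m` on the diagonal removed -/
noncomputable def WDs (n m : ℕ) : Finset (ℤ × ℤ) :=
  ((Icc 1 (2 * (n : ℤ))) ×ˢ (Icc 1 (2 * (n : ℤ)))).filter fun p =>
    p.1 ≤ p.2 ∧ (p.1 + p.2) % 2 = 0 ∧ ¬ (p.2 = p.1 ∧ p.1 ≤ m)

theorem mem_Bs (n m : ℕ) (p : ℤ × ℤ) : p ∈ Bs n m ↔ 1 ≤ p.1 ∧ p.1 < p.2 ∧ p.2 ≤ 2 * n ∧
    (p.1 + p.2) % 2 = 1 ∧ ¬ (p.2 = p.1 + 1 ∧ p.1 ≤ m) := by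
  unfold Bs
  rw [mem_filter, mem_product, mem_Icc, mem_Icc]
  omega

theorem mem_Ws (n : ℕ) (p : ℤ × ℤ) : p ∈ Ws n ↔ 1 ≤ p.1 ∧ p.1 < p.2 ∧ p.2 ≤ 2 * n ∧
    (p.1 + p.2) % 2 = 0 := by
  unfold Ws
  rw [mem_filter, mem_product, mem_Icc, mem_Icc]
  omega

theorem mem_WDs (n m : ℕ) (p : ℤ × ℤ) : p ∈ WDs n m ↔ 1 ≤ p.1 ∧ p.1 ≤ p.2 ∧ p.2 ≤ 2 * n ∧
    (p.1 + p.2) % 2 = 0 ∧ ¬ (p.2 = p.1 ∧ p.1 ≤ m) := by
  unfold WDs
  rw [mem_filter, mem_product, mem_Icc, mem_Icc]
  omega

theorem card_Bs (n m : ℕ) (hm : m < 2 * n) : (Bs n m).card + m = (Bs n 0).card := by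
  have h : Bs n 0 = Bs n m ∪ (range m).image fun k : ℕ => ((k : ℤ) + 1, (k : ℤ) + 2) := by
    ext p
    rw [mem_union, mem_Bs, mem_Bs, mem_image]
    simp only [mem_range]
    constructor
    · intro h1
      by_cases h2 : p.2 = p.1 + 1 ∧ p.1 ≤ m
      · right
        refine ⟨(p.1 - 1).toNat, by omega, ?_⟩
        ext <;> simp only <;> omega
      · left
        omega
    · rintro (h1 | ⟨k, hk, rfl⟩)
      · omega
      · simp only
        omega
  rw [h, card_union_of_disjoint, card_image_of_injective, card_range]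
  · intro x y hxy
    rw [Prod.mk.injEq] at hxy
    omega
  · rw [disjoint_left]
    intro p hp hp2
    rw [mem_Bs] at hp
    rw [mem_image] at hp2
    obtain ⟨k, hk, rfl⟩ := hp2
    rw [mem_range] at hk
    simp only at hp
    omega

theorem card_Ws (n : ℕ) : (Ws n).card + n = (Bs n 0).card := by
  have h : Bs n 0 = (Ws n).image (fun p => (p.1 + 1, p.2)) ∪
      (range n).image fun k : ℕ => ((1 : ℤ), 2 * (k : ℤ) + 2) := by
    ext p
    rw [mem_union, mem_Bs, mem_image, mem_image]
    simp only [mem_range]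
    constructor
    · intro h1
      by_cases h2 : p.1 = 1
      · right
        refine ⟨((p.2 - 2) / 2).toNat, by omega, ?_⟩
        ext <;> simp only <;> omega
      · left
        refine ⟨(p.1 - 1, p.2), ?_, ?_⟩
        · rw [mem_Ws]
          simp only
          omega
        · ext <;> simp only; omega
    · rintro (⟨q, hq, rfl⟩ | ⟨k, hk, rfl⟩)
      · rw [mem_Ws] at hq
        simp only
        omega
      · simp only
        omega
  rw [h, card_union_of_disjoint, card_image_of_injective, card_image_of_injective, card_range]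
  · intro x y hxy
    rw [Prod.mk.injEq] at hxy
    omega
  · intro x y hxy
    simp only [Prod.mk.injEq] at hxy
    ext <;> omega
  · rw [disjoint_left]
    intro p hp hp2
    rw [mem_image] at hp hp2
    obtain ⟨q, hq, rfl⟩ := hp
    obtain ⟨k, hk, hkk⟩ := hp2
    rw [mem_Ws] at hq
    rw [Prod.mk.injEq] at hkk
    omega

theorem card_WDs (n m : ℕ) (hm : m ≤ 2 * n) : (WDs n m).card + m = (Bs n 0).card + n := by
  have h1 : (WDs n 0).card = (WDs n m).card + m := by
    have h : WDs n 0 = WDs n m ∪ (range m).image fun k : ℕ => ((k : ℤ) + 1, (k : ℤ) + 1) := by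
      ext p
      rw [mem_union, mem_WDs, mem_WDs, mem_image]
      simp only [mem_range]
      constructor
      · intro h1
        by_cases h2 : p.2 = p.1 ∧ p.1 ≤ m
        · right
          refine ⟨(p.1 - 1).toNat, by omega, ?_⟩
          ext <;> simp only <;> omega
        · left
          omega
      · rintro (h1 | ⟨k, hk, rfl⟩)
        · omega
        · simp only
          omega
    rw [h, card_union_of_disjoint, card_image_of_injective, card_range]
    · intro x y hxy
      rw [Prod.mk.injEq] at hxy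
      omega
    · rw [disjoint_left]
      intro p hp hp2
      rw [mem_WDs] at hp
      rw [mem_image] at hp2
      obtain ⟨k, hk, rfl⟩ := hp2
      rw [mem_range] at hk
      exact hp.2.2.2.2 ⟨rfl, by simp only; omega⟩
  have h2 : (WDs n 0).card = (Bs n 0).card + n := by
    have h : WDs n 0 = (Bs n 0).image (fun p => (p.1 + 1, p.2)) ∪
        (range n).image fun k : ℕ => ((1 : ℤ), 2 * (k : ℤ) + 1) := by
      ext p
      rw [mem_union, mem_WDs, mem_image, mem_image]
      simp only [mem_range]
      constructor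
      · intro h1
        by_cases h2 : p.1 = 1
        · right
          refine ⟨((p.2 - 1) / 2).toNat, by omega, ?_⟩
          ext <;> simp only <;> omega
        · left
          refine ⟨(p.1 - 1, p.2), ?_, ?_⟩
          · rw [mem_Bs]
            simp only
            omega
          · ext <;> simp only; omega
      · rintro (⟨q, hq, rfl⟩ | ⟨k, hk, rfl⟩)
        · rw [mem_Bs] at hq
          simp only
          omega
        · simp only
          omega
    rw [h, card_union_of_disjoint, card_image_of_injective, card_image_of_injective, card_range]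
    · intro x y hxy
      rw [Prod.mk.injEq] at hxy
      omega
    · intro x y hxy
      simp only [Prod.mk.injEq] at hxy
      ext <;> omega
    · rw [disjoint_left]
      intro p hp hp2
      rw [mem_image] at hp hp2
      obtain ⟨q, hq, rfl⟩ := hp
      obtain ⟨k, hk, hkk⟩ := hp2
      rw [mem_Bs] at hq
      rw [Prod.mk.injEq] at hkk
      omega
  omega

end Pool.Agent.Helper848.Corner
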