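import Mathlib

namespace Pool.Agent.Helper848

/-- Two unit cells of the square lattice, given by integer coordinates, share an edge. -/
def Adj (p q : ℤ × ℤ) : Prop :=
  (p.1 = q.1 ∧ (p.2 = q.2 + 1 ∨ q.2 = p.2 + 1)) ∨
    (p.2 = q.2 ∧ (p.1 = q.1 + 1 ∨ q.1 = p.1 + 1))

/-- `T` is a domino tiling of the finite region `R`: a set of dominoes (pairs of edge-adjacent
cells) contained in `R` such that every cell of `R` lies in exactly one of them. -/
def IsTiling (R : Finset (ℤ × ℤ)) (T : Finset (Finset (ℤ × ℤ))) : Prop :=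
  (∀ D ∈ T, D ⊆ R ∧ ∃ p q, Adj p q ∧ D = {p, q}) ∧ ∀ c ∈ R, ∃! D, D ∈ T ∧ c ∈ D

/-- The number of domino tilings of the finite region `R`. -/
noncomputable def numTilings (R : Finset (ℤ × ℤ)) : ℕ :=
  Set.ncard {T : Finset (Finset (ℤ × ℤ)) | IsTiling R T}

end Pool.Agent.Helper848
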