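import Pool.Agent.Helper848.Domino

namespace Pool.Agent.Helper848

/-- The Aztec diamond of order `n`. The cell `(i, j)` is the unit square with centre
`(i + 1/2, j + 1/2)`, so the condition says `|x| + |y| ≤ n` for the centre `(x, y)`. -/
noncomputable def aztec (n : ℕ) : Finset (ℤ × ℤ) :=
  ((Finset.Icc (-(n : ℤ)) n) ×ˢ (Finset.Icc (-(n : ℤ)) n)).filter fun p =>
    (2 * p.1 + 1).natAbs + (2 * p.2 + 1).natAbs ≤ 2 * n

/-- The Aztec diamond of order `n` with the two squares centred at `(-1/2, -1/2)` and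
`(1/2, 3/2)` removed. -/
noncomputable def knightRegion (n : ℕ) : Finset (ℤ × ℤ) := aztec n \ {(-1, -1), (0, 1)}

end Pool.Agent.Helper848
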