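import Pool.Agent.Helper848.AztecRegion

namespace Pool.Agent.Helper848.KnightFinal

open Finset AztecDet AztecRegion AztecCoeff AztecEntries

theorem cast_K0Z (n : ℕ) (o : O n) (x : E n) :
    ((K0Z o.1 o.2 x.1 x.2 : ℤ) : ℚ) = K0 n o x := by
  unfold K0Z K0
  rw [Matrix.of_apply]
  push_cast
  rfl

theorem count_eq (n : ℕ) (e2 ee : E n) (o1 oe : O n)
    (hholes : ∀ q : ℤ × ℤ, (q = (-1, -1) ∨ q = (0, 1)) ↔
      (q = cE n e2.1 e2.2 ∨ q = cO n o1.1 o1.2))
    (a : O n → ℕ) (b : E n → ℕ)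
    (hgauge : ∀ (o : O n) (x : E n), o ≠ o1 → x ≠ e2 →
      (if o = oe ∧ x = ee then -1 else K0Z o.1 o.2 x.1 x.2) =
        (-1) ^ (a o) * (-1) ^ (b x) * kast (knightRegion n) (cO n o.1 o.2) (cE n x.1 x.2))
    (φ : {x : E n // x ≠ e2} ≃ {o : O n // o ≠ o1}) :
    (numTilings (knightRegion n) : ℚ) =
      |(Matrix.of fun i j : {x : E n // x ≠ e2} =>
        if (φ i : O n) = oe ∧ (j : E n) = ee then (-1 : ℚ) else K0 n (φ i) j).det| := by
  classical
  have hmem : ∀ q, q ∈ knightRegion n ↔ q ∈ aztec n ∧ q ≠ cE n e2.1 e2.2 ∧ q ≠ cO n o1.1 o1.2 := by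
    intro q
    unfold knightRegion
    rw [mem_sdiff, mem_insert, mem_singleton, hholes, not_or]
  have hpar : ∀ (x : E n) (o : O n), cE n x.1 x.2 ≠ cO n o.1 o.2 := by
    intro x o h
    have h1 := even_cE n x.1 x.2
    have h2 := odd_cO n o.1 o.2
    rw [h] at h1
    exact h2 h1
  have h := numTilings_eq ((n : ℤ) + 1) (knightRegion n)
    (fun x : {x : E n // x ≠ e2} => cE n x.1.1 x.1.2)
    (fun x : {x : E n // x ≠ e2} => cO n (φ x).1.1 (φ x).1.2)
    (by
      intro x y hxy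
      exact Subtype.ext (cE_inj n _ _ hxy))
    (by
      intro x y hxy
      exact φ.injective (Subtype.ext (cO_inj n _ _ hxy)))
    (by
      intro q
      constructor
      · rintro ⟨x, rfl⟩
        refine ⟨(hmem _).2 ⟨cE_mem n x.1, ?_, hpar _ _⟩, even_cE n _ _⟩
        intro hx
        exact x.2 (cE_inj n _ _ hx)
      · rintro ⟨hq, he⟩
        rw [hmem] at hq
        obtain ⟨x, hx⟩ := exists_cE n q hq.1 he
        refine ⟨⟨x, ?_⟩, hx⟩
        rintro rfl
        exact hq.2.1 hx.symm)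
    (by
      intro q
      constructor
      · rintro ⟨x, rfl⟩
        refine ⟨(hmem _).2 ⟨cO_mem n _, (hpar _ _).symm, ?_⟩, odd_cO n _ _⟩
        intro hx
        exact (φ x).2 (cO_inj n _ _ hx)
      · rintro ⟨hq, he⟩
        rw [hmem] at hq
        obtain ⟨o, ho⟩ := exists_cO n q hq.1 he
        have ho1 : o ≠ o1 := by
          rintro rfl
          exact hq.2.2 ho.symm
        refine ⟨φ.symm ⟨o, ho1⟩, ?_⟩
        simp only [Equiv.apply_symm_apply]
        exact ho)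
    (fun x => (-1) ^ (a (φ x))) (fun x => (-1) ^ (b x))
    (Matrix.of fun i j : {x : E n // x ≠ e2} =>
      if (φ i : O n) = oe ∧ (j : E n) = ee then (-1 : ℤ)
      else K0Z (φ i).1.1 (φ i).1.2 j.1.1 j.1.2)
    (by
      intro i j
      rw [Matrix.of_apply, hgauge _ _ (φ i).2 j.2]
      push_cast
      rfl)
  rw [h, Nat.cast_natAbs, Int.cast_abs, Int.cast_det]
  congr 2
  ext i j
  rw [Matrix.map_apply, Matrix.of_apply, Matrix.of_apply]
  split_ifs
  · norm_num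
  · exact cast_K0Z n _ _

/-- an equivalence between the two families after deleting one element of each -/
theorem exists_phi (n : ℕ) (e2 : E n) (o1 : O n) :
    Nonempty ({x : E n // x ≠ e2} ≃ {o : O n // o ≠ o1}) := by
  refine ⟨Fintype.equivOfCardEq ?_⟩
  rw [Fintype.card_subtype_compl, Fintype.card_subtype_compl, Fintype.card_subtype_eq,
    Fintype.card_subtype_eq, Fintype.card_prod, Fintype.card_prod, Fintype.card_fin,
    Fintype.card_fin, Nat.mul_comm]

theorem knight_value (N : ℕ) (e2 ee : E (N + 1)) (o1 oe : O (N + 1)) (hne : ee ≠ e2)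
    (hholes : ∀ q : ℤ × ℤ, (q = (-1, -1) ∨ q = (0, 1)) ↔
      (q = cE (N + 1) e2.1 e2.2 ∨ q = cO (N + 1) o1.1 o1.2))
    (a : O (N + 1) → ℕ) (b : E (N + 1) → ℕ)
    (hgauge : ∀ (o : O (N + 1)) (x : E (N + 1)), o ≠ o1 → x ≠ e2 →
      (if o = oe ∧ x = ee then -1 else K0Z o.1 o.2 x.1 x.2) =
        (-1) ^ (a o) * (-1) ^ (b x) *
          kast (knightRegion (N + 1)) (cO (N + 1) o.1 o.2) (cE (N + 1) x.1 x.2))
    (H1 H2 : E (N + 1) → ℚ)
    (h1 : ∀ o, ∑ x, K0 (N + 1) o x * H1 x = if o = o1 then 1 else 0)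
    (h2 : ∀ o, ∑ x, K0 (N + 1) o x * H2 x = if o = oe then 1 else 0)
    (hκ : K0 (N + 1) oe ee = 1) :
    (numTilings (knightRegion (N + 1)) : ℚ) = 2 ^ ((N + 1) * (N + 2) / 2) *
      |H1 e2 * (1 - 2 * H2 ee) + 2 * (H2 e2 * H1 ee)| := by
  obtain ⟨φ⟩ := exists_phi (N + 1) e2 o1
  rw [count_eq (N + 1) e2 ee o1 oe hholes a b hgauge φ]
  obtain ⟨e, he⟩ := abs_det_minor (K0 (N + 1)) H1 H2 o1 oe e2 ee hne h1 h2 hκ φ
  rw [he, abs_det_K0]

theorem prod_fin_eq {m n : ℕ} (x : Fin m × Fin n) (a b : ℕ) (ha : a < m) (hb : b < n) :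
    x = (⟨a, ha⟩, ⟨b, hb⟩) ↔ (x.1 : ℕ) = a ∧ (x.2 : ℕ) = b := by
  constructor
  · rintro rfl
    exact ⟨rfl, rfl⟩
  · rintro ⟨h1, h2⟩
    ext
    · exact h1
    · exact h2

theorem knight_even (p : ℕ) :
    (numTilings (knightRegion (2 * (p + 1))) : ℚ) = 2 ^ (2 * (p + 1) * (2 * (p + 1) + 1) / 2) *
      |(Slt (p + 1) + Smid (p + 1)) * (((p + 1 + 1) / 2 : ℕ) : ℚ) *
        w (p + 1) ((p + 1 + 1) / 2)| := by
  rw [← val_even (p + 1) (by omega)]
  have key := knight_value (2 * p + 1)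
    (⟨p + 2, by omega⟩, ⟨p, by omega⟩) (⟨p + 1, by omega⟩, ⟨p, by omega⟩)
    (⟨p, by omega⟩, ⟨p + 1, by omega⟩) (⟨p + 1, by omega⟩, ⟨p + 1, by omega⟩)
    (by
      intro h
      rw [prod_fin_eq] at h
      simp only at h
      omega)
    (by
      intro q
      have e1 : ((-1, -1) : ℤ × ℤ) = AztecRegion.cO (2 * p + 1 + 1) p (p + 1) := by
        unfold AztecRegion.cO; ext <;> simp only <;> push_cast <;> omega
      have e2 : ((0, 1) : ℤ × ℤ) = AztecRegion.cE (2 * p + 1 + 1) (p + 2) p := by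
        unfold AztecRegion.cE; ext <;> simp only <;> push_cast <;> omega
      rw [e1, e2]
      exact or_comm)
    (fun o => (o.1 : ℕ) + (if (o.2 : ℕ) = p + 1 ∧ p + 1 ≤ (o.1 : ℕ) then 1 else 0) +
      (if p + 1 ≤ (o.2 : ℕ) then 1 else 0))
    (fun x => (x.1 : ℕ) + (if (x.2 : ℕ) + 1 = p + 1 ∧ p + 1 + 2 ≤ (x.1 : ℕ) then 1 else 0) +
      (if p + 1 ≤ (x.2 : ℕ) + 1 then 1 else 0))
    (by
      intro o x ho hx
      rw [Ne, prod_fin_eq] at ho hx
      have hg := gauge_even (p + 1) (by omega) o.1 o.2 x.1 x.2 (by have := o.1.2; omega)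
        (by have := o.2.2; omega) (by have := x.1.2; omega) (by have := x.2.2; omega)
        (by omega) (by omega)
      simp only [prod_fin_eq]
      have hc : (((o.1 : ℕ) = p + 1 ∧ (o.2 : ℕ) = p + 1) ∧ ((x.1 : ℕ) = p + 1 ∧ (x.2 : ℕ) = p)) ↔
          (((o.1 : ℕ) = p + 1 ∧ (o.2 : ℕ) = p + 1) ∧
            ((x.1 : ℕ) = p + 1 ∧ (x.2 : ℕ) + 1 = p + 1)) := by omega
      simp only [hc]
      exact hg)
    (fun x => (G (2 * p + 1 + 1) (ge (p + 1)) (p + 1) x.1).coeff x.2)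
    (fun x => (G (2 * p + 1 + 1) (ge (p + 1)) (p + 1 + 1) x.1).coeff x.2)
    (by
      intro o
      have hk := K0_G (2 * p + 1 + 1) (ge (p + 1)) (p + 1) (p + 1) (by omega) (by omega)
        (expand_even (p + 1)) o
      rw [hk]
      simp only [prod_fin_eq, Nat.add_right_cancel_iff])
    (by
      intro o
      have hk := K0_G (2 * p + 1 + 1) (ge (p + 1)) (p + 1 + 1) (p + 1) (by omega) (by omega)
        (expand_even (p + 1)) o
      rw [hk]
      simp only [prod_fin_eq, Nat.add_right_cancel_iff])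
    (by
      unfold K0
      rw [Matrix.of_apply]
      simp)
  exact key

theorem knight_odd (p : ℕ) :
    (numTilings (knightRegion (2 * (p + 1) + 1)) : ℚ) =
      2 ^ ((2 * (p + 1) + 1) * (2 * (p + 1) + 2) / 2) *
      |1 / 2 * Slt (p + 1) * (2 * (((p + 1) / 2 : ℕ) : ℚ) * w (p + 1) ((p + 1) / 2) -
        ∑ j ∈ range ((p + 1) / 2), w (p + 1) j + Slt (p + 1) + Smid (p + 1))| := by
  rw [← val_odd (p + 1)]
  have key := knight_value (2 * (p + 1))
    (⟨p + 1, by omega⟩, ⟨p + 1, by omega⟩) (⟨p + 2, by omega⟩, ⟨p + 1, by omega⟩)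
    (⟨p + 2, by omega⟩, ⟨p + 1, by omega⟩) (⟨p + 1, by omega⟩, ⟨p + 1, by omega⟩)
    (by
      intro h
      rw [prod_fin_eq] at h
      simp only at h
      omega)
    (by
      intro q
      have e1 : ((-1, -1) : ℤ × ℤ) = AztecRegion.cE (2 * (p + 1) + 1) (p + 1) (p + 1) := by
        unfold AztecRegion.cE; ext <;> simp only <;> push_cast <;> omega
      have e2 : ((0, 1) : ℤ × ℤ) = AztecRegion.cO (2 * (p + 1) + 1) (p + 2) (p + 1) := by
        unfold AztecRegion.cO; ext <;> simp only <;> push_cast <;> omega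
      rw [e1, e2])
    (fun o => (o.1 : ℕ) + (o.2 : ℕ) + 1 + (if p + 1 + 1 ≤ (o.2 : ℕ) then 1 else 0))
    (fun x => (x.1 : ℕ) + (x.2 : ℕ) + (if p + 1 ≤ (x.2 : ℕ) then 1 else 0))
    (by
      intro o x ho hx
      rw [Ne, prod_fin_eq] at ho hx
      have hg := gauge_odd (p + 1) (by omega) o.1 o.2 x.1 x.2 (by have := o.1.2; omega)
        (by have := o.2.2; omega) (by have := x.1.2; omega) (by have := x.2.2; omega)
        (by omega) (by omega)
      simp only [prod_fin_eq]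
      exact hg)
    (fun x => (G (2 * (p + 1) + 1) (go (p + 1)) (p + 1 + 2) x.1).coeff x.2)
    (fun x => (G (2 * (p + 1) + 1) (go (p + 1)) (p + 1 + 1) x.1).coeff x.2)
    (by
      intro o
      have hk := K0_G (2 * (p + 1) + 1) (go (p + 1)) (p + 1 + 2) (p + 1) (by omega) (by omega)
        (expand_odd (p + 1)) o
      rw [hk]
      simp only [prod_fin_eq, Nat.add_right_cancel_iff])
    (by
      intro o
      have hk := K0_G (2 * (p + 1) + 1) (go (p + 1)) (p + 1 + 1) (p + 1) (by omega) (by omega)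
        (expand_odd (p + 1)) o
      rw [hk]
      simp only [prod_fin_eq, Nat.add_right_cancel_iff])
    (by
      unfold K0
      rw [Matrix.of_apply]
      simp)
  exact key

theorem q_nonneg (k : ℕ) : 0 ≤ q k := by unfold q; positivity

theorem q_le_one (k : ℕ) : q k ≤ 1 := by
  unfold q
  rw [div_le_one (by positivity)]
  have h : Nat.centralBinom k ≤ 4 ^ k := by
    unfold Nat.centralBinom
    calc (2 * k).choose k ≤ 2 ^ (2 * k) := Nat.choose_le_two_pow _ _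
      _ = 4 ^ k := by rw [pow_mul]; norm_num
  exact_mod_cast h

theorem final0 (k : ℕ) (hk : 1 ≤ k) : (numTilings (knightRegion (4 * k)) : ℚ) =
    2 ^ (2 * k * (4 * k + 1)) * ((k : ℚ) / 2 * q k ^ 2 * (1 + q k ^ 2)) := by
  obtain ⟨p, hp⟩ : ∃ p, 2 * k = p + 1 := ⟨2 * k - 1, by omega⟩
  have h := knight_even p
  rw [← hp, val_even_even, abs_of_nonneg (by have := q_nonneg k; positivity)] at h
  rw [show 4 * k = 2 * (2 * k) by ring, h]
  congr 2
  rw [show 2 * (2 * k) * (2 * (2 * k) + 1) = 2 * (2 * k * (4 * k + 1)) by ring,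
    Nat.mul_div_cancel_left _ (by norm_num)]
  ring

theorem final1 (k : ℕ) (hk : 1 ≤ k) : (numTilings (knightRegion (4 * k + 1)) : ℚ) =
    2 ^ ((2 * k + 1) * (4 * k + 1)) * ((2 * (k : ℚ) + 1) / 4 * q k ^ 2 * (1 - q k ^ 2)) := by
  obtain ⟨p, hp⟩ : ∃ p, 2 * k = p + 1 := ⟨2 * k - 1, by omega⟩
  have h := knight_odd p
  have h1 : (0 : ℚ) ≤ 1 - q k ^ 2 := by
    have h1 := q_le_one k
    have h2 := q_nonneg k
    nlinarith
  rw [← hp, val_odd_even, abs_of_nonneg (by positivity)] at h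
  rw [show 4 * k + 1 = 2 * (2 * k) + 1 by ring, h]
  congr 2
  rw [show (2 * (2 * k) + 1) * (2 * (2 * k) + 2) = 2 * ((2 * k + 1) * (2 * (2 * k) + 1)) by ring,
    Nat.mul_div_cancel_left _ (by norm_num)]

theorem final2 (k : ℕ) : (numTilings (knightRegion (4 * k + 2)) : ℚ) =
    2 ^ ((2 * k + 1) * (4 * k + 3)) * ((2 * (k : ℚ) + 1) / 4 * q k ^ 2) := by
  have h := knight_even (2 * k)
  rw [val_even_odd, abs_of_nonneg (by have := q_nonneg k; positivity)] at h
  rw [show 4 * k + 2 = 2 * (2 * k + 1) by ring, h]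
  congr 2
  rw [show 2 * (2 * k + 1) * (2 * (2 * k + 1) + 1) = 2 * ((2 * k + 1) * (4 * k + 3)) by ring,
    Nat.mul_div_cancel_left _ (by norm_num)]

theorem final3 (k : ℕ) : (numTilings (knightRegion (4 * k + 3)) : ℚ) =
    2 ^ ((2 * k + 2) * (4 * k + 3)) * (((k : ℚ) + 1) / 2 * q (k + 1) ^ 2) := by
  have h := knight_odd (2 * k)
  rw [val_odd_odd, abs_of_nonneg (by have := q_nonneg (k + 1); positivity)] at h
  rw [show 4 * k + 3 = 2 * (2 * k + 1) + 1 by ring, h]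
  congr 2
  rw [show (2 * (2 * k + 1) + 1) * (2 * (2 * k + 1) + 2) =
    2 * ((2 * k + 2) * (2 * (2 * k + 1) + 1)) by ring,
    Nat.mul_div_cancel_left _ (by norm_num)]

end Pool.Agent.Helper848.KnightFinal
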